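import Pool.Agent.MP_ee8c61_ag.H4.Defs

/-! Values of rational functions at a point. -/

namespace Pool.Agent.MP_ee8c61_ag.H4

open Polynomial

/-- the rational function `R` is regular at `s` with value `v` -/
def ValAt (s : ℂ) (R : RatFunc ℂ) (v : ℂ) : Prop :=
  ∃ p q : ℂ[X], q.eval s ≠ 0 ∧ algebraMap ℂ[X] (RatFunc ℂ) q * R = algebraMap ℂ[X] (RatFunc ℂ) p ∧
    p.eval s = v * q.eval s

variable {s v v' : ℂ} {R R' : RatFunc ℂ}

lemma ValAt.congr (h : ValAt s R v) (h1 : R' = R) (h2 : v' = v) : ValAt s R' v' := by rwa [h1, h2]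

lemma ValAt.poly (p : ℂ[X]) : ValAt s (algebraMap ℂ[X] (RatFunc ℂ) p) (p.eval s) :=
  ⟨p, 1, by simp, by simp, by simp⟩

lemma ValAt.add (h : ValAt s R v) (h' : ValAt s R' v') : ValAt s (R + R') (v + v') := by
  obtain ⟨p, q, h1, h2, h3⟩ := h
  obtain ⟨p', q', h1', h2', h3'⟩ := h'
  refine ⟨p * q' + p' * q, q * q', by simp [h1, h1'], ?_, by simp [h3, h3']; ring⟩
  simp only [map_add, map_mul, ← h2, ← h2']; ring

lemma ValAt.mul (h : ValAt s R v) (h' : ValAt s R' v') : ValAt s (R * R') (v * v') := by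
  obtain ⟨p, q, h1, h2, h3⟩ := h
  obtain ⟨p', q', h1', h2', h3'⟩ := h'
  refine ⟨p * p', q * q', by simp [h1, h1'], ?_, by simp [h3, h3']; ring⟩
  simp only [map_mul, ← h2, ← h2']; ring

lemma ValAt.sum {ι : Type*} (S : Finset ι) {R : ι → RatFunc ℂ} {v : ι → ℂ}
    (h : ∀ i ∈ S, ValAt s (R i) (v i)) : ValAt s (∑ i ∈ S, R i) (∑ i ∈ S, v i) := by
  classical
  induction S using Finset.induction_on with
  | empty => simpa using ValAt.poly (s := s) 0
  | insert a S ha ih =>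
    rw [Finset.sum_insert ha, Finset.sum_insert ha]
    exact (h a (by simp)).add (ih fun i hi => h i (by simp [hi]))

lemma ValAt.int (m : ℤ) : ValAt s (m : RatFunc ℂ) m := by simpa using ValAt.poly (s := s) (m : ℂ[X])

lemma ValAt.inv {q : ℂ[X]} (h : q.eval s ≠ 0) :
    ValAt s (algebraMap ℂ[X] (RatFunc ℂ) q)⁻¹ (q.eval s)⁻¹ :=
  ⟨1, q, h, by
    rw [map_one, mul_inv_cancel₀ (RatFunc.algebraMap_ne_zero (by rintro rfl; simp at h))],
    by simp [h]⟩

/-- the local parameter at `s` -/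
noncomputable def xs (s : ℂ) : RatFunc ℂ := algebraMap ℂ[X] (RatFunc ℂ) (X - C s)

lemma xs_ne : xs s ≠ 0 := RatFunc.algebraMap_ne_zero (X_sub_C_ne_zero s)

lemma val_xs : ValAt s (xs s) 0 := (ValAt.poly (X - C s)).congr rfl (by simp)

lemma lin_eq (a k : ℕ) :
    lin a k = algebraMap ℂ[X] (RatFunc ℂ) ((a : ℂ[X]) * X + (k : ℂ[X]) + 1) := by
  simp [lin]

lemma val_inv {a k : ℕ} (h : a * s + k + 1 ≠ 0) : ValAt s (lin a k)⁻¹ (a * s + k + 1)⁻¹ := by
  exact (ValAt.inv (s := s) (q := (a : ℂ[X]) * X + (k : ℂ[X]) + 1) (by simpa using h)).congr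
    (by rw [lin_eq]) (by simp)

open Classical in
lemma val_lin (a k : ℕ) :
    ValAt s (xs s * (lin a k)⁻¹) (if a * s + k + 1 = 0 then (a : ℂ)⁻¹ else 0) := by
  split_ifs with h
  · have ha : (a : ℂ) ≠ 0 := by
      intro h1
      rw [h1, zero_mul, zero_add] at h
      exact absurd (by exact_mod_cast h : k + 1 = 0) (by omega)
    have e : lin a k = algebraMap ℂ[X] (RatFunc ℂ) (C (a : ℂ)) * xs s := by
      rw [lin_eq, xs, ← map_mul]
      congr 1
      have := congrArg C h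
      simp only [map_add, map_mul, map_natCast, map_one, map_zero] at this ⊢
      linear_combination this
    refine (ValAt.inv (s := s) (q := C (a : ℂ)) (by simpa using ha)).congr ?_ (by simp)
    rw [e, mul_inv, mul_left_comm, mul_inv_cancel₀ xs_ne, mul_one]
  · simpa using val_xs.mul (val_inv h)

lemma ValAt.of_zero (h : ValAt s (xs s * R) 0) : ∃ v, ValAt s R v := by
  obtain ⟨p, q, h1, h2, h3⟩ := h
  obtain ⟨p1, rfl⟩ := dvd_iff_isRoot.2 (show p.IsRoot s by simpa using h3)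
  refine ⟨p1.eval s / q.eval s, p1, q, h1, mul_left_cancel₀ (xs_ne (s := s)) ?_, by field_simp⟩
  rw [mul_left_comm, h2, map_mul, xs]

theorem poly_of_val (h : ∀ s, ∃ v, ValAt s R v) :
    ∃ Q : ℂ[X], R = algebraMap ℂ[X] (RatFunc ℂ) Q := by
  have h1 : R.denom.degree = 0 := by
    by_contra h1
    obtain ⟨s, hs⟩ := IsAlgClosed.exists_root _ h1
    obtain ⟨v, p, q, h2, h3, -⟩ := h s
    have hq : q ≠ 0 := by rintro rfl; simp at h2
    have : R.denom ∣ q := (RatFunc.denom_dvd hq).2 ⟨p, by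
      rw [eq_div_iff (RatFunc.algebraMap_ne_zero hq), mul_comm, h3]⟩
    exact h2 (hs.dvd this)
  refine ⟨R.num, ?_⟩
  have h2 := (R.monic_denom.degree_le_zero_iff_eq_one).1 h1.le
  conv_lhs => rw [← R.num_div_denom, h2]
  simp

end Pool.Agent.MP_ee8c61_ag.H4
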