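import Pool.Agent.MP_ee8c61_ag.H4.Generic
import Pool.Agent.MP_ee8c61_ag.H4.Val

/-! Numerical data of the exceptional divisors through a point, and their behaviour under
blowing up. -/

namespace Pool.Agent.MP_ee8c61_ag.H4

open Filter MvPolynomial
open scoped Polynomial

/-- data of the divisor `x = 0` when it divides the Jacobian -/
def Flag (F : R2) (k κ M μ : ℕ) : Prop :=
  0 < k → (∃ u, u ≠ 0 ∧ Lx F M μ u) ∧ (k + 1) * μ ≤ (κ + 2) * M

/-- the invariant carried along the tree of blow-ups -/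
structure Inv (F J : R2) (k l M μ M' μ' : ℕ) : Prop where
  jf : JF J k l
  fx : Flag F k l M μ
  fy : Flag (sw F) l k M' μ'

open Classical in
/-- `a` at the vertical direction, `b` at the horizontal one, `0` elsewhere -/
noncomputable def sel {α : Type*} [Zero α] (q : Option ℂ) (a b : α) : α :=
  q.elim a fun c => if c = 0 then b else 0

@[simp] lemma sel_none {α : Type*} [Zero α] (a b : α) : sel none a b = a := rfl
@[simp] lemma sel_zero {α : Type*} [Zero α] (a b : α) : sel (some 0) a b = b := by simp [sel]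
lemma sel_ne {α : Type*} [Zero α] {c : ℂ} (h : c ≠ 0) (a b : α) : sel (some c) a b = 0 := by
  simp [sel, h]

lemma opt_cases (q : Option ℂ) : q = none ∨ q = some 0 ∨ ∃ c, c ≠ 0 ∧ q = some c := by
  cases q with
  | none => simp
  | some c => by_cases h : c = 0 <;> simp [h]

variable {F J : R2} {k l M μ M' μ' D : ℕ}

lemma Inv.sw (h : Inv F J k l M μ M' μ') : Inv (sw F) (sw J) l k M' μ' M μ :=
  ⟨h.jf.sw, h.fy, by simpa using h.fx⟩

lemma JF.unique {k' l' : ℕ} (h : JF J k l) (h' : JF J k' l') : k = k' ∧ l = l' := by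
  obtain ⟨u, h1, h2⟩ := h.lx
  obtain ⟨u', h1', h2'⟩ := h'.lx
  exact ⟨(h2.unique h2' h1 h1').1, (h2.unique h2' h1 h1').2.1⟩

lemma JF.chart (h : JF J k l) (q : Option ℂ) : JF (chart q J) (k + l) (sel q k l) := by
  obtain ⟨U, hU, rfl⟩ := h
  rcases opt_cases q with rfl | rfl | ⟨c, hc, rfl⟩
  · exact ⟨H4.chart none U, by rwa [cc_chart], by
      simp only [map_mul, map_pow, chart_none_X0, chart_none_X1, sel_none]; ring⟩
  · exact ⟨H4.chart (some 0) U, by rwa [cc_chart], by
      simp only [map_mul, map_pow, chart_some_X0, chart_some_X1, sel_zero, map_zero, add_zero]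
      ring⟩
  · exact ⟨(X 1 + C c) ^ l * H4.chart (some c) U, by simp [cc_chart, hc, hU], by
      simp only [map_mul, map_pow, chart_some_X0, chart_some_X1, sel_ne hc, mul_pow]; ring⟩

lemma JF.X0 (h : JF J k l) : JF (X 0 * J) (k + 1) l := by
  obtain ⟨U, hU, rfl⟩ := h
  exact ⟨U, hU, by ring⟩

lemma JF.kap (h : JF J k l) : PowerSeries.X ^ (k + l) ∣ kap J ∧ homogeneousComponent (k + l) J ≠ 0 ∧
    ∀ q, ord q (homogeneousComponent (k + l) J) = sel q k l := by
  have h1 : PowerSeries.X ^ (k + l) ∣ H4.kap J := by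
    obtain ⟨U, hU, rfl⟩ := h
    exact ⟨PowerSeries.C (X 0) ^ k * PowerSeries.C (X 1) ^ l * H4.kap U, by
      simp only [map_mul, map_pow, H4.kap, aeval_X]; ring⟩
  have h2 : homogeneousComponent (k + l) J ≠ 0 := fun e => by
    obtain ⟨u, h3, h4⟩ := (h.chart none).lx
    exact h3 (by rw [← h4.lc_eq, lc, ld_chart, e]; simp)
  refine ⟨h1, h2, fun q => ?_⟩
  obtain ⟨u, h3, h4⟩ := (h.chart q).lx
  exact ((lx_chart q h1).unique h4 (tc_ne (homogeneousComponent_isHomogeneous _ _) h2 q) h3).2.1

lemma Flag.tt {K : ℕ} (h : Flag F k l M μ) (hK : K = k + l + 1) : Flag (tt F) k K M (M + μ) :=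
  fun h1 => by
    obtain ⟨⟨u, h2, h3⟩, h4⟩ := h h1
    exact ⟨⟨u, h2, h3.tt⟩, by subst hK; nlinarith⟩

lemma Inv.old (h : Inv F J k l M μ M' μ') (q : Option ℂ) :
    Flag (H4.sw (chart q F)) (sel q k l) (k + l + 1) (sel q M M') (sel q (M + μ) (M' + μ')) := by
  rcases opt_cases q with rfl | rfl | ⟨c, hc, rfl⟩
  · simpa [sw_chart_none] using h.fx.tt rfl
  · simpa [sw_chart_zero] using h.fy.tt (by ring)
  · simp [Flag, sel_ne hc]

lemma Inv.bd (h : Inv F J k l M μ M' μ') (hF : PowerSeries.X ^ D ∣ kap F)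
    (hF0 : homogeneousComponent D F ≠ 0) (q : Option ℂ) :
    D * ord q (homogeneousComponent (k + l) J) ≤ (k + l + 2) * ord q (homogeneousComponent D F) := by
  rw [h.jf.kap.2.2]
  rcases Nat.eq_zero_or_pos (sel q k l) with h0 | h0
  · simp [h0]
  obtain ⟨⟨u, h1, h2⟩, h3⟩ := h.old q h0
  have h4 := lx_chart q hF
  have h5 := h4.two (tc_ne (homogeneousComponent_isHomogeneous _ _) hF0 q) h2
  have h6 := h2.two h1 (by simpa using h4)
  have h7 : sel q M M' ≤ sel q (M + μ) (M' + μ') := by
    rcases opt_cases q with rfl | rfl | ⟨c, hc, rfl⟩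
    · simp
    · simp
    · simp [sel_ne hc]
  nlinarith

lemma Inv.chart (h : Inv F J k l M μ M' μ') (hF : PowerSeries.X ^ D ∣ kap F)
    (hF0 : homogeneousComponent D F ≠ 0) (q : Option ℂ) :
    Inv (chart q F) (X 0 * chart q J) (k + l + 1) (sel q k l) D
      (ord q (homogeneousComponent D F)) (sel q M M') (sel q (M + μ) (M' + μ')) := by
  classical
  refine ⟨(h.jf.chart q).X0, fun _ => ⟨⟨_, tc_ne (homogeneousComponent_isHomogeneous _ _) hF0 q,
    lx_chart q hF⟩, ?_⟩, h.old q⟩
  obtain ⟨Q, hq, Q1, Q2, -⟩ := ord3 (homogeneousComponent D F) (homogeneousComponent (k + l) J) 0 q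
  have s1 := ord_sum (homogeneousComponent_isHomogeneous _ _) hF0 Q Q1
  have s2 := ord_sum (homogeneousComponent_isHomogeneous _ _) h.jf.kap.2.1 Q Q2
  have s3 := Finset.sum_le_sum fun q' (_ : q' ∈ Q.erase q) => h.bd hF hF0 q'
  rw [← Finset.add_sum_erase _ _ hq] at s1 s2
  rw [← Finset.mul_sum, ← Finset.mul_sum] at s3
  rw [h.jf.kap.2.2] at s2
  nlinarith

lemma Inv.out {S : Finset (Option ℂ)} {K : ℕ} (h : Inv F J k l M μ M' μ')
    (hJ : ∀ q ∉ S, JF (X 0 * H4.chart q J) K 0) : K = k + l + 1 ∧ ∀ q ∉ S, sel q k l = 0 := by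
  obtain ⟨q0, hq0⟩ := Infinite.exists_notMem_finset S
  exact ⟨((hJ q0 hq0).unique (h.jf.chart q0).X0).1,
    fun q hq => ((hJ q hq).unique (h.jf.chart q).X0).2.symm⟩

theorem GZ.double {n : ℕ} {I : Ideal R2} {Z : RatFunc ℂ} (h : GZ n I F J Z) (s : ℂ) :
    ∃ v, ValAt s (xs s * xs s * Z) v := by
  induction h with
  | snc I F J z w a b k l h =>
    exact ⟨_, ((val_lin a k).mul (val_lin b l)).congr (by rw [one_div, mul_inv]; ring) rfl⟩
  | blow I F J S N k Z hN hI hF hF0 hJ hz hS ih =>
    choose! v hv using ih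
    refine ⟨_, ((((ValAt.int (2 - S.card)).mul val_xs).mul (val_lin N k)).add
      (ValAt.sum S hv)).congr ?_ rfl⟩
    rw [← Finset.mul_sum, div_eq_mul_inv]
    push_cast
    ring

open Classical in
/-- residue along the divisor `x = 0` at the origin -/
noncomputable def res (t : ℂ) (k κ M μ : ℕ) : ℂ :=
  if 0 < k ∧ M * t + k + 1 = 0 then (M * (μ * t + κ + 1) : ℂ)⁻¹ else 0

lemma res_tt (t : ℂ) (k κ M μ : ℕ) : res t k (k + κ + 1) M (M + μ) = res t k κ M μ := by
  unfold res
  split_ifs with h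
  · congr 2; push_cast; linear_combination h.2
  · rfl

lemma sum_sel {S : Finset (Option ℂ)} {a b : ℂ} (ha : none ∉ S → a = 0) (hb : some 0 ∉ S → b = 0) :
    ∑ q ∈ S, sel q a b = a + b := by
  classical
  have : ∀ q, sel q a b = (if q = none then a else 0) + if q = some 0 then b else 0 := fun q => by
    rcases opt_cases q with rfl | rfl | ⟨c, hc, rfl⟩
    · simp
    · simp
    · simp [sel_ne hc, hc]
  simp only [this, Finset.sum_add_distrib, Finset.sum_ite_eq']
  congr 1 <;> split_ifs <;> simp_all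

theorem GZ.noroot {n : ℕ} {I : Ideal R2} {Z : RatFunc ℂ} (h : GZ n I F J Z) {t : ℂ} {b : ℂ[X]}
    (hn : n ≠ 0) (hb : b.eval (n * t) ≠ 0) {A B : ℕ → R2} (hs : Sol t b F I n J A B)
    (hi : Inv F J k l M μ M' μ') (z1 : 0 < k → M * t + k + 1 = 0 → μ * t + l + 1 ≠ 0)
    (z2 : 0 < l → M' * t + l + 1 = 0 → μ' * t + k + 1 ≠ 0) :
    ValAt (n * t) (xs (n * t) * Z) (n * (res t k l M μ + res t l k M' μ')) := by
  have hn' : (n : ℂ) ≠ 0 := by exact_mod_cast hn
  induction h generalizing A B k l M μ M' μ' with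
  | snc I F J z w a c k0 l0 h =>
    obtain ⟨z, w, a, c, h, h1, h2, e⟩ := h.normal hi.jf
    rw [e]
    have key : ∀ {I F J z w a c k l M μ A B}, Node n I F J z w a c k l → Sol t b F I n J A B →
        (0 < k → z = X 0) → Flag F k l M μ → (0 < k → M * t + k + 1 = 0 → μ * t + l + 1 ≠ 0) →
        (a * (n * t) + k + 1 = 0 → c * (n * t) + l + 1 ≠ 0) ∧ n * res t k l M μ =
          if a * (n * t) + k + 1 = 0 then (a : ℂ)⁻¹ * (c * (n * t) + l + 1)⁻¹ else 0 := by
      intro I F J z w a c k l M μ A B h hs h1 hf z1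
      rcases Nat.eq_zero_or_pos k with rfl | hk
      · have : (a * (n * t) + (0 : ℕ) + 1 : ℂ) ≠ 0 := fun e =>
          hb (h.root hs (by push_cast at e ⊢; linear_combination e))
        exact ⟨fun e => absurd e this, by rw [if_neg this]; simp [res]⟩
      · obtain rfl := h1 hk
        obtain ⟨⟨u, h2, h3⟩, -⟩ := hf hk
        obtain ⟨u', h4, h5⟩ := h.lx
        obtain ⟨rfl, rfl, -⟩ := h3.unique h5 h2 h4
        have e1 : ((n * a : ℕ) : ℂ) * t = a * (n * t) := by push_cast; ring
        have e2 : ((n * c : ℕ) : ℂ) * t = c * (n * t) := by push_cast; ring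
        rw [e1, e2] at z1
        refine ⟨z1 hk, ?_⟩
        simp only [res, hk, true_and, e1, e2]
        split_ifs
        · push_cast; rw [mul_inv, mul_inv, ← mul_assoc, ← mul_assoc, mul_inv_cancel₀ hn', one_mul]
        · simp
    obtain ⟨a1, a2⟩ := key h hs h1 hi.fx z1
    obtain ⟨a3, a4⟩ := key h.sw hs.sw (fun h => by rw [h2 h, sw_X1]) hi.fy z2
    rw [mul_add, a2, a4]
    by_cases c1 : (a * (n * t) + k + 1 : ℂ) = 0
    · refine ((val_lin a k).mul (val_inv (a1 c1))).congr (by rw [one_div, mul_inv]; ring) ?_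
      rw [if_pos c1, if_pos c1, if_neg (a1 c1), add_zero]
    · refine ((val_lin c l).mul (val_inv c1)).congr (by rw [one_div, mul_inv]; ring) ?_
      rw [if_neg c1, zero_add]
      split_ifs <;> simp
  | blow I F J S N K Z hN hI hF hF0 hJ hz hS ih =>
    classical
    obtain ⟨rfl, h0⟩ := hi.out hJ
    set Φ := homogeneousComponent (n * N) F with hΦ
    have e1 : ((n * N : ℕ) : ℂ) * t = N * (n * t) := by push_cast; ring
    have key : (n * N : ℕ) * t + (k + l + 1 : ℕ) + 1 = 0 →
        (∀ q, ord q Φ * t + (sel q k l : ℕ) + 1 ≠ 0) ∧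
          ∑ q ∈ S, (ord q Φ * t + (sel q k l : ℕ) + 1)⁻¹ = S.card - 2 := fun hc => by
      obtain ⟨e, β, ho, -⟩ := hs.exc hN hI hF hF0 hi.jf.kap.1 hi.jf.kap.2.1
        (by push_cast at hc ⊢; linear_combination hc) (hi.bd hF hF0)
      obtain ⟨a1, q1, q2, a2, a3, a4⟩ := ho.a hb
      simp only [hi.jf.kap.2.2, ← hΦ] at a1 a3 a4
      refine ⟨a1, ?_⟩
      have t0 : t ≠ 0 := by
        rintro rfl
        exact ne_of_crit hc 0 (by simp)
      have a5 : ∀ q ∉ S, ord q Φ = 0 := by
        refine hz.resolve_right ?_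
        rintro ⟨q, hq, hq'⟩
        have : ∀ i, q i = q1 ∨ q i = q2 := fun i => by
          by_contra h; push Not at h
          have := a4 _ h.1 h.2
          rw [h0 _ (hq' i).1] at this
          exact (hq' i).2 (by simpa [t0] using this)
        have n01 : q 0 ≠ q 1 := hq.ne (by decide)
        have n02 : q 0 ≠ q 2 := hq.ne (by decide)
        have n12 : q 1 ≠ q 2 := hq.ne (by decide)
        rcases this 0 with h | h <;> rcases this 1 with h' | h' <;> rcases this 2 with h'' | h'' <;>
          simp_all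
      set α : Option ℂ → ℂ := fun q => ord q Φ * t + (sel q k l : ℕ) + 1 with hα
      have a6 : ∑ q ∈ S, ((α q)⁻¹ - 1) = ∑ q ∈ {q1, q2}, ((α q)⁻¹ - 1) := by
        refine (Finset.sum_subset (Finset.subset_union_left) ?_).trans
          (Finset.sum_subset (Finset.subset_union_right) ?_).symm
        · intro q _ hq; simp [hα, a5 q hq, h0 q hq]
        · intro q _ hq
          simp only [Finset.mem_insert, Finset.mem_singleton, not_or] at hq
          rw [show α q = 1 from a4 q hq.1 hq.2]; simp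
      rw [Finset.sum_pair a2, Finset.sum_sub_distrib, show α q2 = -α q1 by linear_combination a3,
        inv_neg] at a6
      simp only [Finset.sum_const, nsmul_eq_mul, mul_one] at a6
      linear_combination a6
    have ih' := fun q hq => ih q hq (hs.chart q) (hi.chart hF hF0 q)
      (fun _ hc => (key hc).1 q) (by
        rcases opt_cases q with rfl | rfl | ⟨c, hc, rfl⟩
        · intro a1 a2 a3
          simp only [sel_none] at a1 a2 a3
          exact z1 a1 a2 (by push_cast at a3; linear_combination a3 - a2)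
        · intro a1 a2 a3
          simp only [sel_zero] at a1 a2 a3
          exact z2 a1 a2 (by push_cast at a3; linear_combination a3 - a2)
        · simp [sel_ne hc])
    refine (((ValAt.int (2 - S.card)).mul (val_lin N (k + l + 1))).add
      (ValAt.sum S ih')).congr ?_ ?_
    · rw [← Finset.mul_sum, div_eq_mul_inv]
      push_cast
      ring
    have e2 : ∀ q, res t (sel q k l) (k + l + 1) (sel q M M') (sel q (M + μ) (M' + μ')) =
        sel q (res t k l M μ) (res t l k M' μ') := fun q => by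
      rcases opt_cases q with rfl | rfl | ⟨c, hc, rfl⟩
      · simp [res_tt]
      · simp [add_comm k l, res_tt]
      · simp [sel_ne hc, res]
    rw [← Finset.mul_sum, Finset.sum_add_distrib]
    simp only [e2]
    rw [sum_sel (fun h => by simp [res, show k = 0 from h0 _ h])
      (fun h => by simp [res, show l = 0 by simpa using h0 _ h]), ← e1]
    split_ifs with hc
    · generalize res t k l M μ = r1
      generalize res t l k M' μ' = r2
      simp only [res, hc, Nat.succ_pos', and_self, if_true, mul_inv, ← Finset.mul_sum, ← hΦ,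
        (key hc).2]
      push_cast
      field_simp
      ring
    · simp [res, hc, -Nat.cast_mul, -Nat.cast_add]

end Pool.Agent.MP_ee8c61_ag.H4
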