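import Mathlib

/-! Definitions for the strong monodromy conjecture (with multiplicities) for ideals of `ℂ[x,y]`. -/

namespace Pool.Agent.MP_ee8c61_ag.H4

open MvPolynomial

/-- The polynomial ring `ℂ[x,y]`, `x = X 0`, `y = X 1`. -/
abbrev R2 : Type := MvPolynomial (Fin 2) ℂ

/-- Elements of `D[s_1, ..., s_r]`: finite sums of `p(x, y, s) ∂_{i_1} ⋯ ∂_{i_k}`. -/
abbrev DiffOp (r : ℕ) : Type := List (Fin 2) →₀ MvPolynomial (Fin 2) (MvPolynomial (Fin r) ℂ)

/-- The operator with `s` specialised to natural numbers, applied to a polynomial. -/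
noncomputable def act {r : ℕ} (P : DiffOp r) (s : Fin r → ℕ) (g : R2) : R2 :=
  P.sum fun L p => map (eval fun j => (s j : ℂ)) p * L.foldr (fun i h => pderiv i h) g

/-- The Bernstein-Sato functional equation of `(f_1, ..., f_r)`, at all `s ∈ ℕ^r`. -/
def IsBS {r : ℕ} (f : Fin r → R2) (b : Polynomial ℂ) : Prop :=
  ∃ (S : Finset (Fin r → ℤ)) (P : (Fin r → ℤ) → DiffOp r), (∀ c ∈ S, ∑ j, c j = 1) ∧
    ∀ s : Fin r → ℕ, C (b.eval (∑ j, (s j : ℂ))) * ∏ j, f j ^ s j =
      ∑ c ∈ S, act (P c) s
        (C (∏ j, ((s j).choose (-c j).toNat : ℂ)) * ∏ j, f j ^ ((s j : ℤ) + c j).toNat)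

/-- Pull-back to the chart of the blow-up of the origin centred at the point `q` of the
exceptional line: slope `c` for `q = some c`, vertical direction for `q = none`. In each chart
the exceptional line is `x = 0`, and the Jacobian determinant of the chart map is `± x`. -/
noncomputable def chart (q : Option ℂ) : R2 →ₐ[ℂ] R2 :=
  aeval (q.elim ![X 0 * X 1, X 0] fun c => ![X 0, X 0 * (X 1 + C c)])

/-- `f_1, ..., f_r` generate the principal ideal `(g)` in the local ring at the origin. -/
def Gen {r : ℕ} (f : Fin r → R2) (g : R2) : Prop :=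
  ∃ u : R2, constantCoeff u ≠ 0 ∧ u * g ∈ Ideal.span (Set.range f) ∧ ∀ i, g ∣ u * f i

/-- `z, w` are local coordinates at the origin. -/
def Coord (z w : R2) : Prop :=
  constantCoeff z = 0 ∧ constantCoeff w = 0 ∧
    constantCoeff (pderiv 0 z * pderiv 1 w - pderiv 1 z * pderiv 0 w) ≠ 0

/-- The linear form `a s + k + 1`. -/
noncomputable def lin (a k : ℕ) : RatFunc ℂ := (a : RatFunc ℂ) * RatFunc.X + (k : RatFunc ℂ) + 1

/-- `LocZeta f J Z`: `f` are the total transforms of the generators in a chart, `J` the Jacobian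
determinant of the chart over the plane, and `Z` is the part of the Denef-Loeser sum lying over
the origin of the chart, for a log resolution obtained by point blow-ups. -/
inductive LocZeta {r : ℕ} : (Fin r → R2) → R2 → RatFunc ℂ → Prop
  | snc (f : Fin r → R2) (J z w : R2) (a b k l : ℕ) (hzw : Coord z w)
      (hf : Gen f (z ^ a * w ^ b)) (hJ : Gen ![J] (z ^ k * w ^ l)) :
      LocZeta f J (1 / (lin a k * lin b l))
  | blow (f : Fin r → R2) (J : R2) (S : Finset (Option ℂ)) (N k : ℕ) (Z : Option ℂ → RatFunc ℂ)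
      (hN : 0 < N)
      (hgen : ∀ q, q ∉ S → Gen (fun i => chart q (f i)) (X 0 ^ N) ∧
        Gen ![X 0 * chart q J] (X 0 ^ k))
      (hS : ∀ q ∈ S, LocZeta (fun i => chart q (f i)) (X 0 * chart q J) (Z q)) :
      LocZeta f J ((2 - (S.card : RatFunc ℂ)) / lin N k + ∑ q ∈ S, Z q)

/-- Translation moving the point `P` to the origin. -/
noncomputable def shift (P : Fin 2 → ℂ) : R2 →ₐ[ℂ] R2 := aeval fun i => X i + C (P i)

end Pool.Agent.MP_ee8c61_ag.H4
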