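import Mathlib

/-! Families indexed by a natural number `τ` that are a power times a polynomial in `τ`. -/

namespace Pool.Agent.MP_ee8c61_ag.H4

open Filter Polynomial

section PolV

variable {S : Type*} [CommRing S] [Algebra ℂ S] (t : ℂ)

/-- `g` is eventually a polynomial in `τ`, whose value at `t` is `v`. -/
def PolV (g : ℕ → S) (v : S) : Prop :=
  ∃ p : S[X], (∀ᶠ τ : ℕ in atTop, g τ = p.eval (τ : S)) ∧ p.eval (algebraMap ℂ S t) = v

variable {t}

lemma PolV.const (a : S) : PolV t (fun _ => a) a := ⟨C a, by simp, by simp⟩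

lemma PolV.tau : PolV t (fun τ => (τ : S)) (algebraMap ℂ S t) := ⟨X, by simp, by simp⟩

lemma PolV.congr {g g' : ℕ → S} {v : S} (h : PolV t g v) (e : ∀ᶠ τ in atTop, g' τ = g τ) :
    PolV t g' v := by
  obtain ⟨p, hp, hv⟩ := h
  exact ⟨p, by filter_upwards [hp, e] with τ h1 h2 using h2.trans h1, hv⟩

lemma PolV.congr_val {g : ℕ → S} {v v' : S} (h : PolV t g v) (e : v = v') : PolV t g v' := e ▸ h

lemma PolV.add {g g' : ℕ → S} {v v' : S} (h : PolV t g v) (h' : PolV t g' v') :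
    PolV t (fun τ => g τ + g' τ) (v + v') := by
  obtain ⟨p, hp, hv⟩ := h
  obtain ⟨p', hp', hv'⟩ := h'
  exact ⟨p + p', by filter_upwards [hp, hp'] with τ h1 h2 using by simp [h1, h2],
    by simp [hv, hv']⟩

lemma PolV.mul {g g' : ℕ → S} {v v' : S} (h : PolV t g v) (h' : PolV t g' v') :
    PolV t (fun τ => g τ * g' τ) (v * v') := by
  obtain ⟨p, hp, hv⟩ := h
  obtain ⟨p', hp', hv'⟩ := h'
  exact ⟨p * p', by filter_upwards [hp, hp'] with τ h1 h2 using by simp [h1, h2],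
    by simp [hv, hv']⟩

lemma PolV.cmul (a : S) {g : ℕ → S} {v : S} (h : PolV t g v) :
    PolV t (fun τ => a * g τ) (a * v) := (PolV.const a).mul h

lemma PolV.neg {g : ℕ → S} {v : S} (h : PolV t g v) : PolV t (fun τ => -g τ) (-v) := by
  simpa using h.cmul (-1)

lemma PolV.sub {g g' : ℕ → S} {v v' : S} (h : PolV t g v) (h' : PolV t g' v') :
    PolV t (fun τ => g τ - g' τ) (v - v') := by
  simpa [sub_eq_add_neg] using h.add h'.neg

lemma PolV.map {S' : Type*} [CommRing S'] [Algebra ℂ S'] (δ : S →ₗ[ℂ] S') {g : ℕ → S} {v : S}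
    (h : PolV t g v) : PolV t (fun τ => δ (g τ)) (δ v) := by
  obtain ⟨p, hp, rfl⟩ := h
  have key : ∀ c : ℂ, (p.sum fun n a => monomial n (δ a)).eval (algebraMap ℂ S' c) =
      δ (p.eval (algebraMap ℂ S c)) := by
    intro c
    rw [eval_eq_sum (p := p), Polynomial.sum, Polynomial.sum, eval_finsetSum, map_sum]
    refine Finset.sum_congr rfl fun n _ => ?_
    rw [eval_monomial, ← map_pow, ← map_pow, mul_comm, mul_comm (p.coeff n), ← Algebra.smul_def,
      ← Algebra.smul_def, map_smul]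
  refine ⟨p.sum fun n a => monomial n (δ a), ?_, key t⟩
  filter_upwards [hp] with τ h1
  have := key τ
  simp only [map_natCast] at this
  rw [this, h1]

lemma PolV.poly (p : ℂ[X]) : PolV t (fun τ => algebraMap ℂ S (p.eval (τ : ℂ)))
    (algebraMap ℂ S (p.eval t)) :=
  PolV.map (Algebra.linearMap ℂ S) (g := fun τ => p.eval (τ : ℂ)) ⟨p, by simp, by simp⟩

lemma PolV.split {g : ℕ → S} {v : S} (h : PolV t g v) :
    ∃ g1 v1, PolV t g1 v1 ∧ ∀ᶠ τ : ℕ in atTop, g τ = v + ((τ : S) - algebraMap ℂ S t) * g1 τ := by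
  obtain ⟨p, hp, rfl⟩ := h
  obtain ⟨q, hq⟩ := X_sub_C_dvd_sub_C_eval (a := algebraMap ℂ S t) (p := p)
  refine ⟨fun τ => q.eval (τ : S), _, ⟨q, by simp, rfl⟩, ?_⟩
  filter_upwards [hp] with τ h1
  have := congrArg (eval (τ : S)) hq
  simp only [eval_sub, eval_C, eval_mul, eval_X] at this
  rw [h1, ← this]; ring

lemma PolV.unique0 {g : ℕ → ℂ} {v v' : ℂ} (h : PolV t g v) (h' : PolV t g v') : v = v' := by
  obtain ⟨p, hp, rfl⟩ := h
  obtain ⟨p', hp', rfl⟩ := h'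
  have : p = p' := by
    apply eq_of_infinite_eval_eq
    obtain ⟨N, hN⟩ := eventually_atTop.1 (hp.and hp')
    refine Set.infinite_of_injective_forall_mem (f := fun n : ℕ => ((N + n : ℕ) : ℂ)) ?_ ?_
    · intro a b hab
      have := Nat.cast_injective (R := ℂ) hab
      omega
    · intro n
      have := hN (N + n) (by omega)
      exact this.1.symm.trans this.2
  rw [this]

lemma PolV.mem {g : ℕ → S} {v : S} (h : PolV t g v) (K : Submodule ℂ S)
    (hK : ∀ᶠ τ in atTop, g τ ∈ K) : v ∈ K := by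
  by_contra hv
  obtain ⟨l, hl, hl0⟩ := K.exists_le_ker_of_notMem hv
  refine hl ((h.map l).unique0 ((PolV.const 0).congr ?_))
  filter_upwards [hK] with τ h1 using hl0 h1

lemma PolV.unique {g : ℕ → S} {v v' : S} (h : PolV t g v) (h' : PolV t g v') : v = v' := by
  have := (h.sub h').mem ⊥ (by simp)
  exact sub_eq_zero.1 (by simpa using this)

lemma PolV.div [IsDomain S] {p : S} (hp : p ≠ 0) {g g' : ℕ → S} {v : S} (h : PolV t g v)
    (hg : ∀ᶠ τ in atTop, g τ = p * g' τ) : ∃ v', PolV t g' v' ∧ v = p * v' := by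
  obtain ⟨l, hl⟩ := (LinearMap.mulLeft ℂ p).exists_leftInverse_of_injective
    (LinearMap.ker_eq_bot.2 (mul_right_injective₀ hp))
  have h1 : PolV t g' (l v) := (h.map l).congr (by
    filter_upwards [hg] with τ h1
    rw [h1]
    exact (LinearMap.congr_fun hl (g' τ)).symm)
  exact ⟨_, h1, (h.congr (by filter_upwards [hg] with τ h1 using h1.symm)).unique (h1.cmul p)⟩

end PolV

section PV

variable {S : Type*} [CommRing S] [Algebra ℂ S] (t : ℂ)

/-- `z τ = φ ^ (τ - e) * g τ` with `g` polynomial of value `v` at `t`. -/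
def PV (φ : S) (e : ℕ) (z : ℕ → S) (v : S) : Prop :=
  ∃ g, PolV t g v ∧ ∀ᶠ τ : ℕ in atTop, z τ = φ ^ (τ - e) * g τ

variable {t} {φ : S} {e : ℕ}

lemma PV.congr {z z' : ℕ → S} {v : S} (h : PV t φ e z v) (h' : ∀ᶠ τ in atTop, z' τ = z τ) :
    PV t φ e z' v := by
  obtain ⟨g, hg, hz⟩ := h
  exact ⟨g, hg, by filter_upwards [hz, h'] with τ h1 h2 using h2.trans h1⟩

lemma PV.congr_val {z : ℕ → S} {v v' : S} (h : PV t φ e z v) (h' : v = v') : PV t φ e z v' :=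
  h' ▸ h

lemma PV.shift {z : ℕ → S} {v : S} (h : PV t φ e z v) (m : ℕ) :
    PV t φ (e + m) z (φ ^ m * v) := by
  obtain ⟨g, hg, hz⟩ := h
  refine ⟨_, hg.cmul (φ ^ m), ?_⟩
  filter_upwards [hz, eventually_ge_atTop (e + m)] with τ h1 h2
  rw [h1, ← mul_assoc, ← pow_add]
  congr 2; omega

lemma PV.add {z z' : ℕ → S} {v v' : S} (h : PV t φ e z v) (h' : PV t φ e z' v') :
    PV t φ e (fun τ => z τ + z' τ) (v + v') := by
  obtain ⟨g, hg, hz⟩ := h
  obtain ⟨g', hg', hz'⟩ := h'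
  exact ⟨_, hg.add hg', by filter_upwards [hz, hz'] with τ h1 h2 using by rw [h1, h2]; ring⟩

lemma PV.pmul {z g : ℕ → S} {v w : S} (hg : PolV t g w) (h : PV t φ e z v) :
    PV t φ e (fun τ => g τ * z τ) (w * v) := by
  obtain ⟨g', hg', hz⟩ := h
  exact ⟨_, hg.mul hg', by filter_upwards [hz] with τ h1 using by rw [h1]; ring⟩

lemma PV.cmul (a : S) {z : ℕ → S} {v : S} (h : PV t φ e z v) :
    PV t φ e (fun τ => a * z τ) (a * v) := h.pmul (PolV.const a)

lemma PV.neg {z : ℕ → S} {v : S} (h : PV t φ e z v) : PV t φ e (fun τ => -z τ) (-v) := by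
  simpa using h.cmul (-1)

lemma PV.mul {ψ : S} {z z' : ℕ → S} {v v' : S} (h : PV t φ e z v) (h' : PV t ψ e z' v') :
    PV t (φ * ψ) e (fun τ => z τ * z' τ) (v * v') := by
  obtain ⟨g, hg, hz⟩ := h
  obtain ⟨g', hg', hz'⟩ := h'
  exact ⟨_, hg.mul hg', by
    filter_upwards [hz, hz'] with τ h1 h2 using by rw [h1, h2, mul_pow]; ring⟩

lemma PV.map {S' : Type*} [CommRing S'] [Algebra ℂ S'] (κ : S →ₐ[ℂ] S') {z : ℕ → S} {v : S}
    (h : PV t φ e z v) : PV t (κ φ) e (fun τ => κ (z τ)) (κ v) := by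
  obtain ⟨g, hg, hz⟩ := h
  exact ⟨_, hg.map κ.toLinearMap, by filter_upwards [hz] with τ h1 using by simp [h1]⟩

lemma PV.unique [IsDomain S] (hφ : φ ≠ 0) {z : ℕ → S} {v v' : S} (h : PV t φ e z v)
    (h' : PV t φ e z v') : v = v' := by
  obtain ⟨g, hg, hz⟩ := h
  obtain ⟨g', hg', hz'⟩ := h'
  refine hg.unique (hg'.congr ?_)
  filter_upwards [hz, hz'] with τ h1 h2
  exact mul_left_cancel₀ (pow_ne_zero _ hφ) (h1.symm.trans h2)

lemma PV.pow (φ : S) : PV t φ 0 (fun τ => φ ^ τ) 1 := ⟨_, PolV.const 1, by simp⟩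

/-- existence form -/
def PF (t : ℂ) (φ : S) (z : ℕ → S) : Prop := ∃ e v, PV t φ e z v

lemma PF.congr {z z' : ℕ → S} (h : PF t φ z) (h' : ∀ᶠ τ in atTop, z' τ = z τ) : PF t φ z' := by
  obtain ⟨e, v, h⟩ := h
  exact ⟨e, v, h.congr h'⟩

lemma PF.two {ψ : S} {z z' : ℕ → S} (h : PF t φ z) (h' : PF t ψ z') :
    ∃ e v v', PV t φ e z v ∧ PV t ψ e z' v' := by
  obtain ⟨e, v, h⟩ := h
  obtain ⟨e', v', h'⟩ := h'
  exact ⟨e + e', _, _, h.shift e', add_comm e' e ▸ h'.shift e⟩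

lemma PF.add {z z' : ℕ → S} (h : PF t φ z) (h' : PF t φ z') : PF t φ fun τ => z τ + z' τ := by
  obtain ⟨e, v, v', h, h'⟩ := h.two h'
  exact ⟨e, _, h.add h'⟩

lemma PF.mul {ψ : S} {z z' : ℕ → S} (h : PF t φ z) (h' : PF t ψ z') :
    PF t (φ * ψ) fun τ => z τ * z' τ := by
  obtain ⟨e, v, v', h, h'⟩ := h.two h'
  exact ⟨e, _, h.mul h'⟩

lemma PF.pmul {z g : ℕ → S} {w : S} (hg : PolV t g w) (h : PF t φ z) :
    PF t φ fun τ => g τ * z τ := by
  obtain ⟨e, v, h⟩ := h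
  exact ⟨e, _, h.pmul hg⟩

lemma PF.cmul (a : S) {z : ℕ → S} (h : PF t φ z) : PF t φ fun τ => a * z τ :=
  h.pmul (PolV.const a)

lemma PF.neg {z : ℕ → S} (h : PF t φ z) : PF t φ fun τ => -z τ := by
  simpa using h.cmul (-1)

lemma PF.sub {z z' : ℕ → S} (h : PF t φ z) (h' : PF t φ z') : PF t φ fun τ => z τ - z' τ := by
  simpa [sub_eq_add_neg] using h.add h'.neg

lemma PF.zero : PF t φ fun _ => 0 := ⟨0, 0, _, PolV.const 0, by simp⟩

lemma PF.sum {ι : Type*} (s : Finset ι) {z : ι → ℕ → S} (h : ∀ i ∈ s, PF t φ (z i)) :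
    PF t φ fun τ => ∑ i ∈ s, z i τ := by
  classical
  induction s using Finset.induction_on with
  | empty => simpa using PF.zero
  | insert a s ha ih =>
    simp only [Finset.sum_insert ha]
    exact (h a (by simp)).add (ih fun i hi => h i (by simp [hi]))

lemma PF.map {S' : Type*} [CommRing S'] [Algebra ℂ S'] (κ : S →ₐ[ℂ] S') {z : ℕ → S}
    (h : PF t φ z) : PF t (κ φ) fun τ => κ (z τ) := by
  obtain ⟨e, v, h⟩ := h
  exact ⟨e, _, h.map κ⟩

lemma PV.deriv (δ : Derivation ℂ S S) {z : ℕ → S} {v : S} (h : PV t φ e z v) :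
    PV t φ (e + 1) (fun τ => δ (z τ))
      (φ * δ v + (algebraMap ℂ S t - e) * δ φ * v) := by
  obtain ⟨g, hg, hz⟩ := h
  refine ⟨_, ((hg.map δ.toLinearMap).cmul φ).add
    ((((PolV.tau (t := t)).sub (PolV.const (e : S))).mul (PolV.const (δ φ))).mul hg), ?_⟩
  filter_upwards [hz, eventually_ge_atTop (e + 1)] with τ h1 h2
  obtain ⟨m, rfl⟩ := Nat.exists_eq_add_of_le h2
  have e1 : e + 1 + m - e = m + 1 := by omega
  have e2 : e + 1 + m - (e + 1) = m := by omega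
  rw [h1, e1, e2, δ.leibniz, δ.leibniz_pow]
  simp only [smul_eq_mul, Derivation.coeFn_coe, Nat.add_sub_cancel, nsmul_eq_mul]
  push_cast
  ring

lemma PF.deriv (δ : Derivation ℂ S S) {z : ℕ → S} (h : PF t φ z) : PF t φ fun τ => δ (z τ) := by
  obtain ⟨e, v, h⟩ := h
  exact ⟨_, _, h.deriv δ⟩

/-- the value is zero when a factor `τ - t` is present -/
lemma PF.eps {z : ℕ → S} (h : PF t φ z) :
    ∃ e, PV t φ e (fun τ => ((τ : S) - algebraMap ℂ S t) * z τ) 0 := by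
  obtain ⟨e, v, h⟩ := h
  exact ⟨e, (h.pmul ((PolV.tau (t := t)).sub (PolV.const _))).congr_val (by simp)⟩

end PV

section Coeff

open PowerSeries

variable {R : Type*} [CommRing R] [Algebra ℂ R] {t : ℂ}

/-- coefficient as a `ℂ`-linear map -/
noncomputable def cf (k : ℕ) : R⟦X⟧ →ₗ[ℂ] R := (PowerSeries.coeff k).restrictScalars ℂ

@[simp] lemma cf_apply (k : ℕ) (p : R⟦X⟧) : cf k p = PowerSeries.coeff k p := rfl

/-- derivative as a `ℂ`-derivation -/
noncomputable def dX : Derivation ℂ R⟦X⟧ R⟦X⟧ := (PowerSeries.derivative R).restrictScalars ℂ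

lemma coeff_dX (k : ℕ) (p : R⟦X⟧) :
    PowerSeries.coeff k (dX p) = PowerSeries.coeff (k + 1) p * (k + 1) :=
  PowerSeries.coeff_derivative p k

lemma PF.coeff {P : R⟦X⟧} (k : ℕ) {G : ℕ → R⟦X⟧} (h : PF t P G) :
    PF t (constantCoeff P) fun τ => PowerSeries.coeff k (G τ) := by
  induction k generalizing G with
  | zero =>
    obtain ⟨e, v, g, hg, hz⟩ := h
    refine ⟨e, _, _, hg.map (cf 0), ?_⟩
    filter_upwards [hz] with τ h1
    simp [h1]
  | succ k ih =>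
    refine ((ih (h.deriv dX)).cmul (algebraMap ℂ R (1 / (k + 1)))).congr
      (Eventually.of_forall fun τ => ?_)
    have : (k + 1 : R) = algebraMap ℂ R (k + 1) := by simp
    have h0 : (k + 1 : ℂ) ≠ 0 := by exact_mod_cast Nat.succ_ne_zero k
    rw [coeff_dX, this, mul_comm (PowerSeries.coeff _ _), ← mul_assoc, ← map_mul,
      one_div_mul_cancel h0, map_one, one_mul]

lemma PV.coeff_low {P : R⟦X⟧} {e o : ℕ} {G : ℕ → R⟦X⟧} {V : R⟦X⟧} (h : PV t P e G V)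
    (hV : ∀ j < o, PowerSeries.coeff j V = 0) :
    ∃ m, PV t (constantCoeff P) (e + m) (fun τ => PowerSeries.coeff o (G τ))
      (constantCoeff P ^ m * PowerSeries.coeff o V) := by
  obtain ⟨g, hg, hz⟩ := h
  obtain ⟨g1, v1, hg1, hs⟩ := hg.split
  have h1 : PF t P fun τ => P ^ (τ - e) * g1 τ := ⟨e, v1, g1, hg1, by simp⟩
  obtain ⟨m, h2⟩ := (h1.coeff o).eps
  have h3 : PV t (constantCoeff P) e (fun τ => constantCoeff P ^ (τ - e) * PowerSeries.coeff o V)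
      (PowerSeries.coeff o V) := ⟨_, PolV.const _, by simp⟩
  refine ⟨m, (((h3.shift m).add (add_comm m e ▸ h2.shift e)).congr ?_).congr_val (by simp)⟩
  filter_upwards [hz, hs] with τ e1 e2
  obtain ⟨W, rfl⟩ := X_pow_dvd_iff.2 hV
  have e3 : ((τ : R⟦X⟧) - algebraMap ℂ R⟦X⟧ t) = PowerSeries.C ((τ : R) - algebraMap ℂ R t) := by
    simp [PowerSeries.algebraMap_apply]
  rw [e1, e2, mul_add, map_add, e3, mul_left_comm _ (PowerSeries.C _), PowerSeries.coeff_C_mul,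
    mul_left_comm]
  simp [PowerSeries.coeff_X_pow_mul']

lemma PV.unshift {P : R⟦X⟧} {M e : ℕ} {G : ℕ → R⟦X⟧} {V : R⟦X⟧}
    (h : PV t (PowerSeries.X ^ M * P) e G V) :
    ∃ G', PV t P e G' V ∧ ∀ i, ∀ᶠ τ in atTop,
      PowerSeries.coeff (M * τ + i) (G τ) = PowerSeries.coeff (M * e + i) (G' τ) := by
  obtain ⟨g, hg, hz⟩ := h
  refine ⟨fun τ => P ^ (τ - e) * g τ, ⟨g, hg, by simp⟩, fun i => ?_⟩
  filter_upwards [hz, eventually_ge_atTop e] with τ h1 h2
  obtain ⟨m, rfl⟩ := Nat.exists_eq_add_of_le h2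
  rw [h1, mul_pow, ← pow_mul, mul_assoc, Nat.add_sub_cancel_left,
    show M * (e + m) + i = M * e + i + M * m by ring, PowerSeries.coeff_X_pow_mul]

lemma PF.coeff_shift {P : R⟦X⟧} {M : ℕ} {G : ℕ → R⟦X⟧} (h : PF t (PowerSeries.X ^ M * P) G)
    (i : ℕ) : PF t (constantCoeff P) fun τ => PowerSeries.coeff (M * τ + i) (G τ) := by
  obtain ⟨e, v, h⟩ := h
  obtain ⟨G', h1, h2⟩ := h.unshift
  exact (PF.coeff _ ⟨e, v, h1⟩).congr (h2 i)

lemma PV.coeff_shift_low {P : R⟦X⟧} {M e i : ℕ} {G : ℕ → R⟦X⟧} {V : R⟦X⟧}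
    (h : PV t (PowerSeries.X ^ M * P) e G V) (hV : ∀ j < M * e + i, PowerSeries.coeff j V = 0) :
    ∃ m, PV t (constantCoeff P) (e + m) (fun τ => PowerSeries.coeff (M * τ + i) (G τ))
      (constantCoeff P ^ m * PowerSeries.coeff (M * e + i) V) := by
  obtain ⟨G', h1, h2⟩ := h.unshift
  obtain ⟨m, h3⟩ := h1.coeff_low hV
  exact ⟨m, h3.congr (h2 i)⟩

/-- positive coefficients of `P ^ (μ τ + 1)` carry the factor `μ τ + 1` -/
lemma coeff_pow_succ (P : R⟦X⟧) (μ a : ℕ) :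
    ∃ z, PF t (constantCoeff P ^ μ) z ∧
      ∀ τ : ℕ, PowerSeries.coeff (a + 1) (P ^ (μ * τ + 1)) = ((μ : R) * τ + 1) * z τ := by
  have h1 : PF t (P ^ μ) fun τ => dX P * (P ^ μ) ^ τ := PF.cmul _ ⟨0, 1, PV.pow _⟩
  refine ⟨_, by simpa using (h1.coeff a).cmul (algebraMap ℂ R (1 / (a + 1))), fun τ => ?_⟩
  have h0 : (a + 1 : ℂ) ≠ 0 := by exact_mod_cast Nat.succ_ne_zero a
  have h2 := coeff_dX a (P ^ (μ * τ + 1))
  rw [dX.leibniz_pow, Nat.add_sub_cancel, smul_eq_mul, nsmul_eq_mul,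
    show ((μ * τ + 1 : ℕ) : R⟦X⟧) = PowerSeries.C ((μ : R) * τ + 1) by simp,
    PowerSeries.coeff_C_mul, pow_mul, mul_comm ((P ^ μ) ^ τ),
    show (a + 1 : R) = algebraMap ℂ R (a + 1) by simp] at h2
  rw [mul_left_comm, h2, mul_left_comm, ← map_mul, inv_mul_cancel₀ h0]
  simp

end Coeff

end Pool.Agent.MP_ee8c61_ag.H4
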