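import Pool.Agent.MP_ee8c61_ag.H4.P1

/-! Restriction of the functional equation to a divisor and to a node. -/

namespace Pool.Agent.MP_ee8c61_ag.H4

open Filter MvPolynomial
open scoped Polynomial

/-- normalised value at `τ = t` of a family `u ^ (τ - e) g τ` -/
def NV (t u : ℂ) (z : ℕ → ℂ) (l : ℂ) : Prop := ∃ e, PV t u e z (u ^ e * l)

section NV

variable {t u l l' : ℂ} {z z' : ℕ → ℂ}

lemma NV.ex (hu : u ≠ 0) (h : PF t u z) : ∃ l, NV t u z l := by
  obtain ⟨e, v, h⟩ := h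
  exact ⟨v / u ^ e, e, h.congr_val (by field_simp)⟩

lemma NV.two (h : NV t u z l) (h' : NV t u z' l') :
    ∃ e, PV t u e z (u ^ e * l) ∧ PV t u e z' (u ^ e * l') := by
  obtain ⟨e, h⟩ := h
  obtain ⟨e', h'⟩ := h'
  exact ⟨e + e', (h.shift e').congr_val (by ring), add_comm e' e ▸ (h'.shift e).congr_val (by ring)⟩

lemma NV.unique (hu : u ≠ 0) (h : NV t u z l) (h' : NV t u z l') : l = l' := by
  obtain ⟨e, h1, h2⟩ := h.two h'
  exact mul_left_cancel₀ (pow_ne_zero e hu) (h1.unique hu h2)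

lemma NV.add (h : NV t u z l) (h' : NV t u z' l') : NV t u (fun τ => z τ + z' τ) (l + l') := by
  obtain ⟨e, h1, h2⟩ := h.two h'
  exact ⟨e, (h1.add h2).congr_val (by ring)⟩

lemma NV.cmul (a : ℂ) (h : NV t u z l) : NV t u (fun τ => a * z τ) (a * l) := by
  obtain ⟨e, h⟩ := h
  exact ⟨e, (h.cmul a).congr_val (by ring)⟩

lemma NV.congr (h : NV t u z l) (h' : ∀ᶠ τ in atTop, z' τ = z τ) : NV t u z' l := by
  obtain ⟨e, h⟩ := h
  exact ⟨e, h.congr h'⟩

lemma NV.eps (h : PF t u z) : NV t u (fun τ => ((τ : ℂ) - t) * z τ) 0 := by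
  obtain ⟨e, h⟩ := h.eps
  exact ⟨e, h.congr_val (by simp)⟩

lemma PF.pcoeff {p : ℂ[X]} {μ : ℕ} {z : ℕ → ℂ[X]} (h : PF t (Polynomial.X ^ μ * p) z) (i : ℕ) :
    PF t (p.coeff 0) fun τ => (z τ).coeff (μ * τ + i) := by
  have h1 := h.map (Polynomial.coeToPowerSeries.algHom ℂ)
  simp only [map_mul, map_pow, Polynomial.coeToPowerSeries.algHom_apply, Algebra.algebraMap_self,
    PowerSeries.map_id, id_eq, Polynomial.coe_X] at h1
  simpa using h1.coeff_shift i

lemma PV.pcoeff {p β : ℂ[X]} {μ e i : ℕ} {z : ℕ → ℂ[X]} (h : PV t (Polynomial.X ^ μ * p) e z β)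
    (hp : p.coeff 0 ≠ 0) (hβ : ∀ j < μ * e + i, β.coeff j = 0) :
    NV t (p.coeff 0) (fun τ => (z τ).coeff (μ * τ + i)) (β.coeff (μ * e + i) / p.coeff 0 ^ e) := by
  have h1 := h.map (Polynomial.coeToPowerSeries.algHom ℂ)
  simp only [map_mul, map_pow, Polynomial.coeToPowerSeries.algHom_apply, Algebra.algebraMap_self,
    PowerSeries.map_id, id_eq, Polynomial.coe_X] at h1
  obtain ⟨m, h2⟩ := h1.coeff_shift_low (i := i) (by simpa using hβ)
  simp only [Polynomial.constantCoeff_coe, Polynomial.coeff_coe] at h2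
  exact ⟨e + m, h2.congr_val (by field_simp; ring)⟩

end NV

variable {t : ℂ} {b : ℂ[X]} {F : R2} {I : Ideal R2} {n : ℕ} {J : R2} {A B : ℕ → R2}

lemma PF.ld {G : ℕ → R2} (h : PF t F G) {M : ℕ} {P : PowerSeries ℂ[X]}
    (hF : io F = PowerSeries.X ^ M * P) (i : ℕ) :
    PF t (PowerSeries.constantCoeff P) fun τ => ld (M * τ + i) (G τ) :=
  PF.coeff_shift (hF ▸ h.map io) i

lemma PF.lc {G : ℕ → R2} (h : PF t F G) {M μ : ℕ} {u : ℂ} (hF : Lx F M μ u) (i j : ℕ) :
    PF t u fun τ => lc (G τ) (M * τ + i) (μ * τ + j) := by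
  obtain ⟨P, p, h1, h2, rfl⟩ := hF
  exact (h2 ▸ h.ld h1 i).pcoeff j

lemma Sol.flag (h : Sol t b F I n J A B) {N k : ℕ} (hN : 0 < N)
    (hI : ∀ g ∈ I, PowerSeries.X ^ N ∣ io g) {P Q : PowerSeries ℂ[X]}
    (hF : io F = PowerSeries.X ^ (n * N) * P) (hJ : io J = PowerSeries.X ^ k * Q) :
    ∀ᶠ τ : ℕ in atTop, Polynomial.C (b.eval ((n : ℂ) * τ)) * PowerSeries.constantCoeff P ^ τ *
      PowerSeries.constantCoeff Q = Polynomial.C ((n * N * τ + k + 1 : ℕ) : ℂ) *
        ld (n * N * τ + (k + 1)) (A τ) + Polynomial.derivative (ld (n * N * τ + k) (B τ)) := by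
  obtain ⟨H, ⟨e, g, v, -, h1⟩, h2⟩ := h.eq
  filter_upwards [h1, h2, eventually_ge_atTop e] with τ ⟨h3, h4⟩ h5 h6
  have h7 := congrArg (ld (n * N * τ + k)) h5
  have h8 : PowerSeries.X ^ (N * (n * e + 1)) ∣ io (g τ) := by
    have : (I ^ (n * e + 1)).map io ≤ Ideal.span {PowerSeries.X ^ (N * (n * e + 1))} := by
      rw [Ideal.map_pow, pow_mul, ← Ideal.span_singleton_pow]
      refine Ideal.pow_right_mono (Ideal.map_le_iff_le_comap.2 fun g hg => ?_) _
      exact Ideal.mem_comap.2 (Ideal.mem_span_singleton.2 (hI g hg))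
    exact Ideal.mem_span_singleton.1 (this (Ideal.mem_map_of_mem _ h3))
  have h9 : ld (n * N * τ + k) (H τ * J) = 0 := by
    obtain ⟨m, rfl⟩ := Nat.exists_eq_add_of_le h6
    obtain ⟨W, hW⟩ := h8
    refine (PowerSeries.X_pow_dvd_iff (n := n * N * (e + m) + k + N)
      (φ := io (H (e + m) * J))).1 ⟨P ^ m * W * Q, ?_⟩ _ (by omega)
    rw [map_mul, h4, map_mul, map_pow, hF, hJ, hW, Nat.add_sub_cancel_left]
    ring
  rw [map_add, map_add, h9, ld_pderiv0, ld_pderiv1, mul_assoc (C _), ld_C_mul, ld_apply, map_mul, map_pow,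
    hF, hJ, show (PowerSeries.X ^ (n * N) * P) ^ τ * (PowerSeries.X ^ k * Q) =
      PowerSeries.X ^ (n * N * τ + k) * (P ^ τ * Q) by ring] at h7
  simp only [PowerSeries.coeff_X_pow_mul', le_refl, if_true, Nat.sub_self,
    PowerSeries.coeff_zero_eq_constantCoeff, map_mul, map_pow] at h7
  rw [mul_assoc, h7, add_assoc]
  simp only [map_natCast]
  push_cast
  ring_nf

lemma ne_of_crit {M k : ℕ} (h : M * t + k + 1 = 0) (τ : ℕ) : (τ : ℂ) - t ≠ 0 := by
  intro h1
  rw [← sub_eq_zero.1 h1] at h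
  exact absurd (by exact_mod_cast h : M * τ + k + 1 = 0) (by omega)

lemma Sol.node (h : Sol t b F I n J A B) {N k μ κ : ℕ} {u j0 : ℂ} (hN : 0 < N)
    (hI : ∀ g ∈ I, PowerSeries.X ^ N ∣ io g) (hF : Lx F (n * N) μ u) (hu : u ≠ 0)
    (hJ : Lx J k κ j0) (c1 : (n * N : ℕ) * t + k + 1 = 0) (c2 : μ * t + κ + 1 = 0) {b1 : ℂ[X]}
    (hb : ∀ τ : ℂ, b.eval (n * τ) = (τ - t) * b1.eval τ) {lA lB : ℂ}
    (hA : NV t u (fun τ => lc (A τ) (n * N * τ + (k + 1)) (μ * τ + κ)) lA)
    (hB : NV t u (fun τ => lc (B τ) (n * N * τ + k) (μ * τ + (κ + 1))) lB) :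
    b1.eval t * j0 = (n * N : ℕ) * lA + μ * lB := by
  obtain ⟨P, p, h1, h2, rfl⟩ := hF
  obtain ⟨Q, q, h3, h4, rfl⟩ := hJ
  have h5 : NV t (p.coeff 0) (fun τ => b1.eval (τ : ℂ) * q.coeff 0 * p.coeff 0 ^ τ)
      (b1.eval t * q.coeff 0) :=
    ⟨0, ((PV.pow _).pmul ((PolV.poly b1).mul (PolV.const (q.coeff 0)))).congr_val (by simp)⟩
  refine NV.unique hu h5 (((hA.cmul _).add (hB.cmul _)).congr ?_)
  filter_upwards [h.flag hN hI h1 h3] with τ e
  have e1 := congrArg (Polynomial.coeff · (μ * τ + κ)) e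
  rw [h2, h4, show Polynomial.C (b.eval ((n : ℂ) * τ)) * (Polynomial.X ^ μ * p) ^ τ *
    (Polynomial.X ^ κ * q) = Polynomial.X ^ (μ * τ + κ) *
      (Polynomial.C (b.eval ((n : ℂ) * τ)) * (p ^ τ * q)) by ring] at e1
  simp only [Polynomial.coeff_X_pow_mul', le_refl, if_true, Nat.sub_self, Polynomial.coeff_add,
    Polynomial.coeff_C_mul, Polynomial.coeff_derivative, Polynomial.eval_mul, hb,
    Polynomial.coeff_zero_eq_eval_zero, Polynomial.eval_pow, Polynomial.eval_C] at e1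
  refine mul_left_cancel₀ (ne_of_crit c1 τ) ?_
  simp only [lc, ← add_assoc, Polynomial.coeff_zero_eq_eval_zero] at e1 ⊢
  push_cast at e1 c1 ⊢
  linear_combination e1 + (ld (n * N * τ + k + 1) (A τ)).coeff (μ * τ + κ) * c1 +
    (ld (n * N * τ + k) (B τ)).coeff (μ * τ + κ + 1) * c2

lemma Sol.ode (h : Sol t b F I n J A B) {N k e : ℕ} (hN : 0 < N)
    (hI : ∀ g ∈ I, PowerSeries.X ^ N ∣ io g) {P Q : PowerSeries ℂ[X]}
    (hF : io F = PowerSeries.X ^ (n * N) * P) (hJ : io J = PowerSeries.X ^ k * Q)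
    (hP : PowerSeries.constantCoeff P ≠ 0) (c1 : (n * N : ℕ) * t + k + 1 = 0) {β : ℂ[X]}
    (hβ : PV t (PowerSeries.constantCoeff P) e (fun τ => ld (n * N * τ + k) (B τ)) β) :
    Polynomial.C (b.eval (n * t)) * PowerSeries.constantCoeff Q *
      PowerSeries.constantCoeff P ^ (e + 1) = PowerSeries.constantCoeff P * β.derivative +
        Polynomial.C (t - e) * (PowerSeries.constantCoeff P).derivative * β := by
  have h0 := h.flag hN hI hF hJ
  obtain ⟨m, h1⟩ := ((h.gA.pf.ld hF (k + 1)).cmul ((n * N : ℕ) : ℂ[X])).eps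
  generalize PowerSeries.constantCoeff P = φ at *
  generalize PowerSeries.constantCoeff Q = j at *
  have h2 := ((hβ.deriv Polynomial.derivative').shift m).add (add_comm m _ ▸ h1.shift (e + 1))
  have h3 := (((PV.pow (t := t) φ).pmul ((PolV.poly (b.comp (Polynomial.C (n : ℂ) *
    Polynomial.X))).mul (PolV.const j))).shift (e + 1 + m))
  rw [zero_add] at h3
  have h4 := PV.unique hP h3 (h2.congr (by
    filter_upwards [h0] with τ e1
    have e2 := congrArg Polynomial.C c1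
    simp only [Polynomial.eval_comp, Polynomial.eval_mul, Polynomial.eval_natCast, Polynomial.eval_X,
      Polynomial.algebraMap_eq, Polynomial.derivative'_apply, map_natCast, map_add, map_mul,
      map_one, map_zero] at e1 e2 ⊢
    push_cast at e1 e2 ⊢
    linear_combination e1 + ld (n * N * τ + (k + 1)) (A τ) * e2))
  refine mul_left_cancel₀ (pow_ne_zero m hP) ?_
  simp only [Polynomial.eval_comp, Polynomial.eval_mul, Polynomial.eval_natCast, Polynomial.eval_X,
      Polynomial.algebraMap_eq, Polynomial.derivative'_apply, map_sub, map_natCast] at h4 ⊢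
  linear_combination h4

/-- the transported coefficient of `dy` -/
noncomputable def Aq (q : Option ℂ) (A B : R2) : R2 :=
  q.elim (X 0 * chart none B) fun c => X 0 * chart (some c) A

/-- the transported coefficient of `-dx` -/
noncomputable def Bq (q : Option ℂ) (A B : R2) : R2 :=
  q.elim (chart none A - X 1 * chart none B) fun c =>
    chart (some c) B - (X 1 + C c) * chart (some c) A

lemma Sol.chart (h : Sol t b F I n J A B) (q : Option ℂ) :
    Sol t b (chart q F) (I.map (chart q)) n (X 0 * chart q J) (fun τ => Aq q (A τ) (B τ))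
      (fun τ => Bq q (A τ) (B τ)) := by
  cases q with
  | none => exact h.chart_none
  | some c => exact h.chart_some c

lemma ld_Bq (q : Option ℂ) (d : ℕ) (A B : R2) : ld d (Bq q A B) = Polynomial.C (eps q) *
    loc q (X 0 * homogeneousComponent d B - X 1 * homogeneousComponent d A) := by
  cases q with
  | none => simp [Bq, ld_X1_mul, ld_chart, eps]
  | some c => simp [Bq, add_mul, ld_X1_mul, ld_C_mul, ld_chart, eps]

lemma map_chart_dvd {N : ℕ} (hI : ∀ g ∈ I, PowerSeries.X ^ N ∣ kap g) (q : Option ℂ) :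
    ∀ g ∈ I.map (chart q), PowerSeries.X ^ N ∣ io g := by
  intro g hg
  have : I.map (chart q) ≤ (Ideal.span {PowerSeries.X ^ N}).comap io := by
    refine Ideal.map_le_iff_le_comap.2 fun g hg => ?_
    obtain ⟨W, hW⟩ := hI g hg
    refine Ideal.mem_span_singleton.2 ⟨PowerSeries.map (loc q).toRingHom W, ?_⟩
    simp [io_chart, hW]
  exact Ideal.mem_span_singleton.1 (this hg)

theorem Sol.exc (h : Sol t b F I n J A B) {N K : ℕ} (hN : 0 < N)
    (hI : ∀ g ∈ I, PowerSeries.X ^ N ∣ kap g) (hF : PowerSeries.X ^ (n * N) ∣ kap F)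
    (hF0 : homogeneousComponent (n * N) F ≠ 0) (hJ : PowerSeries.X ^ K ∣ kap J)
    (hJ0 : homogeneousComponent K J ≠ 0) (c1 : (n * N : ℕ) * t + K + 2 = 0)
    (bd : ∀ q, n * N * ord q (homogeneousComponent K J) ≤
      (K + 2) * ord q (homogeneousComponent (n * N) F)) :
    ∃ e β, Ode t (b.eval (n * t)) (n * N) K e (homogeneousComponent (n * N) F)
      (homogeneousComponent K J) β ∧ ∀ q, PV t (loc q (homogeneousComponent (n * N) F)) e
        (fun τ => ld (n * N * τ + (K + 1)) (Bq q (A τ) (B τ))) (Polynomial.C (eps q) * loc q β) := by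
  obtain ⟨P, hP⟩ := hF
  obtain ⟨Q, hQ⟩ := hJ
  have eP : homogeneousComponent (n * N) F = PowerSeries.constantCoeff P := by
    rw [← coeff_kap, hP]; simp [PowerSeries.coeff_X_pow_mul']
  have eQ : homogeneousComponent K J = PowerSeries.constantCoeff Q := by
    rw [← coeff_kap, hQ]; simp [PowerSeries.coeff_X_pow_mul']
  have hA := PF.coeff_shift (hP ▸ h.gA.pf.map kap) (K + 1)
  have hB := PF.coeff_shift (hP ▸ h.gB.pf.map kap) (K + 1)
  obtain ⟨e, β, hβ⟩ := (hB.cmul (X 0)).sub (hA.cmul (X 1))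
  simp only [coeff_kap, ← eP] at hβ
  have h1 : ∀ q, PV t (loc q (homogeneousComponent (n * N) F)) e
      (fun τ => ld (n * N * τ + (K + 1)) (Bq q (A τ) (B τ))) (Polynomial.C (eps q) * loc q β) :=
    fun q => by simpa only [ld_Bq] using (hβ.map (loc q)).cmul (Polynomial.C (eps q))
  refine ⟨e, β, ⟨homogeneousComponent_isHomogeneous _ _, hF0,
    homogeneousComponent_isHomogeneous _ _, hJ0, ?_, c1, bd, fun q => ?_⟩, h1⟩
  · obtain ⟨g, hg, h2⟩ := hβ
    refine hg.mem (homogeneousSubmodule _ ℂ _) ?_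
    filter_upwards [h2, eventually_ge_atTop e] with τ h3 h4
    refine hom_div ((homogeneousComponent_isHomogeneous (n * N) F).pow (τ - e))
      (pow_ne_zero _ hF0) ?_
    obtain ⟨m, rfl⟩ := Nat.exists_eq_add_of_le h4
    rw [← h3, Nat.add_sub_cancel_left,
      show n * N * m + (n * N * e + K + 2) = 1 + (n * N * (e + m) + (K + 1)) by ring]
    exact ((isHomogeneous_X _ _).mul (homogeneousComponent_isHomogeneous _ _)).sub
      ((isHomogeneous_X _ _).mul (homogeneousComponent_isHomogeneous _ _))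
  · have e1 : ∀ W, PowerSeries.constantCoeff (PowerSeries.map (loc q).toRingHom W) =
        loc q (PowerSeries.constantCoeff W) := fun W => by
      rw [← PowerSeries.coeff_zero_eq_constantCoeff_apply, PowerSeries.coeff_map]; simp
    have := (h.chart q).ode (k := K + 1) (e := e) hN (map_chart_dvd hI q)
      (P := PowerSeries.map (loc q).toRingHom P) (Q := PowerSeries.map (loc q).toRingHom Q)
      (by simp [io_chart, hP]) (by simp [io_chart, hQ]; ring)
      (by rw [e1, ← eP]; exact loc_ne_zero (homogeneousComponent_isHomogeneous _ _) hF0 q)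
      (by push_cast at c1 ⊢; linear_combination c1) (by rw [e1, ← eP]; exact h1 q)
    rwa [e1, e1, ← eP, ← eQ] at this

end Pool.Agent.MP_ee8c61_ag.H4
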