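import Pool.Agent.MP_ee8c61_ag.H4.Node

/-! A product of three general members of the ideal has the same resolution data. -/

namespace Pool.Agent.MP_ee8c61_ag.H4

open Filter MvPolynomial
open scoped Polynomial

/-- resolution data of a pair (ideal, member of its `n`-th power) -/
inductive GZ (n : ℕ) : Ideal R2 → R2 → R2 → RatFunc ℂ → Prop
  | snc (I : Ideal R2) (F J z w : R2) (a b k l : ℕ) (h : Node n I F J z w a b k l) :
      GZ n I F J (1 / (lin a k * lin b l))
  | blow (I : Ideal R2) (F J : R2) (S : Finset (Option ℂ)) (N k : ℕ) (Z : Option ℂ → RatFunc ℂ)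
      (hN : 0 < N) (hI : ∀ g ∈ I, PowerSeries.X ^ N ∣ kap g)
      (hF : PowerSeries.X ^ (n * N) ∣ kap F) (hF0 : homogeneousComponent (n * N) F ≠ 0)
      (hJ : ∀ q ∉ S, JF (X 0 * chart q J) k 0)
      (hz : (∀ q ∉ S, ord q (homogeneousComponent (n * N) F) = 0) ∨ ∃ q : Fin 3 → Option ℂ,
        Function.Injective q ∧ ∀ i, q i ∉ S ∧ ord (q i) (homogeneousComponent (n * N) F) ≠ 0)
      (hS : ∀ q ∈ S, GZ n (I.map (chart q)) (chart q F) (X 0 * chart q J) (Z q)) :
      GZ n I F J ((2 - (S.card : RatFunc ℂ)) / lin N k + ∑ q ∈ S, Z q)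

lemma GZ.ne_zero {n : ℕ} {I : Ideal R2} {F J : R2} {Z : RatFunc ℂ} (h : GZ n I F J Z) : F ≠ 0 := by
  induction h with
  | snc I F J z w a b k l h =>
    obtain ⟨U, hU, rfl⟩ := h.hF
    exact mul_ne_zero (mul_ne_zero (pow_ne_zero _ h.pz.ne_zero) (pow_ne_zero _ h.pw.ne_zero))
      (by rintro rfl; simp at hU)
  | blow I F J S N k Z hN hI hF hF0 hJ hz hS => rintro rfl; simp at hF0

variable {r : ℕ}

/-- the member `∑ θ ^ m f_m` of the ideal -/
noncomputable def comb {S : Type*} [CommRing S] [Algebra ℂ S] (θ : ℂ) (f : Fin r → S) : S :=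
  ∑ m : Fin r, θ ^ (m : ℕ) • f m

lemma map_comb {S S' : Type*} [CommRing S] [Algebra ℂ S] [CommRing S'] [Algebra ℂ S']
    (σ : S →ₗ[ℂ] S') (θ : ℂ) (f : Fin r → S) : σ (comb θ f) = comb θ fun m => σ (f m) := by
  simp [comb]

lemma comb_ne {l : Fin r → ℂ} (h : ∃ i, l i ≠ 0) : ∀ᶠ θ in cofinite, comb θ l ≠ 0 := by
  obtain ⟨i, hi⟩ := h
  have h1 : (∑ m : Fin r, Polynomial.monomial (m : ℕ) (l m)) ≠ 0 := fun e => hi (by
    have := congrArg (Polynomial.coeff · i) e
    simpa [Polynomial.coeff_monomial, Fin.val_inj] using this)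
  filter_upwards [Polynomial.eventually_cofinite_not_isRoot h1] with θ h2
  simpa [comb, Polynomial.eval_finsetSum, mul_comm] using h2

lemma comb_ord {p : Fin r → ℂ[X]} (h : ∃ i, p i ≠ 0) :
    ∃ d, ∀ᶠ θ in cofinite, (comb θ p).natTrailingDegree = d := by
  classical
  have h1 : ∃ d, ∃ i, (p i).coeff d ≠ 0 := by
    obtain ⟨i, hi⟩ := h
    exact ⟨_, i, Polynomial.leadingCoeff_ne_zero.2 hi⟩
  refine ⟨Nat.find h1, ?_⟩
  filter_upwards [comb_ne (Nat.find_spec h1)] with θ h2
  have e := fun d => map_comb (Polynomial.lcoeff ℂ d) θ p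
  simp only [Polynomial.lcoeff_apply] at e
  rw [← e] at h2
  refine le_antisymm (Polynomial.natTrailingDegree_le_of_ne_zero h2)
    (Polynomial.le_natTrailingDegree (by rintro h3; simp [h3] at h2) fun m hm => ?_)
  have := Nat.find_min h1 hm
  push Not at this
  simp [comb, this]

lemma hc_mul {G G' : R2} {a b : ℕ} (h : PowerSeries.X ^ a ∣ kap G) (h' : PowerSeries.X ^ b ∣ kap G') :
    PowerSeries.X ^ (a + b) ∣ kap (G * G') ∧ homogeneousComponent (a + b) (G * G') =
      homogeneousComponent a G * homogeneousComponent b G' := by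
  obtain ⟨P, hP⟩ := h
  obtain ⟨P', hP'⟩ := h'
  have e : kap (G * G') = PowerSeries.X ^ (a + b) * (P * P') := by rw [map_mul, hP, hP']; ring
  refine ⟨⟨_, e⟩, ?_⟩
  simp [← coeff_kap, e, hP, hP', PowerSeries.coeff_X_pow_mul', -map_mul,
    (PowerSeries.constantCoeff).map_mul]

lemma span_ind {f : Fin r → R2} {S : Type*} [CommRing S] (σ : R2 →+* S) {p : S}
    (h : ∀ m, p ∣ σ (f m)) : ∀ g ∈ Ideal.span (Set.range f), p ∣ σ g := fun g hg => by
  have : Ideal.span (Set.range f) ≤ (Ideal.span {p}).comap σ := Ideal.span_le.2 (by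
    rintro _ ⟨m, rfl⟩; exact Ideal.mem_span_singleton.2 (h m))
  exact Ideal.mem_span_singleton.1 (this hg)

lemma gen_X0 {f : Fin r → R2} {N : ℕ} (h : Gen f (X 0 ^ N)) :
    ∃ g : Fin r → R2, (∀ i, f i = X 0 ^ N * g i) ∧ ∃ i, constantCoeff (g i) ≠ 0 := by
  simpa using Gen.exact (z := X 0) (w := X 1) (a := N) (b := 0) (by simpa using h) X_prime X_prime
    Coord.X01

theorem LocZeta.gz {f : Fin r → R2} {J : R2} {Z : RatFunc ℂ} (h : LocZeta f J Z) :
    ∀ᶠ θ1 in cofinite, ∀ᶠ θ2 in cofinite, ∀ᶠ θ3 in cofinite,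
      GZ 3 (Ideal.span (Set.range f)) (comb θ1 f * comb θ2 f * comb θ3 f) J Z := by
  induction h with
  | snc f J z w a b k l hzw hf hJ =>
    obtain ⟨z1, z2, pz, h1, h2, rfl⟩ := hzw.prime
    obtain ⟨w1, w2, pw, h3, h4, rfl⟩ := h1.symm.prime
    have key : ∀ {r : ℕ} {f : Fin r → R2} {a b : ℕ}, Gen f ((z1 * z2) ^ a * (w1 * w2) ^ b) →
        ∃ g : Fin r → R2, (∀ i, f i = z1 ^ a * w1 ^ b * g i) ∧ ∃ i, constantCoeff (g i) ≠ 0 :=
      fun {r f a b} h => Gen.exact (Gen.left (v := z2 ^ a * w2 ^ b) (by convert h using 1; ring)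
        (by simp [h2, h4])) pz pw h3.symm
    obtain ⟨g, hg, hg0⟩ := key hf
    obtain ⟨V, hV, i, hV0⟩ := key hJ
    obtain rfl : i = 0 := Subsingleton.elim _ _
    have e1 : ∀ θ, comb θ f = z1 ^ a * w1 ^ b * comb θ g := fun θ => by
      simp [comb, hg, Finset.mul_sum]
    have e2 : ∀ᶠ θ in cofinite, constantCoeff (comb θ g) ≠ 0 := by
      filter_upwards [comb_ne hg0] with θ h
      simpa [comb] using h
    filter_upwards [e2] with θ1 a1
    filter_upwards [e2] with θ2 a2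
    filter_upwards [e2] with θ3 a3
    exact GZ.snc _ _ _ z1 w1 a b k l ⟨pz, pw, h3.symm,
      span_ind (RingHom.id _) fun m => ⟨_, hg m⟩, ⟨comb θ1 g * comb θ2 g * comb θ3 g,
        by simp [a1, a2, a3], by simp only [e1]; ring⟩, ⟨V 0, hV0, hV 0⟩⟩
  | blow f J S N k Z hN hgen hS ih =>
    have h1 : ∀ q ∉ S, (∀ m, PowerSeries.X ^ N ∣ kap (f m)) ∧
        ∃ m, (loc q (homogeneousComponent N (f m))).coeff 0 ≠ 0 := fun q hq => by
      obtain ⟨g, hg, i, hi⟩ := gen_X0 (hgen q hq).1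
      refine ⟨fun m => PowerSeries.X_pow_dvd_iff.2 fun j hj => ?_, i, ?_⟩
      · by_contra h2
        rw [coeff_kap] at h2
        refine loc_ne_zero (homogeneousComponent_isHomogeneous _ _) h2 q ?_
        rw [← ld_chart, hg]
        exact (lx_iff.1 ((Lx.X0.pow N).mul (Lx.unit _))).1 j (by omega)
      · have := ((Lx.X0.pow N).mul (Lx.unit (g i))).lc_eq
        rw [← hg, lc, ld_chart] at this
        simp only [one_mul, add_zero, zero_mul, one_pow] at this
        rwa [this]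
    obtain ⟨q0, hq0⟩ := Infinite.exists_notMem_finset S
    have h2 := (h1 q0 hq0).1
    have h3 : ∀ θ, PowerSeries.X ^ N ∣ kap (comb θ f) := fun θ => by
      rw [show kap (comb θ f) = _ from map_comb kap.toLinearMap θ f]
      exact Finset.dvd_sum fun m _ => dvd_smul_of_dvd _ (h2 m)
    set Φ : ℂ → R2 := fun θ => homogeneousComponent N (comb θ f) with hΦ
    have hh : ∀ θ, (Φ θ).IsHomogeneous N := fun θ => homogeneousComponent_isHomogeneous _ _
    have h4 : ∀ q θ, loc q (Φ θ) = comb θ fun m => loc q (homogeneousComponent N (f m)) :=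
      fun q θ => map_comb ((loc q).toLinearMap ∘ₗ homogeneousComponent N) θ f
    have h5 : ∀ q ∉ S, ∀ᶠ θ in cofinite, Φ θ ≠ 0 ∧ ord q (Φ θ) = 0 := fun q hq => by
      filter_upwards [comb_ne (h1 q hq).2] with θ h
      have e := map_comb (Polynomial.lcoeff ℂ 0) θ fun m => loc q (homogeneousComponent N (f m))
      simp only [Polynomial.lcoeff_apply] at e
      rw [← e, ← h4] at h
      exact ⟨fun h0 => by simp [h0] at h, Polynomial.natTrailingDegree_eq_zero.2 (Or.inr h)⟩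
    have h6 : ∀ q, ∃ d, ∀ᶠ θ in cofinite, ord q (Φ θ) = d := fun q => by
      obtain ⟨m, hm⟩ := (h1 q0 hq0).2
      simpa only [ord, h4] using comb_ord ⟨m, loc_ne_zero (homogeneousComponent_isHomogeneous _ _)
        (fun h0 => by simp [h0] at hm) q⟩
    choose d hd using h6
    have h7 : (∀ᶠ θ in cofinite, ∀ q ∉ S, ord q (Φ θ) = 0) ∨
        ∀ᶠ θ in cofinite, ∃ q ∉ S, ord q (Φ θ) ≠ 0 := by
      classical
      by_cases hc : ∑ q ∈ S, d q = N
      · left
        filter_upwards [(eventually_all_finset S).2 fun q _ => hd q, h5 q0 hq0] with θ a1 a2 q hq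
        obtain ⟨Q, hQ⟩ := ord_fin (Φ θ)
        have := ord_sum (hh θ) a2.1 (insert q (S ∪ Q)) fun q h => by simp [hQ q h]
        have a3 : ∑ q ∈ insert q S, ord q (Φ θ) ≤ ∑ q ∈ insert q (S ∪ Q), ord q (Φ θ) :=
          Finset.sum_le_sum_of_subset (Finset.insert_subset_insert _ Finset.subset_union_left)
        rw [Finset.sum_insert hq, Finset.sum_congr rfl a1, this, hc] at a3
        omega
      · right
        filter_upwards [(eventually_all_finset S).2 fun q _ => hd q, h5 q0 hq0] with θ a1 a2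
        by_contra h8
        push Not at h8
        exact hc ((Finset.sum_congr rfl a1).symm.trans (ord_sum (hh θ) a2.1 S fun q h => by
          by_contra h9; exact h (h8 q h9)))
    have fin : ∀ θ1 θ2 θ3, Φ θ1 ≠ 0 → Φ θ2 ≠ 0 → Φ θ3 ≠ 0 →
        ((∀ q ∉ S, ord q (Φ θ1) + ord q (Φ θ2) + ord q (Φ θ3) = 0) ∨ ∃ q : Fin 3 → Option ℂ,
          Function.Injective q ∧ ∀ i, q i ∉ S ∧
            ord (q i) (Φ θ1) + ord (q i) (Φ θ2) + ord (q i) (Φ θ3) ≠ 0) →
        (∀ q ∈ S, GZ 3 (Ideal.span (Set.range fun i => chart q (f i)))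
          ((comb θ1 fun i => chart q (f i)) * (comb θ2 fun i => chart q (f i)) *
            comb θ3 fun i => chart q (f i)) (X 0 * chart q J) (Z q)) →
        GZ 3 (Ideal.span (Set.range f)) (comb θ1 f * comb θ2 f * comb θ3 f) J
          ((2 - (S.card : RatFunc ℂ)) / lin N k + ∑ q ∈ S, Z q) := by
      intro θ1 θ2 θ3 a1 a2 a3 a4 a5
      obtain ⟨b1, b2⟩ := hc_mul (h3 θ1) (h3 θ2)
      obtain ⟨b3, b4⟩ := hc_mul b1 (h3 θ3)
      rw [show N + N + N = 3 * N by ring] at b3 b4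
      rw [b2] at b4
      refine GZ.blow _ _ _ S N k Z hN (span_ind kap.toRingHom h2) b3
        (b4 ▸ mul_ne_zero (mul_ne_zero a1 a2) a3) (fun q hq => ?_) ?_ fun q hq => ?_
      · obtain ⟨g, hg, i, hi⟩ := gen_X0 (hgen q hq).2
        obtain rfl : i = 0 := Subsingleton.elim _ _
        exact ⟨g 0, hi, by simpa using hg 0⟩
      · have : ∀ q, ord q (homogeneousComponent (3 * N) (comb θ1 f * comb θ2 f * comb θ3 f)) =
            ord q (Φ θ1) + ord q (Φ θ2) + ord q (Φ θ3) := fun q => by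
          rw [b4, ord_mul ((hh θ1).mul (hh θ2)) (hh θ3) (mul_ne_zero a1 a2) a3,
            ord_mul (hh θ1) (hh θ2) a1 a2]
        simpa only [this] using a4
      · have e : ∀ θ, chart q (comb θ f) = comb θ fun i => chart q (f i) :=
          fun θ => map_comb (chart q).toLinearMap θ f
        rw [Ideal.map_span, ← Set.range_comp, map_mul, map_mul, e, e, e]
        exact a5 q hq
    have ih1 := (eventually_all_finset S).2 ih
    have n0 := (h5 q0 hq0).mono fun θ h => h.1
    rcases h7 with h7 | h7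
    · filter_upwards [ih1, n0, h7] with θ1 i1 a1 c1
      filter_upwards [(eventually_all_finset S).2 i1, n0, h7] with θ2 i2 a2 c2
      filter_upwards [(eventually_all_finset S).2 i2, n0, h7] with θ3 i3 a3 c3
      exact fin _ _ _ a1 a2 a3 (Or.inl fun q hq => by rw [c1 q hq, c2 q hq, c3 q hq]) i3
    · filter_upwards [ih1, n0, h7] with θ1 i1 a1 ⟨q1, c1, d1⟩
      filter_upwards [(eventually_all_finset S).2 i1, n0, h7, h5 q1 c1] with θ2 i2 a2 ⟨q2, c2, d2⟩ e1
      filter_upwards [(eventually_all_finset S).2 i2, n0, h7, h5 q1 c1, h5 q2 c2] with θ3 i3 a3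
        ⟨q3, c3, d3⟩ e2 e3
      have n12 : q1 ≠ q2 := fun h => d2 (h ▸ e1.2)
      have n13 : q1 ≠ q3 := fun h => d3 (h ▸ e2.2)
      have n23 : q2 ≠ q3 := fun h => d3 (h ▸ e3.2)
      refine fin _ _ _ a1 a2 a3 (Or.inr ⟨![q1, q2, q3], ?_, fun i => ?_⟩) i3
      · intro i j hij
        fin_cases i <;> fin_cases j <;> first | rfl | exact absurd hij ‹_› | exact absurd hij.symm ‹_›
      · fin_cases i
        · exact ⟨c1, fun h => d1 (by simp only [Fin.zero_eta, Matrix.cons_val_zero] at h; omega)⟩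
        · exact ⟨c2, fun h => d2 (by
            simp only [Fin.mk_one, Matrix.cons_val_one, Matrix.cons_val_zero] at h; omega)⟩
        · exact ⟨c3, fun h => d3 (by
            simp only [Fin.reduceFinMk, Matrix.cons_val] at h; omega)⟩

end Pool.Agent.MP_ee8c61_ag.H4
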