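import Pool.Agent.MP_ee8c61_ag.H4.Sol

/-! From the Bernstein-Sato equation of an ideal to the equation for `G(f) ^ τ`. -/

namespace Pool.Agent.MP_ee8c61_ag.H4

open Filter MvPolynomial

section Kap

variable {σ : Type*}

/-- generating series of the homogeneous components -/
noncomputable def kap : MvPolynomial σ ℂ →ₐ[ℂ] PowerSeries (MvPolynomial σ ℂ) :=
  aeval fun i => PowerSeries.X * PowerSeries.C (X i)

lemma kap_monomial (d : σ →₀ ℕ) (c : ℂ) :
    kap (monomial d c) = PowerSeries.X ^ d.degree * PowerSeries.C (monomial d c) := by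
  rw [kap, aeval_monomial, monomial_eq, Finsupp.prod, Finsupp.prod, Finsupp.degree_apply]
  simp only [mul_pow, Finset.prod_mul_distrib, Finset.prod_pow_eq_pow_sum, map_mul, map_prod,
    map_pow, PowerSeries.algebraMap_apply, algebraMap_eq]
  ring

lemma kap_hom {h : MvPolynomial σ ℂ} {D : ℕ} (hh : h.IsHomogeneous D) :
    kap h = PowerSeries.X ^ D * PowerSeries.C h := by
  conv_lhs => rw [h.as_sum]
  conv_rhs => rw [h.as_sum]
  rw [map_sum, map_sum, Finset.mul_sum]
  refine Finset.sum_congr rfl fun d hd => ?_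
  rw [kap_monomial, Finsupp.degree_apply, ← hh.degree_eq_sum_deg_support hd]

lemma coeff_kap (a : ℕ) (G : MvPolynomial σ ℂ) :
    PowerSeries.coeff a (kap G) = homogeneousComponent a G := by
  induction G using MvPolynomial.induction_on' with
  | monomial d c =>
    rw [kap_monomial, homogeneousComponent_of_mem (isHomogeneous_monomial c rfl),
      PowerSeries.coeff_mul_C, PowerSeries.coeff_X_pow]
    split_ifs <;> simp
  | add p q hp hq => simp [hp, hq]

lemma hom_div {p g : MvPolynomial σ ℂ} {a D : ℕ} (hp : p.IsHomogeneous a) (hp0 : p ≠ 0)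
    (h : (p * g).IsHomogeneous (a + D)) : g.IsHomogeneous D := by
  have h1 := kap_hom h
  rw [map_mul, kap_hom hp, map_mul, pow_add] at h1
  have h2 : kap g = PowerSeries.X ^ D * PowerSeries.C g := by
    refine mul_left_cancel₀ (a := PowerSeries.X ^ a * PowerSeries.C p)
      (mul_ne_zero (pow_ne_zero _ PowerSeries.X_ne_zero) ?_) (by rw [h1]; ring)
    intro h0
    exact hp0 (by simpa using congrArg PowerSeries.constantCoeff h0)
  have h3 := coeff_kap D g
  rw [h2, PowerSeries.coeff_mul_C, PowerSeries.coeff_X_pow_self, one_mul] at h3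
  rw [h3]
  exact homogeneousComponent_isHomogeneous _ _

end Kap

section Ops

variable {r : ℕ} {t : ℂ} {G : MvPolynomial (Fin r) ℂ}

/-- the linear operator with prescribed values on monomials -/
noncomputable def Op (w : (Fin r →₀ ℕ) → MvPolynomial (Fin r) ℂ) :
    MvPolynomial (Fin r) ℂ →ₗ[ℂ] MvPolynomial (Fin r) ℂ := (basisMonomials _ ℂ).constr ℂ w

lemma Op_monomial (w : (Fin r →₀ ℕ) → MvPolynomial (Fin r) ℂ) (s : Fin r →₀ ℕ) :
    Op w (monomial s 1) = w s := by
  have := (basisMonomials (Fin r) ℂ).constr_basis ℂ w s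
  simpa [Op] using this

lemma Op_apply (w : (Fin r →₀ ℕ) → MvPolynomial (Fin r) ℂ) (p : MvPolynomial (Fin r) ℂ) :
    Op w p = ∑ s ∈ p.support, C (coeff s p) * w s := by
  conv_lhs => rw [p.as_sum]
  rw [map_sum]
  refine Finset.sum_congr rfl fun s _ => ?_
  rw [← Op_monomial w s, ← smul_eq_C_mul, ← map_smul, smul_monomial, smul_eq_mul, mul_one]

/-- operators preserving the families `G ^ (τ - e) g τ` -/
def Good (t : ℂ) (G : MvPolynomial (Fin r) ℂ)
    (W : MvPolynomial (Fin r) ℂ →ₗ[ℂ] MvPolynomial (Fin r) ℂ) : Prop :=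
  ∀ Y, PF t G Y → PF t G fun τ => W (Y τ)

lemma Good.of_eq {w} {W : MvPolynomial (Fin r) ℂ →ₗ[ℂ] MvPolynomial (Fin r) ℂ} (h : Good t G W)
    (e : ∀ s, W (monomial s 1) = w s) : Good t G (Op w) := by
  have : Op w = W := (basisMonomials (Fin r) ℂ).ext fun s => by
    simpa [Op_monomial] using (e s).symm
  rwa [this]

lemma Good.comp {W W' : MvPolynomial (Fin r) ℂ →ₗ[ℂ] MvPolynomial (Fin r) ℂ} (h : Good t G W)
    (h' : Good t G W') : Good t G (W ∘ₗ W') := fun Y hY => h _ (h' Y hY)

lemma good_mul (a : MvPolynomial (Fin r) ℂ) : Good t G (LinearMap.mulLeft ℂ a) :=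
  fun _ hY => hY.cmul a

lemma good_der (j : Fin r) : Good t G (pderiv j).toLinearMap := fun _ hY => hY.deriv (pderiv j)

lemma good_diag (q : MvPolynomial (Fin r) ℂ) :
    Good t G (Op fun s => C (eval (fun j => (s j : ℂ)) q) * monomial s 1) := by
  induction q using MvPolynomial.induction_on with
  | C a => exact (good_mul (C a)).of_eq fun s => by simp
  | add p q hp hq =>
    refine Good.of_eq (W := Op _ + Op _) (fun Y hY => (hp Y hY).add (hq Y hY)) fun s => ?_
    simp [Op_monomial, add_mul]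
  | mul_X p j hp =>
    refine ((good_mul (X j)).comp ((good_der j).comp hp)).of_eq fun s => ?_
    simp only [LinearMap.comp_apply, Op_monomial, Derivation.coeFn_coe, LinearMap.mulLeft_apply,
      pderiv_C_mul, map_mul, eval_X]
    rw [mul_left_comm, X_mul_pderiv_monomial]
    simp [mul_assoc]

lemma good_pow (j : Fin r) (u : ℕ) : Good t G ((pderiv j).toLinearMap ^ u) := by
  induction u with
  | zero => exact fun _ hY => hY
  | succ u ih => rw [pow_succ']; exact (good_der j).comp ih

lemma der_pow (j : Fin r) (u a : ℕ) (Q : MvPolynomial (Fin r) ℂ) (hQ : pderiv j Q = 0) :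
    ((pderiv j).toLinearMap ^ u) (X j ^ a * Q) = C (a.descFactorial u : ℂ) * X j ^ (a - u) * Q := by
  induction u with
  | zero => simp
  | succ u ih =>
    rw [pow_succ', Module.End.mul_apply, ih, Nat.descFactorial_succ, mul_assoc,
      Derivation.coeFn_coe, pderiv_C_mul]
    simp only [Derivation.leibniz, hQ, Derivation.leibniz_pow,
      pderiv_X_self, smul_eq_mul, nsmul_eq_mul, Nat.cast_mul, map_mul, map_natCast]
    rw [Nat.sub_sub]; ring

lemma der_prod_zero {ι : Type*} (j : Fin r) (T : Finset ι) (a : ι → MvPolynomial (Fin r) ℂ)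
    (h : ∀ i ∈ T, pderiv j (a i) = 0) : pderiv j (∏ i ∈ T, a i) = 0 :=
  Finset.prod_induction a (fun p => pderiv j p = 0) (fun p q hp hq => by simp [hp, hq]) (by simp) h

lemma good_shift (c : Fin r → ℤ) (T : Finset (Fin r)) :
    Good t G (Op fun s => (∏ j ∈ T, C ((s j).choose (-c j).toNat : ℂ) *
      X j ^ ((s j : ℤ) + c j).toNat) * ∏ j ∈ Tᶜ, X j ^ s j) := by
  induction T using Finset.induction_on with
  | empty =>
    refine Good.of_eq (W := LinearMap.id) (fun _ hY => hY) fun s => ?_
    simp [monomial_eq, Finsupp.prod_fintype]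
  | insert j T hj ih =>
    refine ((good_mul (C (1 / ((-c j).toNat.factorial : ℂ)) * X j ^ (c j).toNat)).comp
      ((good_pow j (-c j).toNat).comp ih)).of_eq fun s => ?_
    have h1 : Tᶜ = insert j (insert j T)ᶜ := by
      ext i; by_cases hi : i = j <;> simp [hi, hj]
    simp only [LinearMap.comp_apply, Op_monomial, LinearMap.mulLeft_apply]
    rw [h1, Finset.prod_insert (by simp), Finset.prod_insert hj, mul_left_comm, der_pow]
    · rw [Nat.descFactorial_eq_factorial_mul_choose]
      have h2 : ((-c j).toNat.factorial : ℂ) ≠ 0 := by exact_mod_cast Nat.factorial_ne_zero _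
      by_cases h3 : (s j).choose (-c j).toNat = 0
      · simp [h3]
      have h4 : (-c j).toNat ≤ s j := by
        by_contra h; exact h3 (Nat.choose_eq_zero_of_lt (by omega))
      rw [show ((s j : ℤ) + c j).toNat = (c j).toNat + (s j - (-c j).toNat) by omega, pow_add,
        Nat.cast_mul, map_mul]
      have h5 : (C (1 / ((-c j).toNat.factorial : ℂ)) : MvPolynomial (Fin r) ℂ) *
          C ((-c j).toNat.factorial : ℂ) = 1 := by rw [← map_mul, one_div_mul_cancel h2, map_one]
      linear_combination (X j ^ (c j).toNat * C ((s j).choose (-c j).toNat : ℂ) *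
        X j ^ (s j - (-c j).toNat) * ((∏ j ∈ T, C ((s j).choose (-c j).toNat : ℂ) *
      X j ^ ((s j : ℤ) + c j).toNat) * ∏ j ∈ (insert j T)ᶜ, X j ^ s j)) * h5
    · rw [Derivation.leibniz, der_prod_zero, der_prod_zero]
      · simp
      · intro i hi
        have : i ≠ j := fun h => hj (h ▸ hi)
        simp [Derivation.leibniz_pow, pderiv_X_of_ne this]
      · intro i hi
        have : i ≠ j := fun h => by simp [h] at hi
        simp [Derivation.leibniz_pow, pderiv_X_of_ne this]

lemma aeval_mem_pow {f : Fin r → R2} {g : MvPolynomial (Fin r) ℂ} {D : ℕ} (hg : g.IsHomogeneous D) :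
    aeval f g ∈ Ideal.span (Set.range f) ^ D := by
  refine (Ideal.mem_span_pow_iff_exists_isHomogeneous f _).2 ⟨map C g, hg.map _, ?_⟩
  rw [eval_map, aeval_def]; rfl

lemma h0_W {n : ℕ} (hG : G.IsHomogeneous n) (hG0 : G ≠ 0) (f : Fin r → R2) (c : Fin r → ℤ)
    (hc : ∑ j, c j = 1) (q : MvPolynomial (Fin r) ℂ) :
    H0 t (aeval f G) (Ideal.span (Set.range f)) n fun τ => ∑ s ∈ (G ^ τ).support,
      C (coeff s (G ^ τ)) * (C (eval (fun j => (s j : ℂ)) q) *
        (C (∏ j, ((s j).choose (-c j).toNat : ℂ)) * ∏ j, f j ^ ((s j : ℤ) + c j).toNat)) := by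
  obtain ⟨e, v, g, hg, h⟩ := (good_shift (t := t) (G := G) c Finset.univ).comp (good_diag q) _
    ⟨0, 1, PV.pow G⟩
  simp only [LinearMap.comp_apply, Op_apply _ (G ^ _), map_sum, ← smul_eq_C_mul, map_smul,
    Op_monomial, Finset.compl_univ, Finset.prod_empty, mul_one] at h
  refine ⟨e, _, _, hg.map (aeval f).toLinearMap, ?_⟩
  filter_upwards [h, eventually_ge_atTop e] with τ h1 h2
  constructor
  · refine aeval_mem_pow (hom_div (hG.pow (τ - e)) (pow_ne_zero _ hG0) ?_)
    rw [← h1]
    refine IsHomogeneous.sum _ _ _ fun s hs => ?_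
    rw [smul_eq_C_mul, smul_eq_C_mul]
    refine IsHomogeneous.C_mul (IsHomogeneous.C_mul ?_ _) _
    by_cases h3 : ∃ j, s j < (-c j).toNat
    · obtain ⟨j, hj⟩ := h3
      rw [Finset.prod_eq_zero (Finset.mem_univ j) (by simp [Nat.choose_eq_zero_of_lt hj])]
      exact isHomogeneous_zero _ _ _
    · push Not at h3
      have h4 := (hG.pow τ).degree_eq_sum_deg_support hs
      rw [Finset.sum_subset (Finset.subset_univ _) (by simp)] at h4
      have h5 : ∑ j, ((s j : ℤ) + c j).toNat = n * (τ - e) + (n * e + 1) := by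
        have h6 : ∀ j, (((s j : ℤ) + c j).toNat : ℤ) = s j + c j := fun j => by
          have := h3 j; omega
        obtain ⟨m, rfl⟩ := Nat.exists_eq_add_of_le h2
        zify at h4 ⊢
        simp only [h6, Finset.sum_add_distrib, hc, ← h4, Nat.add_sub_cancel_left]
        ring
      rw [← h5]
      refine IsHomogeneous.prod _ _ _ fun j _ => ?_
      rw [smul_eq_C_mul]
      exact isHomogeneous_C_mul_X_pow _ _ _
  · have := congrArg (aeval f) h1
    simp only [map_sum, map_smul, map_prod, map_pow, aeval_X, map_mul] at this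
    rw [AlgHom.toLinearMap_apply, ← this]
    refine Finset.sum_congr rfl fun s _ => ?_
    simp only [smul_eq_C_mul, Finset.prod_mul_distrib, map_prod]

lemma Gn.foldr {F : R2} {I : Ideal R2} {n : ℕ} {J : R2} {Y : ℕ → R2} (h : Gn t F I n J Y)
    (L : List (Fin 2)) : Gn t F I n J fun τ => L.foldr (fun i h => pderiv i h) (Y τ) := by
  induction L with
  | nil => exact h
  | cons i L ih => exact Gn.der i _ ih

lemma foldr_sum {ι : Type*} (L : List (Fin 2)) (s : Finset ι) (a : ι → ℂ) (g : ι → R2) :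
    L.foldr (fun i h => pderiv i h) (∑ i ∈ s, C (a i) * g i) =
      ∑ i ∈ s, C (a i) * L.foldr (fun i h => pderiv i h) (g i) := by
  induction L with
  | nil => rfl
  | cons i L ih => simp only [List.foldr_cons, ih, map_sum, pderiv_C_mul]

theorem sol_of_isBS {n : ℕ} (hG : G.IsHomogeneous n) (hG0 : G ≠ 0) {f : Fin r → R2}
    {b : Polynomial ℂ} (hb : IsBS f b) (t : ℂ) :
    ∃ A B, Sol t b (aeval f G) (Ideal.span (Set.range f)) n 1 A B := by
  obtain ⟨S, P, hS, hb⟩ := hb
  refine Sol.of_gn (aeval_mem_pow hG) (Gn.congr _ _ (Gn.sum S fun c hc =>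
    Gn.sum (P c).support fun L _ => Gn.sum (P c L).support fun d _ =>
      ((Gn.base _ (h0_W hG hG0 f c (hS c hc) (coeff d (P c L)))).foldr L).cmul (monomial d 1))
    (Eventually.of_forall fun τ => ?_))
  have h1 : C (b.eval ((n : ℂ) * τ)) * aeval f G ^ τ = ∑ s ∈ (G ^ τ).support,
      C (coeff s (G ^ τ)) * (C (b.eval (∑ j, (s j : ℂ))) * ∏ j, f j ^ s j) := by
    rw [← map_pow, aeval_def, eval₂_eq', Finset.mul_sum]
    refine Finset.sum_congr rfl fun s hs => ?_
    have h4 := (hG.pow τ).degree_eq_sum_deg_support hs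
    rw [Finset.sum_subset (Finset.subset_univ _) (by simp)] at h4
    rw [← Nat.cast_sum, ← h4, Nat.cast_mul, algebraMap_eq]; ring
  simp only [h1, hb, act, Finsupp.sum, Finset.mul_sum]
  rw [Finset.sum_comm]
  refine Finset.sum_congr rfl fun c _ => ?_
  rw [Finset.sum_comm]
  refine Finset.sum_congr rfl fun L _ => ?_
  simp only [← mul_assoc, ← map_mul]
  simp only [mul_assoc, foldr_sum, Finset.mul_sum]
  rw [Finset.sum_comm]
  refine Finset.sum_congr rfl fun s _ => ?_
  conv_lhs => rw [(P c L).as_sum, map_sum, Finset.sum_mul, Finset.mul_sum]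
  refine Finset.sum_congr rfl fun d _ => ?_
  have h2 := foldr_sum L {()} (fun _ => ∏ j, ((s j).choose (-c j).toNat : ℂ))
    (fun _ => ∏ j, f j ^ ((s j : ℤ) + c j).toNat)
  simp only [Finset.sum_singleton] at h2
  rw [h2, map_monomial, ← mul_one (eval _ _), ← C_mul_monomial]
  simp only [map_mul, mul_one]
  ring

end Ops

end Pool.Agent.MP_ee8c61_ag.H4
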