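import Pool.Agent.MP_ee8c61_ag.H4.L0

/-! Leading terms along the coordinate axes and along the exceptional line. -/

namespace Pool.Agent.MP_ee8c61_ag.H4

open Filter MvPolynomial
open scoped Polynomial

lemma R2.ind {P : R2 → Prop} (hm : ∀ (c : ℂ) (i j : ℕ), P (C c * X 0 ^ i * X 1 ^ j))
    (ha : ∀ p q, P p → P q → P (p + q)) (G : R2) : P G := by
  induction G using MvPolynomial.induction_on' with
  | monomial d c =>
    have := hm c (d 0) (d 1)
    rwa [monomial_eq, Finsupp.prod_fintype _ _ (by simp), Fin.prod_univ_two, ← mul_assoc]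
  | add p q hp hq => exact ha p q hp hq

/-- expansion in powers of `x` -/
noncomputable def io : R2 →ₐ[ℂ] PowerSeries ℂ[X] :=
  aeval ![PowerSeries.X, PowerSeries.C Polynomial.X]

@[simp] lemma io_X0 : io (X 0) = PowerSeries.X := by simp [io]
@[simp] lemma io_X1 : io (X 1) = PowerSeries.C Polynomial.X := by simp [io]
@[simp] lemma io_C (c : ℂ) : io (C c) = PowerSeries.C (Polynomial.C c) := by
  simp [io, PowerSeries.algebraMap_apply]

/-- coefficient of `x ^ a` -/
noncomputable def ld (a : ℕ) : R2 →ₗ[ℂ] ℂ[X] := cf a ∘ₗ io.toLinearMap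

lemma ld_apply (a : ℕ) (G : R2) : ld a G = PowerSeries.coeff a (io G) := rfl

/-- coefficient of `x ^ a y ^ b` -/
noncomputable def lc (G : R2) (a b : ℕ) : ℂ := (ld a G).coeff b

lemma ld_mon (a : ℕ) (c : ℂ) (i j : ℕ) :
    ld a (C c * X 0 ^ i * X 1 ^ j) = if a = i then Polynomial.C c * Polynomial.X ^ j else 0 := by
  simp only [ld_apply, map_mul, map_pow, io_X0, io_X1, io_C]
  rw [← map_pow, PowerSeries.coeff_mul_C, PowerSeries.coeff_C_mul, PowerSeries.coeff_X_pow]
  split_ifs <;> simp

lemma ld_C_mul (a : ℕ) (c : ℂ) (G : R2) : ld a (C c * G) = Polynomial.C c * ld a G := by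
  rw [ld_apply, map_mul, io_C, PowerSeries.coeff_C_mul, ld_apply]

lemma ld_X1_mul (a : ℕ) (G : R2) : ld a (X 1 * G) = Polynomial.X * ld a G := by
  simp [ld_apply]

lemma ld_X0_mul (a : ℕ) (G : R2) : ld (a + 1) (X 0 * G) = ld a G := by
  simp [ld_apply, PowerSeries.coeff_succ_X_mul]

lemma lc_sw (G : R2) (a b : ℕ) : lc (sw G) a b = lc G b a := by
  induction G using R2.ind with
  | hm c i j =>
    rw [map_mul, map_mul, map_pow, map_pow, sw_X0, sw_X1, algHom_C, algebraMap_eq, mul_right_comm]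
    simp only [lc, ld_mon]
    split_ifs <;> simp_all [Polynomial.coeff_X_pow]
  | ha p q hp hq => simp only [lc, map_add, Polynomial.coeff_add] at *; rw [hp, hq]

lemma io_pderiv0 (G : R2) : io (pderiv 0 G) = dX (io G) := by
  have h1 : ∀ p : ℂ[X], dX (PowerSeries.C p) = 0 := fun p => by ext1 k; simp [coeff_dX]
  have h2 : dX (PowerSeries.X : PowerSeries ℂ[X]) = 1 := PowerSeries.derivative_X
  induction G using MvPolynomial.induction_on with
  | C a => simp
  | add p q hp hq => simp only [map_add, hp, hq]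
  | mul_X p j hp =>
    simp only [map_mul, Derivation.leibniz, smul_eq_mul, map_add, hp]
    fin_cases j <;> simp [h1, h2]

lemma ld_pderiv0 (a : ℕ) (G : R2) : ld a (pderiv 0 G) = ld (a + 1) G * (a + 1) := by
  rw [ld_apply, io_pderiv0, coeff_dX, ld_apply]

lemma ld_pderiv1 (a : ℕ) (G : R2) : ld a (pderiv 1 G) = Polynomial.derivative (ld a G) := by
  induction G using R2.ind with
  | hm c i j =>
    have : pderiv 1 (C c * X 0 ^ i * X 1 ^ j : R2) = C (c * j) * X 0 ^ i * X 1 ^ (j - 1) := by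
      simp [Derivation.leibniz_pow]; ring
    rw [this, ld_mon, ld_mon]
    split_ifs <;> simp [Polynomial.derivative_X_pow, mul_assoc]
  | ha p q hp hq => simp only [map_add, hp, hq]

lemma cc_io (G : R2) : (PowerSeries.constantCoeff (io G)).coeff 0 = constantCoeff G := by
  induction G using MvPolynomial.induction_on with
  | C a => rw [io_C]; simp
  | add p q hp hq => simp only [map_add, Polynomial.coeff_add, hp, hq]
  | mul_X p j hp => fin_cases j <;> simp

/-- `G = u x ^ a y ^ b + ` lexicographically higher terms -/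
def Lx (G : R2) (a b : ℕ) (u : ℂ) : Prop :=
  ∃ P p, io G = PowerSeries.X ^ a * P ∧ PowerSeries.constantCoeff P = Polynomial.X ^ b * p ∧
    p.coeff 0 = u

lemma Lx.mul {G G' : R2} {a b a' b' : ℕ} {u u' : ℂ} (h : Lx G a b u) (h' : Lx G' a' b' u') :
    Lx (G * G') (a + a') (b + b') (u * u') := by
  obtain ⟨P, p, h1, h2, h3⟩ := h
  obtain ⟨P', p', h1', h2', h3'⟩ := h'
  exact ⟨P * P', p * p', by rw [map_mul, h1, h1']; ring, by rw [map_mul, h2, h2']; ring,
    by simp [h3, h3']⟩

lemma Lx.unit (U : R2) : Lx U 0 0 (constantCoeff U) :=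
  ⟨io U, PowerSeries.constantCoeff (io U), by simp, by simp, cc_io U⟩

lemma Lx.pow {G : R2} {a b : ℕ} {u : ℂ} (h : Lx G a b u) (m : ℕ) :
    Lx (G ^ m) (a * m) (b * m) (u ^ m) := by
  induction m with
  | zero => simpa using Lx.unit 1
  | succ m ih => simpa [pow_succ, mul_add] using ih.mul h

lemma Lx.X0 : Lx (X 0) 1 0 1 := ⟨1, 1, by simp, by simp, by simp⟩
lemma Lx.X1 : Lx (X 1) 0 1 1 := ⟨PowerSeries.C Polynomial.X, 1, by simp, by simp, by simp⟩

lemma Lx.congr {G G' : R2} {a b a' b' : ℕ} {u u' : ℂ} (h : Lx G a b u) (hG : G' = G) (ha : a' = a)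
    (hb : b' = b) (hu : u' = u) : Lx G' a' b' u' := by rwa [hG, ha, hb, hu]

lemma lx_iff {G : R2} {a b : ℕ} {u : ℂ} :
    Lx G a b u ↔ (∀ j < a, ld j G = 0) ∧ (∀ j < b, lc G a j = 0) ∧ lc G a b = u := by
  constructor
  · rintro ⟨P, p, h1, h2, h3⟩
    have h4 : ld a G = Polynomial.X ^ b * p := by
      rw [ld_apply, h1, ← h2]; simp [PowerSeries.coeff_X_pow_mul']
    refine ⟨PowerSeries.X_pow_dvd_iff.1 ⟨P, h1⟩, Polynomial.X_pow_dvd_iff.1 ⟨p, h4⟩, ?_⟩
    rw [lc, h4, ← h3]; simp [Polynomial.coeff_X_pow_mul']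
  · rintro ⟨h1, h2, h3⟩
    obtain ⟨P, hP⟩ := (PowerSeries.X_pow_dvd_iff (φ := io G)).2 h1
    obtain ⟨p, hp⟩ := Polynomial.X_pow_dvd_iff.2 h2
    refine ⟨P, p, hP, ?_, ?_⟩
    · rw [← hp, ld_apply, hP]; simp [PowerSeries.coeff_X_pow_mul']
    · rw [← h3, lc, hp]; simp [Polynomial.coeff_X_pow_mul']

lemma Lx.le {G : R2} {a b i j : ℕ} {u : ℂ} (h : Lx G a b u) (h' : lc G i j ≠ 0) : a ≤ i := by
  by_contra h1
  exact h' (by simp [lc, (lx_iff.1 h).1 i (by omega)])

lemma Lx.lc_eq {G : R2} {a b : ℕ} {u : ℂ} (h : Lx G a b u) : lc G a b = u := (lx_iff.1 h).2.2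

lemma Lx.unique {G : R2} {a b a' b' : ℕ} {u u' : ℂ} (h : Lx G a b u) (h' : Lx G a' b' u')
    (hu : u ≠ 0) (hu' : u' ≠ 0) : a = a' ∧ b = b' ∧ u = u' := by
  obtain rfl : a = a' := le_antisymm (h.le (h'.lc_eq ▸ hu')) (h'.le (h.lc_eq ▸ hu))
  obtain rfl : b = b' := by
    rcases lt_trichotomy b b' with h1 | h1 | h1
    · exact absurd (h.lc_eq.symm.trans ((lx_iff.1 h').2.1 b h1)) hu
    · exact h1
    · exact absurd (h'.lc_eq.symm.trans ((lx_iff.1 h).2.1 b' h1)) hu'
  exact ⟨rfl, rfl, h.lc_eq.symm.trans h'.lc_eq⟩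

lemma Lx.two {G : R2} {a b a' b' : ℕ} {u u' : ℂ} (h : Lx G a b u) (hu : u ≠ 0)
    (h' : Lx (sw G) a' b' u') : a' ≤ b := h'.le (j := a) (by rwa [lc_sw, h.lc_eq])

/-- the chart at the strict transform of `x = 0`, with the coordinates exchanged -/
noncomputable def tt : R2 →ₐ[ℂ] R2 := aeval ![X 0 * X 1, X 1]

lemma sw_chart_none (G : R2) : sw (chart none G) = tt G := by
  have : sw.comp (chart none) = tt := algHom_ext fun i => by fin_cases i <;> simp [tt, mul_comm]
  exact AlgHom.congr_fun this G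

lemma sw_chart_zero (G : R2) : sw (chart (some 0) G) = tt (sw G) := by
  rw [← sw_chart_none, chart_none, sw_sw]

lemma ld_tt (a : ℕ) (G : R2) : ld a (tt G) = Polynomial.X ^ a * ld a G := by
  induction G using R2.ind with
  | hm c i j =>
    have : tt (C c * X 0 ^ i * X 1 ^ j) = C c * X 0 ^ i * X 1 ^ (i + j) := by
      simp [tt]; ring
    rw [this, ld_mon, ld_mon]
    split_ifs with h
    · rw [h]; ring
    · simp
  | ha p q hp hq => simp only [map_add, hp, hq, mul_add]

lemma lc_tt (G : R2) (a b : ℕ) : lc (tt G) a (a + b) = lc G a b := by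
  rw [lc, ld_tt, add_comm, Polynomial.coeff_X_pow_mul, lc]

lemma lc_X1_tt (G : R2) (a b : ℕ) : lc (X 1 * tt G) a (a + b + 1) = lc G a b := by
  rw [lc, ld_X1_mul, Polynomial.coeff_X_mul, ← lc, lc_tt]

lemma Lx.tt {G : R2} {a b : ℕ} {u : ℂ} (h : Lx G a b u) : Lx (tt G) a (a + b) u := by
  obtain ⟨h1, h2, h3⟩ := lx_iff.1 h
  refine lx_iff.2 ⟨fun j hj => by simp [ld_tt, h1 j hj], fun j hj => ?_, by rw [lc_tt, h3]⟩
  rw [lc, ld_tt, Polynomial.coeff_X_pow_mul']
  split_ifs with h4
  · exact h2 _ (by omega)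
  · rfl

lemma tr_ex (p : ℂ[X]) :
    ∃ p1, p = Polynomial.X ^ p.natTrailingDegree * p1 ∧ p1.coeff 0 = p.trailingCoeff := by
  obtain ⟨p1, h⟩ := (Polynomial.X_pow_dvd_iff (f := p) (n := p.natTrailingDegree)).2
    fun d hd => Polynomial.coeff_eq_zero_of_lt_natTrailingDegree hd
  refine ⟨p1, h, ?_⟩
  rw [Polynomial.trailingCoeff]
  generalize p.natTrailingDegree = a at *
  rw [h]; simp [Polynomial.coeff_X_pow_mul']

/-- local expression of a binary form at the point `q` of the projective line -/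
noncomputable def loc (q : Option ℂ) : R2 →ₐ[ℂ] ℂ[X] :=
  aeval (q.elim ![Polynomial.X, 1] fun c => ![1, Polynomial.X + Polynomial.C c])

@[simp] lemma loc_some_X0 (c : ℂ) : loc (some c) (X 0) = 1 := by simp [loc]
@[simp] lemma loc_some_X1 (c : ℂ) : loc (some c) (X 1) = Polynomial.X + Polynomial.C c := by
  simp [loc]
@[simp] lemma loc_none_X0 : loc none (X 0) = Polynomial.X := by simp [loc]
@[simp] lemma loc_none_X1 : loc none (X 1) = 1 := by simp [loc]

lemma io_chart (q : Option ℂ) (G : R2) :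
    io (chart q G) = PowerSeries.map (loc q).toRingHom (kap G) := by
  induction G using MvPolynomial.induction_on with
  | C a => simp [kap, PowerSeries.algebraMap_apply]
  | add p q hp hq => simp only [map_add, hp, hq]
  | mul_X p j hp =>
    rw [map_mul, map_mul, map_mul, map_mul, hp]
    refine congrArg _ ?_
    cases q <;> fin_cases j <;> simp [kap, PowerSeries.algebraMap_apply]

lemma ld_chart (q : Option ℂ) (a : ℕ) (G : R2) :
    ld a (chart q G) = loc q (homogeneousComponent a G) := by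
  rw [ld_apply, io_chart, PowerSeries.coeff_map, coeff_kap]; rfl

lemma cc_chart (q : Option ℂ) (G : R2) : constantCoeff (chart q G) = constantCoeff G := by
  induction G using MvPolynomial.induction_on with
  | C a => simp
  | add p q hp hq => simp only [map_add, hp, hq]
  | mul_X p j hp => cases q <;> fin_cases j <;> simp

/-- order of a binary form at the point `q` -/
noncomputable def ord (q : Option ℂ) (h : R2) : ℕ := (loc q h).natTrailingDegree

/-- leading coefficient of a binary form at the point `q` -/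
noncomputable def tc (q : Option ℂ) (h : R2) : ℂ := (loc q h).trailingCoeff

lemma lx_chart (q : Option ℂ) {F : R2} {M : ℕ} (hF : PowerSeries.X ^ M ∣ kap F) :
    Lx (chart q F) M (ord q (homogeneousComponent M F)) (tc q (homogeneousComponent M F)) := by
  refine lx_iff.2 ⟨fun j hj => ?_, fun j hj => ?_, ?_⟩
  · rw [ld_chart, ← coeff_kap, PowerSeries.X_pow_dvd_iff.1 hF j hj, map_zero]
  · rw [lc, ld_chart]
    exact Polynomial.coeff_eq_zero_of_lt_natTrailingDegree hj
  · rw [lc, ld_chart]; rfl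

lemma loc_some (c : ℂ) (h : R2) :
    loc (some c) h = (loc (some 0) h).comp (Polynomial.X + Polynomial.C c) := by
  induction h using MvPolynomial.induction_on with
  | C a => simp
  | add p q hp hq => simp only [map_add, hp, hq, Polynomial.add_comp]
  | mul_X p j hp => fin_cases j <;> simp [hp]

lemma loc_hom {h : R2} {D : ℕ} (hh : h.IsHomogeneous D) :
    (loc (some 0) h).natDegree ≤ D ∧ loc none h = (loc (some 0) h).reflect D := by
  induction hh using IsWeightedHomogeneous.induction_on with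
  | zero => simp
  | add p q _ _ hp hq =>
    exact ⟨by rw [map_add]; exact Polynomial.natDegree_add_le_of_degree_le hp.1 hq.1,
      by simp [hp.2, hq.2]⟩
  | monomial d c hd =>
    have h1 : d 0 + d 1 = D := by
      rw [← hd]; simp [Finsupp.weight_apply, Finsupp.sum_fintype]
    rw [monomial_eq, Finsupp.prod_fintype _ _ (by simp), Fin.prod_univ_two]
    simp only [map_mul, map_pow, loc_some_X0, loc_some_X1, loc_none_X0, loc_none_X1, algHom_C,
      Polynomial.algebraMap_eq, map_zero, add_zero, one_pow, one_mul, mul_one]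
    refine ⟨(Polynomial.natDegree_C_mul_X_pow_le _ _).trans (by omega), ?_⟩
    rw [Polynomial.reflect_C_mul_X_pow, Polynomial.revAt_le (by omega)]
    congr 2; omega

lemma loc_ne_zero {h : R2} {D : ℕ} (hh : h.IsHomogeneous D) (h0 : h ≠ 0) (q : Option ℂ) :
    loc q h ≠ 0 := by
  have h1 : loc none h ≠ 0 := fun e => h0 (by
    rw [← Polynomial.homogenize_eq_of_isHomogeneous hh (p := 0) e, Polynomial.homogenize_zero])
  have h2 : loc (some 0) h ≠ 0 := fun e => h1 (by rw [(loc_hom hh).2, e, Polynomial.reflect_zero])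
  cases q with
  | none => exact h1
  | some c =>
    rw [loc_some]
    exact Polynomial.comp_X_add_C_ne_zero_iff.2 h2

lemma ord_fin (h : R2) : ∃ Q : Finset (Option ℂ), ∀ q, ord q h ≠ 0 → q ∈ Q := by
  refine ⟨Finset.insertNone (loc (some 0) h).roots.toFinset, fun q hq => ?_⟩
  cases q with
  | none => simp
  | some c =>
    rw [ord, loc_some, ← Polynomial.rootMultiplicity_eq_natTrailingDegree,
      ← Polynomial.count_roots] at hq
    simpa using Multiset.count_ne_zero.1 hq

lemma ord_sum {h : R2} {D : ℕ} (hh : h.IsHomogeneous D) (h0 : h ≠ 0) (Q : Finset (Option ℂ))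
    (hQ : ∀ q, ord q h ≠ 0 → q ∈ Q) : ∑ q ∈ Q, ord q h = D := by
  classical
  have h2 := loc_ne_zero hh h0 (some 0)
  have e1 : ∀ c, ord (some c) h = (loc (some 0) h).roots.count c := fun c => by
    rw [ord, loc_some, ← Polynomial.rootMultiplicity_eq_natTrailingDegree, Polynomial.count_roots]
  have e2 : ∑ q ∈ Q, ord q h =
      ∑ q ∈ Finset.insertNone (loc (some 0) h).roots.toFinset, ord q h := by
    refine (Finset.sum_subset (Finset.subset_union_left) ?_).trans
      (Finset.sum_subset (Finset.subset_union_right) ?_).symm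
    · intro q _ hq; by_contra h1; exact hq (hQ q h1)
    · intro q _ hq
      cases q with
      | none => simp at hq
      | some c => rw [e1, Multiset.count_eq_zero]; simpa using hq
  rw [e2, Finset.sum_insertNone]
  simp only [e1]
  rw [Multiset.toFinset_sum_count_eq, IsAlgClosed.card_roots_eq_natDegree, ord, (loc_hom hh).2]
  have h3 := (loc_hom hh).1
  generalize loc (some 0) h = p at *
  have h4 : p.reflect D = p.reverse * Polynomial.X ^ (D - p.natDegree) := by
    have := Polynomial.reflect_mul p 1 (F := p.natDegree) (G := D - p.natDegree) le_rfl (by simp)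
    rwa [mul_one, Nat.add_sub_cancel' h3, Polynomial.reflect_one] at this
  rw [h4, Polynomial.natTrailingDegree_mul_X_pow (by simpa using h2),
    Polynomial.natTrailingDegree_reverse]
  omega

end Pool.Agent.MP_ee8c61_ag.H4
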