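import Pool.Agent.MP_ee8c61_ag.H4.Simple

/-! The local and the curve contributions times `b` are regular everywhere. -/

namespace Pool.Agent.MP_ee8c61_ag.H4

open Filter MvPolynomial
open scoped Polynomial

variable {r : ℕ} {f : Fin r → R2} {b : ℂ[X]}

theorem val_point (hb : IsBS f b) {P : Fin 2 → ℂ} {Z : RatFunc ℂ}
    (h : LocZeta (fun i => shift P (f i)) 1 Z) (s : ℂ) :
    ∃ v, ValAt s (algebraMap ℂ[X] (RatFunc ℂ) b * Z) v := by
  obtain ⟨θ1, h1⟩ := h.gz.exists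
  obtain ⟨θ2, h2⟩ := h1.exists
  obtain ⟨θ3, h3⟩ := h2.exists
  have e1 : ∀ θ, (comb θ (X : Fin r → MvPolynomial (Fin r) ℂ)).IsHomogeneous 1 := fun θ =>
    IsHomogeneous.sum _ _ _ fun m _ => by
      rw [smul_eq_C_mul]; exact isHomogeneous_C_mul_X _ _
  have e2 : ∀ θ, shift P (aeval f (comb θ (X : Fin r → MvPolynomial (Fin r) ℂ))) =
      comb θ fun i => shift P (f i) := fun θ => by
    simp [comb]
  have e3 : shift P (aeval f (comb θ1 X * comb θ2 X * comb θ3 X : MvPolynomial (Fin r) ℂ)) =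
      (comb θ1 fun i => shift P (f i)) * (comb θ2 fun i => shift P (f i)) *
        comb θ3 fun i => shift P (f i) := by simp only [map_mul, e2]
  obtain ⟨A, B, hs⟩ := sol_of_isBS (((e1 θ1).mul (e1 θ2)).mul (e1 θ3))
    (fun h0 => h3.ne_zero (by rw [← e3, h0]; simp)) hb (s / 3)
  replace hs := hs.shift P
  rw [e3, Ideal.map_span, ← Set.range_comp] at hs
  have hi : Inv ((comb θ1 fun i => shift P (f i)) * (comb θ2 fun i => shift P (f i)) *
      comb θ3 fun i => shift P (f i)) 1 0 0 0 0 0 0 :=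
    ⟨⟨1, by simp, by simp⟩, by simp [Flag], by simp [Flag]⟩
  have e4 : ((3 : ℕ) : ℂ) * (s / 3) = s := by push_cast; ring
  by_cases c0 : b.eval s ≠ 0
  · have := h3.noroot (by decide) (by rwa [e4]) hs hi (by simp) (by simp)
    rw [e4] at this
    obtain ⟨v, hv⟩ := ValAt.of_zero (this.congr rfl (by simp [res]))
    exact ⟨_, (ValAt.poly b).mul hv⟩
  obtain ⟨b1, rfl⟩ := Polynomial.dvd_iff_isRoot.2 (not_not.1 c0)
  by_cases c1 : b1.eval s ≠ 0
  · obtain ⟨v, hv⟩ := (h3.simple (b1 := 3 * b1.comp (3 * Polynomial.X)) (fun τ => by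
      simp; ring) (by simpa [mul_div_cancel₀] using c1) hs hi (Or.inr rfl)).2.2
        (by simp [FlagP]) (by simp [FlagP])
    rw [e4] at hv
    exact ⟨_, ((ValAt.poly b1).mul hv).congr (by rw [map_mul, xs]; ring) rfl⟩
  obtain ⟨b2, rfl⟩ := Polynomial.dvd_iff_isRoot.2 (not_not.1 c1)
  obtain ⟨v, hv⟩ := h3.double s
  exact ⟨_, ((ValAt.poly b2).mul hv).congr (by rw [map_mul, map_mul, xs]; ring) rfl⟩

theorem val_curve (hb : IsBS f b) {h : R2} {a : ℕ} (hh : Prime h) (h1 : ∀ i, h ^ a ∣ f i)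
    (h2 : ¬∀ i, h ^ (a + 1) ∣ f i) (s : ℂ) :
    ∃ v, ValAt s (algebraMap ℂ[X] (RatFunc ℂ) b * (lin a 0)⁻¹) v := by
  by_cases c : (a * s + (0 : ℕ) + 1 : ℂ) ≠ 0
  · exact ⟨_, (ValAt.poly b).mul (val_inv c)⟩
  push Not at c h2
  obtain ⟨i, hi⟩ := h2
  obtain ⟨V, hV⟩ := h1 i
  obtain ⟨A, B, hs⟩ := sol_of_isBS (isHomogeneous_X ℂ i) (X_ne_zero i) hb s
  have := hs.root (h := h) (a := a) (V := V) (span_ind (RingHom.id _) h1) (by simpa using hV)
    (by simpa using c) hh (fun hd => hi (by rw [hV, pow_succ]; exact mul_dvd_mul_left _ hd))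
    hh.not_dvd_one
  obtain ⟨b1, rfl⟩ := Polynomial.dvd_iff_isRoot.2 (show b.IsRoot s by simpa using this)
  exact ⟨_, ((ValAt.poly b1).mul (val_lin a 0)).congr (by rw [map_mul, xs]; ring) rfl⟩

end Pool.Agent.MP_ee8c61_ag.H4
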