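import Pool.Agent.MP_ee8c61_ag.H4.Strict

/-! Normal crossing points. -/

namespace Pool.Agent.MP_ee8c61_ag.H4

open Filter MvPolynomial
open scoped Polynomial

lemma not_dvd_unit {h U : R2} (h0 : constantCoeff h = 0) (hU : constantCoeff U ≠ 0) : ¬h ∣ U := by
  rintro ⟨y, rfl⟩
  simp [h0] at hU

lemma Coord.symm {z w : R2} (h : Coord z w) : Coord w z :=
  ⟨h.2.1, h.1, fun e => h.2.2 (by
    simp only [map_sub, map_mul] at e ⊢; linear_combination -e)⟩

lemma Coord.left {z z' w : R2} (h : Coord (z * z') w) (h0 : constantCoeff z = 0) :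
    Coord z w ∧ constantCoeff z' ≠ 0 := by
  have := h.2.2
  simp only [Derivation.leibniz, smul_eq_mul, map_sub, map_mul, map_add, h0] at this
  refine ⟨⟨h0, h.2.1, fun e => this ?_⟩, fun e => this (by simp [e])⟩
  simp only [map_sub, map_mul] at e
  linear_combination constantCoeff z' * e

lemma Coord.not_dvd {z w : R2} (h : Coord z w) : ¬z ∣ w := by
  rintro ⟨y, rfl⟩
  have := (h.symm.left h.1).1.2.2
  simp [mul_comm] at this

lemma Coord.X01 : Coord (X 0) (X 1) := ⟨by simp, by simp, by simp⟩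

lemma Coord.lx {w : R2} (h : Coord (X 0) w) : ∃ w0, w0 ≠ 0 ∧ Lx w 0 1 w0 := by
  refine ⟨lc w 0 1, fun e => h.2.2 ?_, lx_iff.2 ⟨by simp, fun j hj => ?_, rfl⟩⟩
  · have := (Lx.unit (pderiv 1 w)).lc_eq
    rw [lc, ld_pderiv1, Polynomial.coeff_derivative] at this
    rw [lc] at e
    simp [← this, e]
  · obtain rfl : j = 0 := by omega
    rw [(Lx.unit w).lc_eq, h.2.1]

lemma Coord.sw {z w : R2} (h : Coord z w) : Coord (sw z) (sw w) := by
  have e : ∀ G, constantCoeff (H4.sw G) = constantCoeff G := fun G => by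
    rw [← (Lx.unit _).lc_eq, lc_sw, (Lx.unit _).lc_eq]
  refine ⟨by rw [e, h.1], by rw [e, h.2.1], fun h1 => h.symm.2.2 ?_⟩
  simp only [pderiv0_sw, pderiv1_sw, map_sub, map_mul, e] at h1 ⊢
  linear_combination h1

lemma exists_prime_factor {z : R2} (hz : z ≠ 0) (h0 : constantCoeff z = 0) :
    ∃ z1 z2, Prime z1 ∧ constantCoeff z1 = 0 ∧ z = z1 * z2 := by
  induction z using UniqueFactorizationMonoid.induction_on_prime with
  | h₁ => exact absurd rfl hz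
  | h₂ x hx => exact absurd h0 (hx.map constantCoeff).ne_zero
  | h₃ a p ha hp ih =>
    rw [map_mul, mul_eq_zero] at h0
    rcases h0 with h0 | h0
    · exact ⟨p, a, hp, h0, rfl⟩
    · obtain ⟨z1, z2, h1, h2, rfl⟩ := ih ha h0
      exact ⟨z1, p * z2, h1, h2, by ring⟩

lemma Coord.prime {z w : R2} (h : Coord z w) :
    ∃ z1 z2, Prime z1 ∧ Coord z1 w ∧ constantCoeff z2 ≠ 0 ∧ z = z1 * z2 := by
  obtain ⟨z1, z2, h1, h2, rfl⟩ := exists_prime_factor (z := z)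
    (by rintro rfl; simpa using h.2.2) h.1
  exact ⟨z1, z2, h1, (h.left h2).1, (h.left h2).2, rfl⟩

lemma Gen.left {r : ℕ} {f : Fin r → R2} {g v : R2} (h : Gen f (g * v)) (hv : constantCoeff v ≠ 0) :
    Gen f g := by
  obtain ⟨u, h1, h2, h3⟩ := h
  refine ⟨u * v, by simp [h1, hv], by rwa [mul_assoc, mul_comm v], fun i => ?_⟩
  rw [mul_right_comm]
  exact ((dvd_mul_right g v).trans (h3 i)).mul_right v

lemma Gen.exact {r : ℕ} {f : Fin r → R2} {z w : R2} {a b : ℕ} (h : Gen f (z ^ a * w ^ b))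
    (hz : Prime z) (hw : Prime w) (hc : Coord z w) :
    ∃ g : Fin r → R2, (∀ i, f i = z ^ a * w ^ b * g i) ∧ ∃ i, constantCoeff (g i) ≠ 0 := by
  obtain ⟨u, h1, h2, h3⟩ := h
  have : ∀ i, z ^ a * w ^ b ∣ f i := fun i => by
    obtain ⟨y, hy⟩ := hz.pow_dvd_of_dvd_mul_left a (not_dvd_unit hc.1 h1)
      ((dvd_mul_right _ _).trans (h3 i))
    have h4 := h3 i
    rw [hy, mul_left_comm, mul_dvd_mul_iff_left (pow_ne_zero _ hz.ne_zero)] at h4
    rw [hy]
    exact mul_dvd_mul_left _ (hw.pow_dvd_of_dvd_mul_left b (not_dvd_unit hc.2.1 h1) h4)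
  choose g hg using this
  refine ⟨g, hg, ?_⟩
  obtain ⟨c, hc⟩ := Ideal.mem_span_range_iff_exists_fun.1 h2
  simp only [hg, mul_left_comm (c _), ← Finset.mul_sum] at hc
  rw [mul_comm u, mul_right_inj' (mul_ne_zero (pow_ne_zero _ hz.ne_zero)
    (pow_ne_zero _ hw.ne_zero))] at hc
  by_contra h5
  push Not at h5
  exact h1 (by simp [← hc, h5])

/-- a normal crossing point with prime local coordinates -/
structure Node (n : ℕ) (I : Ideal R2) (F J z w : R2) (a b k l : ℕ) : Prop where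
  pz : Prime z
  pw : Prime w
  co : Coord z w
  hI : ∀ g ∈ I, z ^ a * w ^ b ∣ g
  hF : ∃ U, constantCoeff U ≠ 0 ∧ F = z ^ (n * a) * w ^ (n * b) * U
  hJ : ∃ V, constantCoeff V ≠ 0 ∧ J = z ^ k * w ^ l * V

/-- the Jacobian is a monomial times a unit -/
def JF (J : R2) (k l : ℕ) : Prop := ∃ U, constantCoeff U ≠ 0 ∧ J = X 0 ^ k * X 1 ^ l * U

variable {n : ℕ} {I : Ideal R2} {F J z w : R2} {a b k l : ℕ}

lemma Node.symm (h : Node n I F J z w a b k l) : Node n I F J w z b a l k :=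
  ⟨h.pw, h.pz, h.co.symm, by simpa only [mul_comm] using h.hI,
    by simpa only [mul_comm (z ^ _)] using h.hF, by simpa only [mul_comm (z ^ _)] using h.hJ⟩

lemma Node.repl {x : R2} (h : Node n I F J z w a b k l) (hx : Prime x) (h0 : constantCoeff x = 0)
    (hd : x ∣ z) : Node n I F J x w a b k l := by
  obtain ⟨u, rfl⟩ := hd
  obtain ⟨h1, h2⟩ := h.co.left h0
  obtain ⟨U, hU, hF⟩ := h.hF
  obtain ⟨V, hV, hJ⟩ := h.hJ
  refine ⟨hx, h.pw, h1, fun g hg => dvd_trans ⟨u ^ a, by ring⟩ (h.hI g hg),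
    ⟨u ^ (n * a) * U, by simp [h2, hU], by rw [hF]; ring⟩,
    ⟨u ^ k * V, by simp [h2, hV], by rw [hJ]; ring⟩⟩

lemma Node.dvd {x : R2} (h : Node n I F J z w a b k l) (hx : Prime x) (h0 : constantCoeff x = 0)
    (hd : x ∣ J) : x ∣ z ∨ x ∣ w := by
  obtain ⟨V, hV, rfl⟩ := h.hJ
  exact (hx.dvd_or_dvd ((hx.dvd_or_dvd hd).resolve_right (not_dvd_unit h0 hV))).imp
    hx.dvd_of_dvd_pow hx.dvd_of_dvd_pow

lemma Node.exp {x y U : R2} {k' l' : ℕ} (h : Node n I F J z w a b k l)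
    (hU : constantCoeff U ≠ 0) (hJ : J = x ^ k' * y ^ l' * U) (h1 : 0 < k' → z = x)
    (h2 : 0 < l' → w = y) : k = k' := by
  obtain ⟨V, hV, e⟩ := h.hJ
  have a1 : ¬z ∣ w ^ l * V := fun hd => (h.pz.dvd_or_dvd hd).elim
    (fun h3 => h.co.not_dvd (h.pz.dvd_of_dvd_pow h3)) (not_dvd_unit h.co.1 hV)
  have a2 : ¬z ∣ y ^ l' * U := fun hd => (h.pz.dvd_or_dvd hd).elim (fun h3 => by
    rcases Nat.eq_zero_or_pos l' with rfl | h4
    · exact h.pz.not_dvd_one (by simpa using h3)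
    · exact h.co.not_dvd (h2 h4 ▸ h.pz.dvd_of_dvd_pow h3)) (not_dvd_unit h.co.1 hU)
  have a3 : z ^ k * (w ^ l * V) = z ^ k' * (y ^ l' * U) := by
    rw [← mul_assoc, ← e, hJ, mul_assoc]
    rcases Nat.eq_zero_or_pos k' with rfl | h4
    · simp
    · rw [h1 h4]
  exact le_antisymm
    ((pow_dvd_pow_iff h.pz.ne_zero h.pz.not_isUnit).1
      (h.pz.pow_dvd_of_dvd_mul_right k a2 ⟨_, a3.symm⟩))
    ((pow_dvd_pow_iff h.pz.ne_zero h.pz.not_isUnit).1
      (h.pz.pow_dvd_of_dvd_mul_right k' a1 ⟨_, a3⟩))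

theorem Node.normal {k' l' : ℕ} (h : Node n I F J z w a b k l) (hJ : JF J k' l') :
    ∃ z' w' a' b', Node n I F J z' w' a' b' k' l' ∧ (0 < k' → z' = X 0) ∧ (0 < l' → w' = X 1) ∧
      lin a k * lin b l = lin a' k' * lin b' l' := by
  obtain ⟨U, hU, e⟩ := hJ
  have p0 : Prime (X 0 : R2) := X_prime
  have p1 : Prime (X 1 : R2) := X_prime
  have fin : ∀ {z w a b k l}, Node n I F J z w a b k l → (0 < k' → z = X 0) → (0 < l' → w = X 1) →
      ∃ z' w' a' b', Node n I F J z' w' a' b' k' l' ∧ (0 < k' → z' = X 0) ∧ (0 < l' → w' = X 1) ∧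
        lin a k * lin b l = lin a' k' * lin b' l' := fun h h1 h2 => by
    obtain rfl := h.exp hU e h1 h2
    obtain rfl := h.symm.exp hU (by rw [e, mul_comm (X 0 ^ _)]) h2 h1
    exact ⟨_, _, _, _, h, h1, h2, rfl⟩
  have d0 : 0 < k' → X 0 ∣ J := fun h1 =>
    e ▸ ((dvd_pow_self _ h1.ne').mul_right _).mul_right _
  have d1 : 0 < l' → X 1 ∣ J := fun h1 =>
    e ▸ ((dvd_pow_self _ h1.ne').mul_left _).mul_right _
  have s1 : ∀ {w a b k l}, Node n I F J (X 0) w a b k l →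
      ∃ z' w' a' b', Node n I F J z' w' a' b' k' l' ∧ (0 < k' → z' = X 0) ∧ (0 < l' → w' = X 1) ∧
        lin a k * lin b l = lin a' k' * lin b' l' := fun h => by
    rcases Nat.eq_zero_or_pos l' with h1 | h1
    · exact fin h (fun _ => rfl) (by omega)
    · exact fin (h.symm.repl p1 (by simp) ((h.dvd p1 (by simp) (d1 h1)).resolve_left
        Coord.X01.symm.not_dvd)).symm (fun _ => rfl) (fun _ => rfl)
  rcases Nat.eq_zero_or_pos k' with h1 | h1
  · rcases Nat.eq_zero_or_pos l' with h2 | h2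
    · exact fin h (by omega) (by omega)
    · rcases h.dvd p1 (by simp) (d1 h2) with h3 | h3
      · rw [mul_comm]
        exact fin (h.repl p1 (by simp) h3).symm (by omega) (fun _ => rfl)
      · exact fin (h.symm.repl p1 (by simp) h3).symm (by omega) (fun _ => rfl)
  · rcases h.dvd p0 (by simp) (d0 h1) with h3 | h3
    · exact s1 (h.repl p0 (by simp) h3)
    · rw [mul_comm]
      exact s1 (h.symm.repl p0 (by simp) h3)

lemma cc_sw (G : R2) : constantCoeff (sw G) = constantCoeff G := by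
  rw [← (Lx.unit _).lc_eq, lc_sw, (Lx.unit _).lc_eq]

lemma prime_sw {z : R2} (h : Prime z) : Prime (sw z) :=
  (MulEquiv.prime_iff (AlgEquiv.ofAlgHom sw sw (AlgHom.ext sw_sw) (AlgHom.ext sw_sw))).2 h

lemma Node.sw (h : Node n I F J z w a b k l) :
    Node n (I.map sw) (sw F) (sw J) (sw w) (sw z) b a l k := by
  obtain ⟨U, hU, hF⟩ := h.hF
  obtain ⟨V, hV, hJ⟩ := h.hJ
  refine ⟨prime_sw h.pw, prime_sw h.pz, h.co.symm.sw, fun g hg => ?_,
    ⟨H4.sw U, by rwa [cc_sw], by simp only [hF, map_mul, map_pow]; ring⟩,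
    ⟨H4.sw V, by rwa [cc_sw], by simp only [hJ, map_mul, map_pow]; ring⟩⟩
  have : I.map H4.sw ≤ Ideal.span {H4.sw w ^ b * H4.sw z ^ a} :=
    Ideal.map_le_iff_le_comap.2 fun g hg => Ideal.mem_comap.2 (Ideal.mem_span_singleton.2 (by
      simpa only [map_mul, map_pow, mul_comm] using map_dvd H4.sw (h.hI g hg)))
  exact Ideal.mem_span_singleton.1 (this hg)

lemma JF.sw (h : JF J k l) : JF (sw J) l k := by
  obtain ⟨U, hU, rfl⟩ := h
  exact ⟨H4.sw U, by rwa [cc_sw], by simp only [map_mul, map_pow, sw_X0, sw_X1]; ring⟩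

lemma JF.lx (h : JF J k l) : ∃ u, u ≠ 0 ∧ Lx J k l u := by
  obtain ⟨U, hU, rfl⟩ := h
  exact ⟨_, hU, (((Lx.X0.pow k).mul (Lx.X1.pow l)).mul (Lx.unit U)).congr rfl (by simp) (by simp)
    (by simp)⟩

lemma Node.lx (h : Node n I F J (X 0) w a b k l) : ∃ u, u ≠ 0 ∧ Lx F (n * a) (n * b) u := by
  obtain ⟨U, hU, rfl⟩ := h.hF
  obtain ⟨w0, h1, h2⟩ := h.co.lx
  exact ⟨w0 ^ (n * b) * constantCoeff U, mul_ne_zero (pow_ne_zero _ h1) hU,
    (((Lx.X0.pow _).mul (h2.pow _)).mul (Lx.unit U)).congr rfl (by simp) (by simp) (by simp)⟩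

lemma Node.root {t : ℂ} {p : ℂ[X]} {A B : ℕ → R2} (h : Node n I F J z w a b 0 l)
    (hs : Sol t p F I n J A B) (hc : (n * a : ℕ) * t + 1 = 0) : p.eval (n * t) = 0 := by
  obtain ⟨U, hU, hF⟩ := h.hF
  obtain ⟨V, hV, hJ⟩ := h.hJ
  have key : ∀ (m : ℕ) (V : R2), constantCoeff V ≠ 0 → ¬z ∣ w ^ m * V := fun m V hV hd =>
    (h.pz.dvd_or_dvd hd).elim (fun h3 => h.co.not_dvd (h.pz.dvd_of_dvd_pow h3))
      (not_dvd_unit h.co.1 hV)
  exact hs.root (fun g hg => (dvd_mul_right _ _).trans (h.hI g hg)) (hF.trans (mul_assoc _ _ _)) hc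
    h.pz (key _ _ hU) (by rw [hJ, pow_zero, one_mul]; exact key _ _ hV)

end Pool.Agent.MP_ee8c61_ag.H4
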