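import Pool.Agent.MP_ee8c61_ag.H4.Ld

/-! Exact twisted one-forms on the projective line. -/

namespace Pool.Agent.MP_ee8c61_ag.H4

open Polynomial

lemma X_mul_der (m : ℕ) (p : ℂ[X]) :
    X * derivative (X ^ m * p) = X ^ m * (C (m : ℂ) * p + X * derivative p) := by
  cases m with
  | zero => simp
  | succ m => simp; ring

lemma pow_cmp {a b : ℕ} {R L : ℂ[X]} (h : X ^ a * R = X ^ b * L) (hL : L.coeff 0 ≠ 0) :
    (R.coeff 0 ≠ 0 ∧ a = b) ∨ (R.coeff 0 = 0 ∧ a < b) := by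
  have h1 := congrArg (coeff · b) h
  simp only [coeff_X_pow_mul', le_refl, if_true, Nat.sub_self] at h1
  have h2 : a ≤ b := by by_contra h2; rw [if_neg h2] at h1; exact hL h1.symm
  rcases h2.eq_or_lt with rfl | h3
  · left
    rw [if_pos le_rfl, Nat.sub_self] at h1
    exact ⟨h1 ▸ hL, rfl⟩
  · right
    have h4 := congrArg (coeff · a) h
    simp only [coeff_X_pow_mul', le_refl, if_true, Nat.sub_self, if_neg h3.not_ge] at h4
    exact ⟨h4, h3⟩

lemma ode_loc {φ j β : ℂ[X]} {c t : ℂ} {e : ℕ} (hφ : φ ≠ 0) (hj : j ≠ 0) (hβ : β ≠ 0)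
    (h : C c * j * φ ^ (e + 1) = φ * derivative β + C (t - e) * derivative φ * β) :
    (c = 0 → (β.natTrailingDegree : ℂ) + (t - e) * φ.natTrailingDegree = 0) ∧ (c ≠ 0 →
      ((β.natTrailingDegree : ℂ) + (t - e) * φ.natTrailingDegree ≠ 0 ∧
        β.natTrailingDegree = φ.natTrailingDegree * e + j.natTrailingDegree + 1) ∨
      ((β.natTrailingDegree : ℂ) + (t - e) * φ.natTrailingDegree = 0 ∧
        β.natTrailingDegree ≤ φ.natTrailingDegree * e + j.natTrailingDegree)) := by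
  obtain ⟨φ1, e1, u1⟩ := tr_ex φ
  obtain ⟨j1, e2, u2⟩ := tr_ex j
  obtain ⟨β1, e3, u3⟩ := tr_ex β
  replace u1 : φ1.coeff 0 ≠ 0 := u1 ▸ trailingCoeff_nonzero_iff_nonzero.2 hφ
  replace u2 : j1.coeff 0 ≠ 0 := u2 ▸ trailingCoeff_nonzero_iff_nonzero.2 hj
  replace u3 : β1.coeff 0 ≠ 0 := u3 ▸ trailingCoeff_nonzero_iff_nonzero.2 hβ
  generalize φ.natTrailingDegree = μ at *
  generalize j.natTrailingDegree = κ at *
  generalize β.natTrailingDegree = o at *
  have key : X ^ (μ + o) * (φ1 * (C (o : ℂ) * β1 + X * derivative β1) +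
      C (t - e) * (C (μ : ℂ) * φ1 + X * derivative φ1) * β1) =
      X ^ (1 + κ + μ * (e + 1)) * (C c * j1 * φ1 ^ (e + 1)) := by
    have h1 := X_mul_der μ φ1
    have h2 := X_mul_der o β1
    rw [← e1] at h1
    rw [← e3] at h2
    have h3 := congrArg (X * ·) h
    simp only [mul_add] at h3
    rw [show X * (φ * derivative β) = φ * (X * derivative β) by ring, h2,
      show X * (C (t - e) * derivative φ * β) = C (t - e) * (X * derivative φ) * β by ring, h1,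
      e1, e2, e3] at h3
    rw [pow_add, pow_add, pow_add, pow_mul]
    linear_combination -h3
  have hR : (φ1 * (C (o : ℂ) * β1 + X * derivative β1) +
      C (t - e) * (C (μ : ℂ) * φ1 + X * derivative φ1) * β1).coeff 0 =
      ((o : ℂ) + (t - e) * μ) * (φ1.coeff 0 * β1.coeff 0) := by
    simp only [coeff_add, mul_coeff_zero, coeff_C_zero, coeff_X_zero]; ring
  constructor
  · rintro rfl
    simp only [map_zero, zero_mul, mul_zero, mul_eq_zero, pow_eq_zero_iff', X_ne_zero, false_and,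
      false_or] at key
    rw [key, coeff_zero] at hR
    exact (mul_eq_zero.1 hR.symm).resolve_right (mul_ne_zero u1 u3)
  · intro hc
    have hL : (C c * j1 * φ1 ^ (e + 1)).coeff 0 ≠ 0 := by
      simp only [coeff_zero_eq_eval_zero, eval_pow, eval_mul, eval_C] at u1 u2 ⊢
      exact mul_ne_zero (mul_ne_zero hc u2) (pow_ne_zero _ u1)
    rcases pow_cmp key hL with ⟨h1, h2⟩ | ⟨h1, h2⟩
    · left
      rw [hR] at h1
      exact ⟨left_ne_zero_of_mul h1, by nlinarith⟩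
    · right
      rw [hR] at h1
      exact ⟨(mul_eq_zero.1 h1).resolve_right (mul_ne_zero u1 u3), by nlinarith⟩

/-- orientation sign of the chart -/
def eps (q : Option ℂ) : ℂ := q.elim (-1) fun _ => 1

lemma eps_ne (q : Option ℂ) : eps q ≠ 0 := by cases q <;> simp [eps]

/-- the data of an exact twisted form on the exceptional line -/
structure Ode (t c : ℂ) (M K e : ℕ) (Φ Jh β : R2) : Prop where
  hΦ : Φ.IsHomogeneous M
  hΦ0 : Φ ≠ 0
  hJ : Jh.IsHomogeneous K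
  hJ0 : Jh ≠ 0
  hβ : β.IsHomogeneous (M * e + K + 2)
  crit : M * t + K + 2 = 0
  bd : ∀ q, M * ord q Jh ≤ (K + 2) * ord q Φ
  eq : ∀ q, C c * loc q Jh * loc q Φ ^ (e + 1) = loc q Φ * derivative (C (eps q) * loc q β) +
    C (t - e) * derivative (loc q Φ) * (C (eps q) * loc q β)

variable {t c : ℂ} {M K e : ℕ} {Φ Jh β : R2}

lemma ord3 (Φ Jh β : R2) (q1 : Option ℂ) : ∃ Q : Finset (Option ℂ), q1 ∈ Q ∧
    (∀ q, ord q Φ ≠ 0 → q ∈ Q) ∧ (∀ q, ord q Jh ≠ 0 → q ∈ Q) ∧ ∀ q, ord q β ≠ 0 → q ∈ Q := by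
  classical
  obtain ⟨Q1, h1⟩ := ord_fin Φ
  obtain ⟨Q2, h2⟩ := ord_fin Jh
  obtain ⟨Q3, h3⟩ := ord_fin β
  exact ⟨insert q1 (Q1 ∪ Q2 ∪ Q3), by simp, fun q h => by simp [h1 q h],
    fun q h => by simp [h2 q h], fun q h => by simp [h3 q h]⟩

lemma Ode.M_ne (h : Ode t c M K e Φ Jh β) : M ≠ 0 := by
  rintro rfl
  have := h.crit
  simp only [Nat.cast_zero, zero_mul, zero_add] at this
  exact absurd (by exact_mod_cast this : K + 2 = 0) (by omega)

lemma Ode.loc (h : Ode t c M K e Φ Jh β) (hβ : β ≠ 0) (q : Option ℂ) :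
    (c = 0 → (ord q β : ℂ) + (t - e) * ord q Φ = 0) ∧ (c ≠ 0 →
      ((ord q β : ℂ) + (t - e) * ord q Φ ≠ 0 ∧ ord q β = ord q Φ * e + ord q Jh + 1) ∨
      ((ord q β : ℂ) + (t - e) * ord q Φ = 0 ∧ ord q β ≤ ord q Φ * e + ord q Jh)) := by
  have h1 := loc_ne_zero h.hβ hβ q
  have h2 : C (eps q) ≠ 0 := C_ne_zero.2 (eps_ne q)
  have := ode_loc (loc_ne_zero h.hΦ h.hΦ0 q) (loc_ne_zero h.hJ h.hJ0 q) (mul_ne_zero h2 h1) (h.eq q)
  rwa [natTrailingDegree_mul h2 h1, natTrailingDegree_C, zero_add] at this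

lemma Ode.gam (h : Ode t c M K e Φ Jh β) {q : Option ℂ}
    (h1 : (ord q β : ℂ) + (t - e) * ord q Φ = 0) : ord q Φ * e + ord q Jh ≤ ord q β := by
  have h2 : M * ord q β = (K + 2) * ord q Φ + M * (ord q Φ * e) := by
    have : (M * ord q β : ℂ) = (K + 2) * ord q Φ + M * (ord q Φ * e) := by
      linear_combination M * h1 - ord q Φ * h.crit
    exact_mod_cast this
  have := h.bd q
  exact Nat.le_of_mul_le_mul_left (by nlinarith) (Nat.pos_of_ne_zero h.M_ne)

theorem Ode.a (h : Ode t c M K e Φ Jh β) (hc : c ≠ 0) :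
    (∀ q, ord q Φ * t + ord q Jh + 1 ≠ 0) ∧ ∃ q1 q2, q1 ≠ q2 ∧
      (ord q1 Φ * t + ord q1 Jh + 1) + (ord q2 Φ * t + ord q2 Jh + 1) = 0 ∧
      ∀ q, q ≠ q1 → q ≠ q2 → ord q Φ * t + ord q Jh + 1 = 1 := by
  classical
  have hβ : β ≠ 0 := by
    rintro rfl
    have := h.eq none
    simp only [map_zero, mul_zero, add_zero] at this
    exact mul_ne_zero (mul_ne_zero (C_ne_zero.2 hc) (loc_ne_zero h.hJ h.hJ0 _))
      (pow_ne_zero _ (loc_ne_zero h.hΦ h.hΦ0 _)) this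
  set γ : Option ℂ → ℂ := fun q => (ord q β : ℂ) + (t - e) * ord q Φ with hγ
  set α : Option ℂ → ℂ := fun q => ord q Φ * t + ord q Jh + 1 with hα
  have dich : ∀ q, (γ q ≠ 0 ∧ α q = γ q) ∨ (γ q = 0 ∧ α q = 1) := fun q => by
    rcases (h.loc hβ q).2 hc with ⟨h1, h2⟩ | ⟨h1, h2⟩
    · left; refine ⟨h1, ?_⟩
      simp only [hγ, hα, h2]; push_cast; ring
    · right; refine ⟨h1, ?_⟩
      have h3 : (ord q β : ℂ) = ord q Φ * e + ord q Jh := by
        exact_mod_cast le_antisymm h2 (h.gam h1)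
      simp only [hα]; linear_combination h1 - h3
  refine ⟨fun q => ?_, ?_⟩
  · rcases dich q with ⟨h1, h2⟩ | ⟨h1, h2⟩
    · exact fun h3 => h1 (h2.symm.trans h3)
    · exact fun h3 => one_ne_zero (h2.symm.trans h3)
  obtain ⟨Q, -, Q1, Q2, Q3⟩ := ord3 Φ Jh β none
  have s1 : ∑ q ∈ Q, (ord q Φ : ℂ) = M := by exact_mod_cast ord_sum h.hΦ h.hΦ0 Q Q1
  have s2 : ∑ q ∈ Q, (ord q Jh : ℂ) = K := by exact_mod_cast ord_sum h.hJ h.hJ0 Q Q2
  have s3 : ∑ q ∈ Q, (ord q β : ℂ) = M * e + K + 2 := by exact_mod_cast ord_sum h.hβ hβ Q Q3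
  have s4 : ∑ q ∈ Q.filter (γ · ≠ 0), α q = 0 := by
    rw [Finset.sum_congr (s₁ := Q.filter (γ · ≠ 0)) rfl (g := γ) fun q hq =>
      ((dich q).resolve_right fun h1 => (Finset.mem_filter.1 hq).2 h1.1).2,
      Finset.sum_filter_ne_zero]
    simp only [hγ, Finset.sum_add_distrib, ← Finset.mul_sum, s1, s3]
    linear_combination h.crit
  have s5 : ∑ q ∈ Q.filter (γ · ≠ 0), (α q - 1) = -2 := by
    rw [Finset.sum_filter_of_ne (p := (γ · ≠ 0)) (f := fun q => α q - 1) fun q _ h1 h2 => h1 (by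
      rw [((dich q).resolve_left fun h3 => h3.1 h2).2, sub_self])]
    simp only [hα, add_sub_cancel_right, Finset.sum_add_distrib, ← Finset.sum_mul, s1, s2]
    linear_combination h.crit
  rw [Finset.sum_sub_distrib, s4, Finset.sum_const, nsmul_eq_mul, mul_one, zero_sub,
    neg_inj] at s5
  obtain ⟨q1, q2, h12, hQ⟩ := Finset.card_eq_two.1 (by exact_mod_cast s5)
  refine ⟨q1, q2, h12, by rwa [hQ, Finset.sum_pair h12] at s4, fun q h1 h2 => ?_⟩
  refine ((dich q).resolve_left fun h3 => ?_).2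
  have h4 : q ∈ Q := by
    by_contra h5
    have a1 : ord q Φ = 0 := by by_contra h6; exact h5 (Q1 q h6)
    have a3 : ord q β = 0 := by by_contra h6; exact h5 (Q3 q h6)
    exact h3.1 (by simp [hγ, a1, a3])
  have : q ∈ Q.filter (γ · ≠ 0) := Finset.mem_filter.2 ⟨h4, h3.1⟩
  rw [hQ] at this
  simp [h1, h2] at this

/-- the linear form vanishing at `q` -/
noncomputable def lf (q : Option ℂ) : R2 :=
  q.elim (MvPolynomial.X 0) fun c => MvPolynomial.X 1 - MvPolynomial.C c * MvPolynomial.X 0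

lemma lf_hom (q : Option ℂ) : (lf q).IsHomogeneous 1 := by
  cases q with
  | none => exact MvPolynomial.isHomogeneous_X _ _
  | some c => exact (MvPolynomial.isHomogeneous_X _ _).sub (MvPolynomial.isHomogeneous_C_mul_X _ _)

lemma loc_lf_self (q : Option ℂ) : loc q (lf q) = X := by cases q <;> simp [lf]

lemma loc_lf {q q' : Option ℂ} (h : q ≠ q') : (loc q (lf q')).coeff 0 ≠ 0 ∧
    eps q * (loc q (lf q')).coeff 0 = -(eps q' * (loc q' (lf q)).coeff 0) := by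
  cases q <;> cases q' <;> simp_all [lf, eps, sub_eq_zero]

lemma lf_ne (q : Option ℂ) : lf q ≠ 0 := fun h => X_ne_zero (by rw [← loc_lf_self q, h, map_zero])

lemma ord_mul {p p' : R2} {D D' : ℕ} (h : p.IsHomogeneous D) (h' : p'.IsHomogeneous D')
    (h0 : p ≠ 0) (h0' : p' ≠ 0) (q : Option ℂ) : ord q (p * p') = ord q p + ord q p' := by
  rw [ord, map_mul, natTrailingDegree_mul (loc_ne_zero h h0 q) (loc_ne_zero h' h0' q)]; rfl

lemma ord_pow {p : R2} {D : ℕ} (h : p.IsHomogeneous D) (h0 : p ≠ 0) (q : Option ℂ) (m : ℕ) :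
    ord q (p ^ m) = ord q p * m := by
  induction m with
  | zero => simp [ord]
  | succ m ih => rw [pow_succ, ord_mul (h.pow m) h (pow_ne_zero _ h0) h0, ih]; ring

lemma tc_mul (p p' : R2) (q : Option ℂ) : tc q (p * p') = tc q p * tc q p' := by
  rw [tc, map_mul, trailingCoeff_mul]; rfl

lemma tc_pow (p : R2) (q : Option ℂ) (m : ℕ) : tc q (p ^ m) = tc q p ^ m := by
  induction m with
  | zero => simp [tc, trailingCoeff]
  | succ m ih => rw [pow_succ, tc_mul, ih, pow_succ]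

lemma tc_ne {p : R2} {D : ℕ} (h : p.IsHomogeneous D) (h0 : p ≠ 0) (q : Option ℂ) : tc q p ≠ 0 :=
  trailingCoeff_nonzero_iff_nonzero.2 (loc_ne_zero h h0 q)

lemma ord_lf [DecidableEq (Option ℂ)] (q q' : Option ℂ) :
    ord q (lf q') = if q = q' then 1 else 0 := by
  split_ifs with h
  · rw [h, ord, loc_lf_self, natTrailingDegree_X]
  · exact natTrailingDegree_eq_zero.2 (Or.inr (loc_lf h).1)

lemma prop_of_ord {p p' : R2} {D : ℕ} (h : p.IsHomogeneous D) (h' : p'.IsHomogeneous D)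
    (h0' : p' ≠ 0) (ho : ∀ q, ord q p = ord q p') :
    ∃ l : ℂ, p = MvPolynomial.C l * p' := by
  classical
  have e1 : (loc (some 0) p).roots = (loc (some 0) p').roots := by
    ext c
    have := ho (some c)
    rwa [ord, ord, loc_some, loc_some c, ← rootMultiplicity_eq_natTrailingDegree,
      ← rootMultiplicity_eq_natTrailingDegree, ← count_roots, ← count_roots] at this
  have e2 := (IsAlgClosed.splits (loc (some 0) p)).eq_prod_roots
  have e3 := (IsAlgClosed.splits (loc (some 0) p')).eq_prod_roots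
  have e4 := leadingCoeff_ne_zero.2 (loc_ne_zero h' h0' (some 0))
  refine ⟨(loc (some 0) p).leadingCoeff / (loc (some 0) p').leadingCoeff, ?_⟩
  by_contra hne
  refine loc_ne_zero (h.sub (h'.C_mul _)) (sub_ne_zero.2 hne) (some 0) ?_
  rw [map_sub, map_mul, MvPolynomial.algHom_C, algebraMap_eq, sub_eq_zero]
  generalize (loc (some 0) p).leadingCoeff = a at *
  generalize (loc (some 0) p').leadingCoeff = a' at *
  rw [e2, e3, e1, ← mul_assoc, ← map_mul, div_mul_cancel₀ _ e4]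

theorem Ode.b (h : Ode t 0 M K e Φ Jh β) (hβ : β ≠ 0) {q1 : Option ℂ}
    (h1 : ord q1 Φ * t + ord q1 Jh + 1 = 0) : ∃ q2, q2 ≠ q1 ∧ ord q2 Φ * t + ord q2 Jh + 1 = 0 ∧
      (∀ q, q ≠ q1 → q ≠ q2 → ord q Φ * t + ord q Jh + 1 = 1) ∧
      (∀ q, ord q Φ * e + ord q Jh ≤ ord q β) ∧
      ord q2 β = ord q2 Φ * e + ord q2 Jh + 1 ∧ ord q1 β = ord q1 Φ * e + ord q1 Jh + 1 ∧
      eps q1 * tc q1 β / (tc q1 Φ ^ e * tc q1 Jh) = -(eps q2 * tc q2 β / (tc q2 Φ ^ e * tc q2 Jh)) := by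
  classical
  have g := fun q => (h.loc hβ q).1 rfl
  have g1 := fun q => h.gam (g q)
  choose d hd using fun q => Nat.exists_eq_add_of_le (g1 q)
  have hα : ∀ q, ord q Φ * t + ord q Jh + 1 = 1 - d q := fun q => by
    have := g q
    rw [hd q] at this; push_cast at this
    linear_combination this
  have d1 : d q1 = 1 := by
    rw [hα, sub_eq_zero] at h1; exact_mod_cast h1.symm
  obtain ⟨Q, hq1, Q1, Q2, Q3⟩ := ord3 Φ Jh β q1
  have s3 := ord_sum h.hβ hβ Q Q3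
  simp only [hd, Finset.sum_add_distrib, ← Finset.sum_mul, ord_sum h.hΦ h.hΦ0 Q Q1,
    ord_sum h.hJ h.hJ0 Q Q2, add_right_inj] at s3
  rw [← Finset.add_sum_erase _ _ hq1, d1] at s3
  obtain ⟨q2, hq2, hd2⟩ : ∃ q2 ∈ Q.erase q1, d q2 ≠ 0 := by
    by_contra hc; push Not at hc
    rw [Finset.sum_eq_zero hc] at s3; omega
  rw [← Finset.add_sum_erase _ _ hq2] at s3
  have d2 : d q2 = 1 := by omega
  have d0 : ∀ q, q ≠ q1 → q ≠ q2 → d q = 0 := fun q a1 a2 => by
    by_cases hq : q ∈ Q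
    · exact Finset.sum_eq_zero_iff.1 (by omega : ∑ x ∈ (Q.erase q1).erase q2, d x = 0) q
        (by simp [a1, a2, hq])
    · have a3 : ord q β = 0 := by by_contra h6; exact hq (Q3 q h6)
      have := hd q; omega
  have h12 : q2 ≠ q1 := Finset.ne_of_mem_erase hq2
  refine ⟨q2, h12, by simp [hα, d2], fun q a1 a2 => by simp [hα, d0 q a1 a2], g1, by rw [hd, d2],
    by rw [hd, d1], ?_⟩
  have G1 := ((h.hΦ.pow e).mul h.hJ).mul ((lf_hom q1).mul (lf_hom q2))
  have n1 := mul_ne_zero (pow_ne_zero e h.hΦ0) h.hJ0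
  have n2 := mul_ne_zero (lf_ne q1) (lf_ne q2)
  obtain ⟨l, hl⟩ := prop_of_ord h.hβ G1 (mul_ne_zero n1 n2) fun q => by
    rw [ord_mul ((h.hΦ.pow e).mul h.hJ) ((lf_hom q1).mul (lf_hom q2)) n1 n2,
      ord_mul (h.hΦ.pow e) h.hJ (pow_ne_zero e h.hΦ0) h.hJ0, ord_pow h.hΦ h.hΦ0,
      ord_mul (lf_hom q1) (lf_hom q2) (lf_ne q1) (lf_ne q2), ord_lf, ord_lf, hd, add_right_inj]
    by_cases a1 : q = q1
    · simp [a1, d1, h12.symm]
    · by_cases a2 : q = q2
      · simp [a2, d2, h12]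
      · simp [a1, a2, d0 q a1 a2]
  have t0 : ∀ q, tc q (MvPolynomial.C l) = l := fun q => by
    simp [tc, trailingCoeff]
  have t1 : ∀ q, tc q (lf q) = 1 := fun q => by simp [tc, loc_lf_self, trailingCoeff]
  have t2 : ∀ q q', q ≠ q' → tc q (lf q') = (H4.loc q (lf q')).coeff 0 := fun q q' a => by
    have := ord_lf q q'
    rw [if_neg a, ord] at this
    rw [tc, trailingCoeff, this]
  have t4 := (loc_lf h12).2
  rw [hl]
  simp only [tc_mul, tc_pow, t0, t1, t2 _ _ h12, t2 _ _ h12.symm]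
  have t5 := tc_ne h.hΦ h.hΦ0 q1
  have t6 := tc_ne h.hΦ h.hΦ0 q2
  have t7 := tc_ne h.hJ h.hJ0 q1
  have t8 := tc_ne h.hJ h.hJ0 q2
  field_simp
  linear_combination l * t4

end Pool.Agent.MP_ee8c61_ag.H4
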