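import Pool.Agent.MP_ee8c61_ag.H4.Step

/-! A simple root of the Bernstein-Sato polynomial is at most a simple pole. -/

namespace Pool.Agent.MP_ee8c61_ag.H4

open Filter MvPolynomial
open scoped Polynomial

/-- the normalised value of `B` at a critical flag satisfies `P` -/
def FlagP (t c : ℂ) (F J : R2) (B : ℕ → R2) (k κ M μ : ℕ) (P : ℂ → Prop) : Prop :=
  0 < k → M * t + k + 1 = 0 → μ * t + κ + 1 = 0 → ∀ l,
    NV t (lc F M μ) (fun τ => lc (B τ) (M * τ + k) (μ * τ + (κ + 1))) l → P (l / (lc J k κ * c))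

variable {t c : ℂ} {F J : R2} {A B : ℕ → R2} {k l M μ M' μ' : ℕ} {P : ℂ → Prop}

lemma flagP_tt : FlagP t c (tt F) (X 1 * tt J) (fun τ => X 1 * tt (B τ)) k (k + l + 1) M (M + μ) P ↔
    FlagP t c F J B k l M μ P := by
  have e : ∀ τ, (M + μ) * τ + (k + l + 1 + 1) = M * τ + k + (μ * τ + (l + 1)) + 1 := fun τ => by ring
  simp only [FlagP, lc_tt, lc_X1_tt, e]
  refine forall₂_congr fun _ h => imp_congr_left ?_
  push_cast
  constructor <;> intro h1
  · linear_combination h1 - h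
  · linear_combination h1 + h

/-- the condition at the old divisor through the point `q` of the new one -/
def OldP (t c : ℂ) (F J : R2) (A B : ℕ → R2) (k l M μ M' μ' : ℕ) (P : ℂ → Prop) (q : Option ℂ) :
    Prop :=
  FlagP t c (sw (chart q F)) (sw (X 0 * chart q J)) (fun τ => sw (Aq q (A τ) (B τ))) (sel q k l)
    (k + l + 1) (sel q M M') (sel q (M + μ) (M' + μ')) P

lemma oldP_none : OldP t c F J A B k l M μ M' μ' P none ↔ FlagP t c F J B k l M μ P := by
  simpa [OldP, Aq, sw_chart_none] using flagP_tt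

lemma oldP_zero : OldP t c F J A B k l M μ M' μ' P (some 0) ↔
    FlagP t c (sw F) (sw J) (fun τ => sw (A τ)) l k M' μ' P := by
  simpa [OldP, Aq, sw_chart_zero, add_comm k l] using flagP_tt

lemma oldP_ne {a : ℂ} (h : a ≠ 0) : OldP t c F J A B k l M μ M' μ' P (some a) := by
  simp [OldP, FlagP, sel_ne h]

lemma Node.pos {n : ℕ} {I : Ideal R2} {z w : R2} {a d : ℕ} {b b1 : ℂ[X]}
    (h : Node n I F J z w a d k l) (hs : Sol t b F I n J A B) (h1 : 0 < k → z = X 0)
    (h2 : 0 < l → w = X 1) (hi : Inv F J k l M μ M' μ')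
    (hb : ∀ τ : ℂ, b.eval (n * τ) = (τ - t) * b1.eval τ) (hc : b1.eval t ≠ 0)
    (hy : FlagP t (b1.eval t) (H4.sw F) (H4.sw J) (fun τ => H4.sw (A τ)) l k M' μ' fun x => x.re ≤ 0) :
    FlagP t (b1.eval t) F J B k l M μ fun x => 0 < x.re := by
  intro hk c1 c2 lB hB
  obtain rfl := h1 hk
  obtain ⟨⟨u, a1, a2⟩, -⟩ := hi.fx hk
  obtain ⟨u', a3, a4⟩ := h.lx
  obtain ⟨rfl, rfl, -⟩ := a2.unique a4 a1 a3
  obtain ⟨j0, a5, a6⟩ := hi.jf.lx
  rw [a2.lc_eq] at hB
  obtain ⟨lA, hA⟩ := NV.ex a1 (hs.gA.pf.lc a2 (k + 1) l)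
  have ha : 0 < a := Nat.pos_of_ne_zero (by
    rintro rfl
    simp only [mul_zero, Nat.cast_zero, zero_mul, zero_add] at c1
    exact absurd (by exact_mod_cast c1 : k + 1 = 0) (by omega))
  have a7 := hs.node ha (fun g hg => by
    simpa using map_dvd io ((dvd_mul_right _ _).trans (h.hI g hg))) a2 a1 a6 c1 c2 hb hA hB
  have a8 : (lA / (j0 * b1.eval t)).re ≤ 0 := by
    rcases Nat.eq_zero_or_pos l with rfl | hl
    · obtain ⟨U, hU, hF⟩ := h.hF
      obtain ⟨V, hV, hJ⟩ := h.hJ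
      obtain ⟨w0, b2, b3⟩ := h.co.lx
      have b4 := (hs.gA.aw (fun g hg => (dvd_mul_left _ _).trans (h.hI g hg))
        (V := X 0 ^ (n * a) * U) (by rw [hF]; ring)
        (by rintro rfl; exact a1 (by simp [← a2.lc_eq, lc])) (by simpa using c2) h.pw (by
          rw [hJ, pow_zero, mul_one]
          exact fun hd => (h.pw.dvd_or_dvd hd).elim
            (fun h3 => h.co.symm.not_dvd (h.pw.dvd_of_dvd_pow h3))
            (not_dvd_unit h.co.2.1 hV))).nv (i := k + 1) hF b3 (by simpa using c2)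
      have b5 : Lx F (n * a) (n * d) (w0 ^ (n * d) * constantCoeff U) :=
        (((Lx.X0.pow _).mul (b3.pow _)).mul (Lx.unit U)).congr hF (by simp) (by simp) (by simp)
      rw [← b5.lc_eq, a2.lc_eq] at b4
      simp [NV.unique a1 hA b4]
    · obtain rfl := h2 hl
      obtain ⟨⟨v, b2, b3⟩, -⟩ := hi.fy hl
      obtain ⟨v', b4, b5⟩ := (sw_X1 ▸ h.sw).lx
      obtain ⟨rfl, rfl, -⟩ := b3.unique b5 b2 b4
      have := hy hl c2 c1 lA (by simpa only [lc_sw, a2.lc_eq] using hA)
      rwa [lc_sw, a6.lc_eq] at this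
  rw [a6.lc_eq]
  have a9 : (1 : ℂ) = (n * a : ℕ) * (lA / (j0 * b1.eval t)) + (n * d : ℕ) * (lB / (j0 * b1.eval t)) := by
    field_simp
    linear_combination a7
  have a10 := congrArg Complex.re a9
  simp only [Complex.one_re, Complex.add_re, Complex.mul_re, Complex.natCast_re, Complex.natCast_im,
    zero_mul, sub_zero] at a10
  by_contra a11
  push Not at a11
  nlinarith [mul_nonpos_of_nonneg_of_nonpos (Nat.cast_nonneg (α := ℝ) (n * a)) a8,
    mul_nonpos_of_nonneg_of_nonpos (Nat.cast_nonneg (α := ℝ) (n * d)) a11]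

theorem GZ.simple {n : ℕ} {I : Ideal R2} {Z : RatFunc ℂ} (h : GZ n I F J Z) {b b1 : ℂ[X]}
    (hb : ∀ τ : ℂ, b.eval (n * τ) = (τ - t) * b1.eval τ) (hc : b1.eval t ≠ 0)
    (hs : Sol t b F I n J A B) (hi : Inv F J k l M μ M' μ') (h0 : 0 < k ∨ J = 1) :
    (FlagP t (b1.eval t) (sw F) (sw J) (fun τ => sw (A τ)) l k M' μ' (fun x => x.re ≤ 0) →
      FlagP t (b1.eval t) F J B k l M μ fun x => 0 < x.re) ∧
    (FlagP t (b1.eval t) F J B k l M μ (fun x => x.re ≤ 0) →
      FlagP t (b1.eval t) (sw F) (sw J) (fun τ => sw (A τ)) l k M' μ' fun x => 0 < x.re) ∧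
    (FlagP t (b1.eval t) F J B k l M μ (fun x => x.re ≤ 0) →
      FlagP t (b1.eval t) (sw F) (sw J) (fun τ => sw (A τ)) l k M' μ' (fun x => x.re ≤ 0) →
      ∃ v, ValAt (n * t) (xs (n * t) * Z) v) := by
  induction h generalizing A B k l M μ M' μ' with
  | snc I F J z w a d k0 l0 h =>
    obtain ⟨z, w, a, d, h, h1, h2, e⟩ := h.normal hi.jf
    rw [e]
    refine ⟨h.pos hs h1 h2 hi hb hc, fun hx => h.sw.pos hs.sw (fun h => by rw [h2 h, sw_X1])
      (fun h => by rw [h1 h, sw_X0]) hi.sw hb hc (by simpa using hx), fun hx hy => ?_⟩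
    by_cases c1 : (a * (n * t) + k + 1 : ℂ) = 0
    swap
    · exact ⟨_, ((val_lin d l).mul (val_inv c1)).congr (by rw [one_div, mul_inv]; ring) rfl⟩
    by_cases c2 : (d * (n * t) + l + 1 : ℂ) = 0
    swap
    · exact ⟨_, ((val_lin a k).mul (val_inv c2)).congr (by rw [one_div, mul_inv]; ring) rfl⟩
    exfalso
    replace c1 : ((n * a : ℕ) * t + k + 1 : ℂ) = 0 := by push_cast; linear_combination c1
    replace c2 : ((n * d : ℕ) * t + l + 1 : ℂ) = 0 := by push_cast; linear_combination c2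
    rcases Nat.eq_zero_or_pos k with rfl | hk
    · obtain rfl := h0.resolve_left (lt_irrefl 0)
      obtain rfl := (hi.jf.unique ⟨1, by simp, by simp⟩ : 0 = 0 ∧ l = 0).2
      have t0 : t ≠ 0 := by rintro rfl; simp at c1
      have n0 : n ≠ 0 := by rintro rfl; simp at c1
      obtain rfl : a = d := by
        have : ((n * a : ℕ) : ℂ) = (n * d : ℕ) := mul_right_cancel₀ t0 (by linear_combination c1 - c2)
        exact Nat.eq_of_mul_eq_mul_left (Nat.pos_of_ne_zero n0) (by exact_mod_cast this)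
      obtain ⟨U, hU, rfl⟩ := h.hF
      exact hc (hs.double h.hI (by simpa using c1) h.pz h.pw.ne_zero h.co.not_dvd h.co.1 h.co.2.1
        hU hb)
    · have hC := h.pos hs h1 h2 hi hb hc hy
      obtain rfl := h1 hk
      obtain ⟨⟨u, a1, a2⟩, -⟩ := hi.fx hk
      obtain ⟨u', a3, a4⟩ := h.lx
      obtain ⟨rfl, rfl, -⟩ := a2.unique a4 a1 a3
      obtain ⟨lB, hB⟩ := NV.ex a1 (hs.gB.pf.lc a2 k (l + 1))
      rw [← a2.lc_eq] at hB
      exact (hC hk c1 c2 lB hB).not_ge (hx hk c1 c2 lB hB)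
  | blow I F J S N K Z hN hI hF hF0 hJ hz hS ih =>
    classical
    obtain ⟨rfl, h1⟩ := hi.out hJ
    have ih' := fun q hq => ih q hq (hs.chart q) (hi.chart hF hF0 q) (Or.inl (Nat.succ_pos _))
    set Φ := homogeneousComponent (n * N) F with hΦ
    have key : ∀ q1 ∈ S, (∀ q2, q2 ≠ q1 → OldP t (b1.eval t) F J A B k l M μ M' μ'
        (fun x => x.re ≤ 0) q2) → FlagP t (b1.eval t) (chart q1 F) (X 0 * chart q1 J)
          (fun τ => Bq q1 (A τ) (B τ)) (k + l + 1) (sel q1 k l) (n * N) (ord q1 Φ)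
            fun x => x.re ≤ 0 := by
      intro q1 hq1 hold _ c1 c2 v hv
      obtain ⟨e, β, ho, hβ⟩ := hs.exc hN hI hF hF0 hi.jf.kap.1 hi.jf.kap.2.1
        (by push_cast at c1 ⊢; linear_combination c1) (hi.bd hF hF0)
      rw [hb, sub_self, zero_mul] at ho
      have val : ∀ q, (β = 0 ∨ ord q β = ord q Φ * e + sel q k l + 1) →
          NV t (lc (chart q F) (n * N) (ord q Φ)) (fun τ => lc (Bq q (A τ) (B τ))
            (n * N * τ + (k + l + 1)) (ord q Φ * τ + (sel q k l + 1)))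
              (eps q * tc q β / tc q Φ ^ e) := fun q hq => by
        obtain ⟨p, e1, e2⟩ := tr_ex (loc q Φ)
        have a1 := hβ q
        rw [← hΦ, e1] at a1
        have a2 := a1.pcoeff (i := sel q k l + 1) (e2 ▸ tc_ne ho.hΦ ho.hΦ0 q) fun j hj => by
          rcases hq with rfl | hq
          · simp
          · rw [Polynomial.coeff_C_mul, Polynomial.coeff_eq_zero_of_lt_natTrailingDegree, mul_zero]
            exact hj.trans_eq hq.symm
        rw [(lx_chart q hF).lc_eq]
        rw [e2, Polynomial.coeff_C_mul] at a2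
        have a3 : tc q β = (loc q β).coeff (ord q Φ * e + (sel q k l + 1)) := by
          rcases hq with rfl | hq
          · simp [tc]
          · rw [tc, Polynomial.trailingCoeff, ← ord, hq]; rfl
        rw [a3]
        exact a2
      have u0 : ∀ q, lc (chart q F) (n * N) (ord q Φ) ≠ 0 := fun q => by
        rw [(lx_chart q hF).lc_eq]; exact tc_ne ho.hΦ ho.hΦ0 q
      have j0 : ∀ q, lc (X 0 * chart q J) (k + l + 1) (sel q k l) =
          tc q (homogeneousComponent (k + l) J) := fun q => by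
        rw [lc, ld_X0_mul, ← lc, ← hi.jf.kap.2.2, (lx_chart q hi.jf.kap.1).lc_eq]
      by_cases hβ0 : β = 0
      · rw [NV.unique (u0 q1) hv (val q1 (Or.inl hβ0)), hβ0]
        simp [tc]
      obtain ⟨q2, a1, a2, a3, -, a4, a5, a6⟩ := ho.b hβ0 (q1 := q1) (by rwa [hi.jf.kap.2.2])
      simp only [hi.jf.kap.2.2, ← hΦ] at a2 a3 a4 a5 a6
      have t0 : t ≠ 0 := by
        rintro rfl
        exact ne_of_crit c1 0 (by simp)
      have hq2 : q2 ∈ S := by
        by_contra hq2
        rcases hz with hz | ⟨q, hq, hq'⟩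
        · simp [hz q2 hq2, h1 q2 hq2] at a2
        · have : ∀ i, q i = q2 := fun i => by
            by_contra h
            have := a3 (q i) (fun h => (hq' i).1 (h ▸ hq1)) h
            rw [h1 _ (hq' i).1] at this
            exact (hq' i).2 (by simpa [t0] using this)
          exact hq.ne (show (0 : Fin 3) ≠ 1 by decide) ((this 0).trans (this 1).symm)
      have a7 := (ih' q2 hq2).1 (hold q2 a1) (Nat.succ_pos _) c1 a2 _ (val q2 (Or.inr a4))
      rw [NV.unique (u0 q1) hv (val q1 (Or.inr a5))]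
      simp only [j0, div_div, ← mul_assoc] at a7 ⊢
      rw [← div_div, a6, neg_div, Complex.neg_re, div_div]
      linarith
    have hold : ∀ q2, (q2 = none → FlagP t (b1.eval t) F J B k l M μ fun x => x.re ≤ 0) →
        (q2 = some 0 → FlagP t (b1.eval t) (sw F) (sw J) (fun τ => sw (A τ)) l k M' μ'
          fun x => x.re ≤ 0) → OldP t (b1.eval t) F J A B k l M μ M' μ' (fun x => x.re ≤ 0) q2 := by
      intro q2 a1 a2
      rcases opt_cases q2 with rfl | rfl | ⟨c, hc, rfl⟩
      · exact oldP_none.2 (a1 rfl)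
      · exact oldP_zero.2 (a2 rfl)
      · exact oldP_ne hc
    refine ⟨fun hy hk => ?_, fun hx hl => ?_, fun hx hy => ?_⟩
    · have hq : none ∈ S := by
        by_contra hq
        exact hk.ne' (h1 _ hq)
      exact oldP_none.1 ((ih' _ hq).2.1 (key _ hq fun q2 h2 => hold q2 (fun h => absurd h h2)
        fun _ => hy)) hk
    · have hq : some 0 ∈ S := by
        by_contra hq
        exact hl.ne' (by simpa using h1 _ hq)
      exact oldP_zero.1 ((ih' _ hq).2.1 (key _ hq fun q2 h2 => hold q2 (fun _ => hx)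
        fun h => absurd h h2)) hl
    · have := fun q hq => (ih' q hq).2.2 (key q hq fun q2 _ => hold q2 (fun _ => hx) fun _ => hy)
        (hold q (fun _ => hx) fun _ => hy)
      choose! v hv using this
      refine ⟨_, (((ValAt.int (2 - S.card)).mul (val_lin N (k + l + 1))).add
        (ValAt.sum S hv)).congr ?_ rfl⟩
      rw [← Finset.mul_sum, div_eq_mul_inv]
      push_cast
      ring

end Pool.Agent.MP_ee8c61_ag.H4
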