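import Pool.Agent.MP_ee8c61_ag.H4.Defs
import Pool.Agent.MP_ee8c61_ag.H4.Fam

/-! The functional equation as an identity of twisted two-forms, and its transport to charts. -/

namespace Pool.Agent.MP_ee8c61_ag.H4

open Filter MvPolynomial

section H0

variable {S : Type*} [CommRing S] [Algebra ℂ S] {t : ℂ} {F : S} {I : Ideal S} {n : ℕ}

/-- families `F ^ (τ - e) g τ` with `g τ ∈ I ^ (n e + 1)` -/
def H0 (t : ℂ) (F : S) (I : Ideal S) (n : ℕ) (H : ℕ → S) : Prop :=
  ∃ e g v, PolV t g v ∧ ∀ᶠ τ in atTop, g τ ∈ I ^ (n * e + 1) ∧ H τ = F ^ (τ - e) * g τ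

lemma H0.pf {H : ℕ → S} (h : H0 t F I n H) : PF t F H := by
  obtain ⟨e, g, v, hg, h⟩ := h
  exact ⟨e, v, g, hg, h.mono fun τ h => h.2⟩

lemma H0.zero : H0 t F I n fun _ => 0 := ⟨0, fun _ => 0, 0, PolV.const 0, by simp⟩

lemma H0.congr {H H' : ℕ → S} (h : H0 t F I n H) (h' : ∀ᶠ τ in atTop, H' τ = H τ) :
    H0 t F I n H' := by
  obtain ⟨e, g, v, hg, h⟩ := h
  exact ⟨e, g, v, hg, by filter_upwards [h, h'] with τ h1 h2 using ⟨h1.1, h2.trans h1.2⟩⟩

lemma H0.pmul {H g : ℕ → S} {w : S} (hg : PolV t g w) (h : H0 t F I n H) :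
    H0 t F I n fun τ => g τ * H τ := by
  obtain ⟨e, g', v, hg', h⟩ := h
  refine ⟨e, _, _, hg.mul hg', ?_⟩
  filter_upwards [h] with τ h1
  exact ⟨Ideal.mul_mem_left _ _ h1.1, by rw [h1.2]; ring⟩

lemma H0.add (hF : F ∈ I ^ n) {H H' : ℕ → S} (h : H0 t F I n H) (h' : H0 t F I n H') :
    H0 t F I n fun τ => H τ + H' τ := by
  obtain ⟨e, g, v, hg, h⟩ := h
  obtain ⟨e', g', v', hg', h'⟩ := h'
  refine ⟨e + e', _, _, (hg.cmul (F ^ e')).add (hg'.cmul (F ^ e)), ?_⟩
  filter_upwards [h, h', eventually_ge_atTop (e + e')] with τ h1 h2 h3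
  have key : ∀ a b : ℕ, ∀ x ∈ I ^ (n * a + 1), F ^ b * x ∈ I ^ (n * (a + b) + 1) := by
    intro a b x hx
    have := Ideal.mul_mem_mul (Ideal.pow_mem_pow hF b) hx
    rwa [← pow_mul, ← pow_add, show n * b + (n * a + 1) = n * (a + b) + 1 by ring] at this
  refine ⟨Ideal.add_mem _ (key _ _ _ h1.1) (add_comm e' e ▸ key _ _ _ h2.1), ?_⟩
  obtain ⟨m, rfl⟩ := Nat.exists_eq_add_of_le h3
  rw [h1.2, h2.2, show e + e' + m - e = m + e' by omega, show e + e' + m - e' = m + e by omega,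
    show e + e' + m - (e + e') = m by omega]
  ring

lemma H0.map {S' : Type*} [CommRing S'] [Algebra ℂ S'] (σ : S →ₐ[ℂ] S') {H : ℕ → S}
    (h : H0 t F I n H) : H0 t (σ F) (I.map σ) n fun τ => σ (H τ) := by
  obtain ⟨e, g, v, hg, h⟩ := h
  refine ⟨e, _, _, hg.map σ.toLinearMap, ?_⟩
  filter_upwards [h] with τ h1
  refine ⟨?_, by simp [h1.2]⟩
  rw [← Ideal.map_pow]
  exact Ideal.mem_map_of_mem _ h1.1

end H0

/-- the smallest class containing `H0` and closed under the operations that occur -/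
inductive Gn (t : ℂ) (F : R2) (I : Ideal R2) (n : ℕ) (J : R2) : (ℕ → R2) → Prop
  | base (H : ℕ → R2) (h : H0 t F I n H) : Gn t F I n J H
  | add (G G' : ℕ → R2) (h : Gn t F I n J G) (h' : Gn t F I n J G') :
      Gn t F I n J fun τ => G τ + G' τ
  | pmul (g : ℕ → R2) (w : R2) (G : ℕ → R2) (hg : PolV t g w) (h : Gn t F I n J G) :
      Gn t F I n J fun τ => g τ * G τ
  | der (i : Fin 2) (G : ℕ → R2) (h : Gn t F I n J G) : Gn t F I n J fun τ => pderiv i (G τ)
  | div (G : ℕ → R2) (hG : PF t F G) (h : Gn t F I n J fun τ => J * G τ) : Gn t F I n J G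
  | congr (G G' : ℕ → R2) (h : Gn t F I n J G) (h' : ∀ᶠ τ in atTop, G' τ = G τ) : Gn t F I n J G'

section Gn

variable {t : ℂ} {F : R2} {I : Ideal R2} {n : ℕ} {J : R2}

lemma Gn.pf {G : ℕ → R2} (h : Gn t F I n J G) : PF t F G := by
  induction h with
  | base H h => exact h.pf
  | add G G' _ _ ih ih' => exact ih.add ih'
  | pmul g w G hg _ ih => exact ih.pmul hg
  | der i G _ ih => exact ih.deriv (pderiv i)
  | div G hG _ _ => exact hG
  | congr G G' _ h' ih => exact ih.congr h'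

lemma Gn.cmul (a : R2) {G : ℕ → R2} (h : Gn t F I n J G) : Gn t F I n J fun τ => a * G τ :=
  Gn.pmul _ _ _ (PolV.const a) h

lemma Gn.zero : Gn t F I n J fun _ => 0 := Gn.base _ H0.zero

lemma Gn.neg {G : ℕ → R2} (h : Gn t F I n J G) : Gn t F I n J fun τ => -G τ := by
  simpa using h.cmul (-1)

lemma Gn.sub {G G' : ℕ → R2} (h : Gn t F I n J G) (h' : Gn t F I n J G') :
    Gn t F I n J fun τ => G τ - G' τ := by
  simpa [sub_eq_add_neg] using Gn.add _ _ h h'.neg

lemma Gn.sum {ι : Type*} (s : Finset ι) {z : ι → ℕ → R2} (h : ∀ i ∈ s, Gn t F I n J (z i)) :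
    Gn t F I n J fun τ => ∑ i ∈ s, z i τ := by
  classical
  induction s using Finset.induction_on with
  | empty => simpa using Gn.zero
  | insert a s ha ih =>
    simp only [Finset.sum_insert ha]
    exact Gn.add _ _ (h a (by simp)) (ih fun i hi => h i (by simp [hi]))

lemma Gn.map (σ : R2 →ₐ[ℂ] R2) (D : R2)
    (hD : ∀ i, ∃ α β : R2, ∀ G, D * σ (pderiv i G) = α * pderiv 0 (σ G) + β * pderiv 1 (σ G))
    {G : ℕ → R2} (h : Gn t F I n J G) :
    Gn t (σ F) (I.map σ) n (D * σ J) fun τ => σ (G τ) := by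
  induction h with
  | base H h => exact Gn.base _ (h.map σ)
  | add G G' _ _ ih ih' => simpa using Gn.add _ _ ih ih'
  | pmul g w G hg _ ih => simpa using Gn.pmul _ _ _ (hg.map σ.toLinearMap) ih
  | der i G h ih =>
    obtain ⟨α, β, hi⟩ := hD i
    refine Gn.div _ ((h.pf.deriv (pderiv i)).map σ) (Gn.congr _ _
      ((Gn.add _ _ ((Gn.der 0 _ ih).cmul α) ((Gn.der 1 _ ih).cmul β)).cmul (σ J))
      (Eventually.of_forall fun τ => ?_))
    simp only
    rw [← hi]; ring
  | div G hG _ ih =>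
    refine Gn.div _ (hG.map σ) (Gn.congr _ _ (ih.cmul D) (Eventually.of_forall fun τ => ?_))
    simp only [map_mul]; ring
  | congr G G' _ h' ih => exact Gn.congr _ _ ih (h'.mono fun τ h => by simp only [h])

lemma Gn.decomp (hF : F ∈ I ^ n) {G : ℕ → R2} (h : Gn t F I n 1 G) (p : ℕ → R2) (w : R2)
    (hp : PolV t p w) : ∃ H A B, H0 t F I n H ∧ Gn t F I n 1 A ∧ Gn t F I n 1 B ∧
      ∀ᶠ τ in atTop, p τ * G τ = H τ + pderiv 0 (A τ) + pderiv 1 (B τ) := by
  induction h generalizing p w with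
  | base H h => exact ⟨_, _, _, h.pmul hp, Gn.zero, Gn.zero, by simp⟩
  | add G G' _ _ ih ih' =>
    obtain ⟨H, A, B, h1, h2, h3, h4⟩ := ih p w hp
    obtain ⟨H', A', B', h1', h2', h3', h4'⟩ := ih' p w hp
    refine ⟨_, _, _, h1.add hF h1', Gn.add _ _ h2 h2', Gn.add _ _ h3 h3', ?_⟩
    filter_upwards [h4, h4'] with τ e1 e2
    rw [mul_add, e1, e2, map_add, map_add]; ring
  | pmul g w' G hg _ ih =>
    obtain ⟨H, A, B, h1, h2, h3, h4⟩ := ih _ _ (hp.mul hg)
    exact ⟨H, A, B, h1, h2, h3, h4.mono fun τ e => by rw [← e]; ring⟩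
  | der i G h ih =>
    obtain ⟨H, A, B, h1, h2, h3, h4⟩ := ih _ _ (hp.map (pderiv i).toLinearMap).neg
    have h5 := Gn.pmul _ _ _ hp h
    fin_cases i
    · refine ⟨H, _, B, h1, Gn.add _ _ h2 h5, h3, h4.mono fun τ e => ?_⟩
      simp only [map_add, Derivation.leibniz, smul_eq_mul, Fin.zero_eta,
        Derivation.coeFn_coe] at e ⊢
      linear_combination e
    · refine ⟨H, A, _, h1, h2, Gn.add _ _ h3 h5, h4.mono fun τ e => ?_⟩
      simp only [map_add, Derivation.leibniz, smul_eq_mul, Fin.mk_one,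
        Derivation.coeFn_coe] at e ⊢
      linear_combination e
  | div G hG _ ih => simpa using ih p w hp
  | congr G G' _ h' ih =>
    obtain ⟨H, A, B, h1, h2, h3, h4⟩ := ih p w hp
    exact ⟨H, A, B, h1, h2, h3, by filter_upwards [h4, h'] with τ e1 e2 using by rw [e2, e1]⟩

end Gn

/-- `b(nτ) F^τ J dx dy = H J dx dy + d(A dy - B dx)` -/
structure Sol (t : ℂ) (b : Polynomial ℂ) (F : R2) (I : Ideal R2) (n : ℕ) (J : R2)
    (A B : ℕ → R2) : Prop where
  gA : Gn t F I n J A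
  gB : Gn t F I n J B
  eq : ∃ H, H0 t F I n H ∧ ∀ᶠ τ : ℕ in atTop,
    C (b.eval ((n : ℂ) * τ)) * F ^ τ * J = H τ * J + pderiv 0 (A τ) + pderiv 1 (B τ)

section Sol

variable {t : ℂ} {b : Polynomial ℂ} {F : R2} {I : Ideal R2} {n : ℕ} {J : R2} {A B : ℕ → R2}

lemma Sol.of_gn (hF : F ∈ I ^ n)
    (h : Gn t F I n 1 fun τ => C (b.eval ((n : ℂ) * τ)) * F ^ τ) : ∃ A B, Sol t b F I n 1 A B := by
  obtain ⟨H, A, B, h1, h2, h3, h4⟩ := h.decomp hF _ _ (PolV.const 1)
  exact ⟨A, B, h2, h3, H, h1, by simpa using h4⟩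

lemma Sol.map (h : Sol t b F I n J A B) (σ : R2 →ₐ[ℂ] R2) (D a1 a2 b1 b2 : R2)
    (hD : ∀ i, ∃ α β : R2, ∀ G, D * σ (pderiv i G) = α * pderiv 0 (σ G) + β * pderiv 1 (σ G))
    (hd : ∀ A B, pderiv 0 (a1 * σ A + a2 * σ B) + pderiv 1 (b1 * σ A + b2 * σ B) =
      D * (σ (pderiv 0 A) + σ (pderiv 1 B))) :
    Sol t b (σ F) (I.map σ) n (D * σ J) (fun τ => a1 * σ (A τ) + a2 * σ (B τ))
      (fun τ => b1 * σ (A τ) + b2 * σ (B τ)) := by
  have hA := h.gA.map σ D hD
  have hB := h.gB.map σ D hD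
  obtain ⟨H, h1, h2⟩ := h.eq
  refine ⟨Gn.add _ _ (hA.cmul _) (hB.cmul _), Gn.add _ _ (hA.cmul _) (hB.cmul _), _, h1.map σ, ?_⟩
  filter_upwards [h2] with τ e
  have := congrArg σ e
  simp only [map_mul, map_add, map_pow, algHom_C, algebraMap_eq] at this
  rw [add_assoc, hd]
  linear_combination D * this

lemma Sol.congr (h : Sol t b F I n J A B) {F' J' : R2} {I' : Ideal R2} {A' B' : ℕ → R2}
    (hF : F' = F) (hI : I' = I) (hJ : J' = J) (hA : ∀ τ, A' τ = A τ) (hB : ∀ τ, B' τ = B τ) :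
    Sol t b F' I' n J' A' B' := by
  obtain rfl : A' = A := funext hA
  obtain rfl : B' = B := funext hB
  rwa [hF, hI, hJ]

lemma chain (σ : R2 →ₐ[ℂ] R2) (i : Fin 2) (G : R2) : pderiv i (σ G) =
    σ (pderiv 0 G) * pderiv i (σ (X 0)) + σ (pderiv 1 G) * pderiv i (σ (X 1)) := by
  induction G using MvPolynomial.induction_on with
  | C a => simp
  | add p q hp hq => simp only [map_add, hp, hq]; ring
  | mul_X p j hp =>
    simp only [map_mul, Derivation.leibniz, smul_eq_mul, map_add, hp]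
    fin_cases j <;> simp <;> ring

/-- exchange of the two coordinates -/
noncomputable def sw : R2 →ₐ[ℂ] R2 := aeval ![X 1, X 0]

@[simp] lemma sw_X0 : sw (X 0) = X 1 := by simp [sw]
@[simp] lemma sw_X1 : sw (X 1) = X 0 := by simp [sw]

@[simp] lemma sw_sw (G : R2) : sw (sw G) = G := by
  have : sw.comp sw = AlgHom.id ℂ R2 := algHom_ext fun i => by fin_cases i <;> simp
  exact AlgHom.congr_fun this G

lemma pderiv0_sw (G : R2) : pderiv 0 (sw G) = sw (pderiv 1 G) := by simp [chain sw 0 G]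
lemma pderiv1_sw (G : R2) : pderiv 1 (sw G) = sw (pderiv 0 G) := by simp [chain sw 1 G]

lemma Sol.sw (h : Sol t b F I n J A B) :
    Sol t b (sw F) (I.map sw) n (sw J) (fun τ => sw (B τ)) (fun τ => sw (A τ)) := by
  refine (h.map H4.sw 1 0 1 1 0 (fun i => ?_) (fun A B => ?_)).congr rfl rfl (by simp) (by simp)
    (by simp)
  · fin_cases i
    · exact ⟨0, 1, fun G => by simp [pderiv1_sw]⟩
    · exact ⟨1, 0, fun G => by simp [pderiv0_sw]⟩
  · simp [pderiv0_sw, pderiv1_sw, add_comm]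

@[simp] lemma chart_some_X0 (c : ℂ) : chart (some c) (X 0) = X 0 := by simp [chart]
@[simp] lemma chart_some_X1 (c : ℂ) : chart (some c) (X 1) = X 0 * (X 1 + C c) := by simp [chart]
@[simp] lemma chart_none_X0 : chart none (X 0) = X 0 * X 1 := by simp [chart]
@[simp] lemma chart_none_X1 : chart none (X 1) = X 0 := by simp [chart]

lemma chart_none (G : R2) : chart none G = chart (some 0) (sw G) := by
  have : chart none = (chart (some 0)).comp sw := algHom_ext fun i => by fin_cases i <;> simp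
  exact AlgHom.congr_fun this G

lemma Sol.chart_some (h : Sol t b F I n J A B) (c : ℂ) :
    Sol t b (chart (some c) F) (I.map (chart (some c))) n (X 0 * chart (some c) J)
      (fun τ => X 0 * chart (some c) (A τ))
      (fun τ => chart (some c) (B τ) - (X 1 + C c) * chart (some c) (A τ)) := by
  have e0 := fun G => chain (chart (some c)) 0 G
  have e1 := fun G => chain (chart (some c)) 1 G
  simp only [chart_some_X0, chart_some_X1, Derivation.leibniz, map_add, pderiv_C, pderiv_X_self,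
    smul_eq_mul, pderiv_X_of_ne (show (1 : Fin 2) ≠ 0 by decide),
    pderiv_X_of_ne (show (0 : Fin 2) ≠ 1 by decide)] at e0 e1
  refine (h.map (chart (some c)) (X 0) (X 0) 0 (-(X 1 + C c)) 1 (fun i => ?_)
    (fun A B => ?_)).congr rfl rfl rfl (by simp) (fun τ => by ring)
  · fin_cases i
    · exact ⟨X 0, -(X 1 + C c), fun G => by simp only [e0, e1, Fin.zero_eta]; ring⟩
    · exact ⟨0, 1, fun G => by simp only [e0, e1, Fin.mk_one]; ring⟩
  · simp only [Derivation.leibniz, map_add, pderiv_C, pderiv_X_self, map_neg, map_zero,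
      smul_eq_mul, Derivation.map_one_eq_zero, e0, e1]
    ring

lemma Sol.chart_none (h : Sol t b F I n J A B) :
    Sol t b (chart none F) (I.map (chart none)) n (X 0 * chart none J)
      (fun τ => X 0 * chart none (B τ))
      (fun τ => chart none (A τ) - X 1 * chart none (B τ)) := by
  refine (h.sw.chart_some 0).congr (H4.chart_none _) ?_ (by rw [H4.chart_none])
    (fun τ => by rw [H4.chart_none]) (fun τ => by simp [H4.chart_none])
  rw [Ideal.map_mapₐ]
  congr 1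
  exact algHom_ext fun i => by fin_cases i <;> simp

lemma Sol.shift (h : Sol t b F I n 1 A B) (P : Fin 2 → ℂ) :
    Sol t b (shift P F) (I.map (shift P)) n 1 (fun τ => shift P (A τ))
      (fun τ => shift P (B τ)) := by
  have e0 : ∀ G, pderiv 0 (H4.shift P G) = H4.shift P (pderiv 0 G) := fun G => by
    rw [chain (H4.shift P) 0 G]; simp [H4.shift]
  have e1 : ∀ G, pderiv 1 (H4.shift P G) = H4.shift P (pderiv 1 G) := fun G => by
    rw [chain (H4.shift P) 1 G]; simp [H4.shift]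
  refine (h.map (H4.shift P) 1 1 0 0 1 (fun i => ?_) (fun A B => ?_)).congr rfl rfl (by simp)
    (by simp) (by simp)
  · fin_cases i
    · exact ⟨1, 0, fun G => by simp [e0]⟩
    · exact ⟨0, 1, fun G => by simp [e1]⟩
  · simp [e0, e1]

end Sol

end Pool.Agent.MP_ee8c61_ag.H4
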