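import Pool.Agent.MP_ee8c61_ag.H4.Flag

/-! Components of the divisor that do not divide the Jacobian. -/

namespace Pool.Agent.MP_ee8c61_ag.H4

open Filter MvPolynomial
open scoped Polynomial

/-- families whose value at `t` is divisible by `h ^ (μ e + 1)` -/
def Aw (t : ℂ) (F h : R2) (μ : ℕ) (G : ℕ → R2) : Prop :=
  ∃ e v, PV t F e G v ∧ h ^ (μ * e + 1) ∣ v

variable {t : ℂ} {F h V : R2} {μ : ℕ} {G G' : ℕ → R2}

lemma Aw.level (hF : F = h ^ μ * V) {e : ℕ} {v : R2} (h2 : h ^ (μ * e + 1) ∣ v) (m : ℕ) :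
    h ^ (μ * (e + m) + 1) ∣ F ^ m * v := by
  obtain ⟨w, rfl⟩ := h2
  exact ⟨V ^ m * w, by rw [hF]; ring⟩

lemma Aw.pf (h1 : Aw t F h μ G) : PF t F G := by
  obtain ⟨e, v, h1, -⟩ := h1
  exact ⟨e, v, h1⟩

lemma Aw.add (hF : F = h ^ μ * V) (h1 : Aw t F h μ G) (h2 : Aw t F h μ G') :
    Aw t F h μ fun τ => G τ + G' τ := by
  obtain ⟨e, v, h1, h3⟩ := h1
  obtain ⟨e', v', h2, h4⟩ := h2
  exact ⟨e + e', _, (h1.shift e').add (add_comm e' e ▸ h2.shift e),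
    dvd_add (Aw.level hF h3 e') (add_comm e' e ▸ Aw.level hF h4 e)⟩

lemma Aw.pmul {g : ℕ → R2} {w : R2} (hg : PolV t g w) (h1 : Aw t F h μ G) :
    Aw t F h μ fun τ => g τ * G τ := by
  obtain ⟨e, v, h1, h3⟩ := h1
  exact ⟨e, _, h1.pmul hg, h3.mul_left w⟩

lemma Aw.congr (h1 : Aw t F h μ G) (h' : ∀ᶠ τ in atTop, G' τ = G τ) : Aw t F h μ G' := by
  obtain ⟨e, v, h1, h3⟩ := h1
  exact ⟨e, v, h1.congr h', h3⟩

lemma Aw.zero : Aw t F h μ fun _ => 0 := ⟨0, 0, ⟨_, PolV.const 0, by simp⟩, dvd_zero _⟩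

lemma Aw.der (hF : F = h ^ μ * V) (hc : μ * t + 1 = 0) (i : Fin 2) (h1 : Aw t F h μ G) :
    Aw t F h μ fun τ => pderiv i (G τ) := by
  obtain ⟨e, v, h1, w, rfl⟩ := h1
  refine ⟨e + 1, _, h1.deriv (pderiv i), ?_⟩
  obtain ⟨m, rfl⟩ : ∃ m, μ = m + 1 := by
    refine Nat.exists_eq_add_one.2 (Nat.pos_of_ne_zero ?_)
    rintro rfl; simp at hc
  have e1 := congrArg (C : ℂ → R2) hc
  refine ⟨V * pderiv i w + (C t - (e : R2)) * pderiv i V * w, ?_⟩
  simp only [hF, Derivation.leibniz, Derivation.leibniz_pow, smul_eq_mul, nsmul_eq_mul,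
    Nat.add_sub_cancel, algebraMap_eq, map_add, map_mul, map_natCast, map_one, map_zero] at e1 ⊢
  push_cast at e1 ⊢
  linear_combination h ^ ((m + 1) * (e + 1)) * V * pderiv i h * w * e1

lemma Aw.div {J : R2} (hF : F = h ^ μ * V) (hF0 : F ≠ 0) (hh : Prime h) (hJ : ¬h ∣ J)
    (hG : PF t F G) (h1 : Aw t F h μ fun τ => J * G τ) : Aw t F h μ G := by
  obtain ⟨e, v, h1, h3⟩ := h1
  obtain ⟨e', v', h2⟩ := hG
  have h4 := add_comm e' e ▸ h2.shift e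
  refine ⟨e + e', _, h4, hh.pow_dvd_of_dvd_mul_left _ hJ ?_⟩
  rw [(h4.cmul J).unique hF0 (h1.shift e')]
  exact Aw.level hF h3 e'

lemma h0_dvd {I : Ideal R2} {n : ℕ} {p g : R2} (hI : ∀ g ∈ I, p ∣ g) (hg : g ∈ I ^ n) :
    p ^ n ∣ g := by
  rw [← Ideal.mem_span_singleton, ← Ideal.span_singleton_pow]
  exact Ideal.pow_right_mono (fun g hg => Ideal.mem_span_singleton.2 (hI g hg)) _ hg

lemma H0.aw {I : Ideal R2} {n a : ℕ} (hI : ∀ g ∈ I, h ^ a ∣ g) (ha : 0 < a)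
    (h1 : H0 t F I n G) : Aw t F h (n * a) G := by
  obtain ⟨e, g, v, hg, h1⟩ := h1
  refine ⟨e, v, ⟨g, hg, h1.mono fun τ h => h.2⟩, Ideal.mem_span_singleton.1
    (hg.mem ((Ideal.span {h ^ (n * a * e + 1)}).restrictScalars ℂ) (h1.mono fun τ h2 => ?_))⟩
  refine Ideal.mem_span_singleton.2 (dvd_trans ?_ (h0_dvd hI h2.1))
  rw [← pow_mul]
  exact pow_dvd_pow _ (by nlinarith)

lemma Gn.aw {I : Ideal R2} {n a : ℕ} {J : R2} (hI : ∀ g ∈ I, h ^ a ∣ g)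
    (hF : F = h ^ (n * a) * V) (hF0 : F ≠ 0) (hc : (n * a : ℕ) * t + 1 = 0) (hh : Prime h)
    (hJ : ¬h ∣ J) (h1 : Gn t F I n J G) : Aw t F h (n * a) G := by
  have ha : 0 < a := Nat.pos_of_ne_zero (by rintro rfl; simp at hc)
  induction h1 with
  | base H h => exact h.aw hI ha
  | add G G' _ _ ih ih' => exact ih.add hF ih'
  | pmul g w G hg _ ih => exact ih.pmul hg
  | der i G _ ih => exact ih.der hF hc i
  | div G hG _ ih => exact ih.div hF hF0 hh hJ hG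
  | congr G G' _ h' ih => exact ih.congr h'

lemma pv_poly (p : ℂ[X]) (F J : R2) :
    PV t F 0 (fun τ => C (p.eval (τ : ℂ)) * F ^ τ * J) (C (p.eval t) * J) :=
  (((PV.pow F).pmul ((PolV.poly p).mul (PolV.const J))).congr
    (Eventually.of_forall fun τ => by simp only [algebraMap_eq]; ring)).congr_val (by simp)

theorem Sol.root {b : ℂ[X]} {I : Ideal R2} {n a : ℕ} {J : R2} {A B : ℕ → R2}
    (hs : Sol t b F I n J A B) (hI : ∀ g ∈ I, h ^ a ∣ g) (hF : F = h ^ (n * a) * V)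
    (hc : (n * a : ℕ) * t + 1 = 0) (hh : Prime h) (hV : ¬h ∣ V) (hJ : ¬h ∣ J) :
    b.eval (n * t) = 0 := by
  have ha : 0 < a := Nat.pos_of_ne_zero (by rintro rfl; simp at hc)
  have hF0 : F ≠ 0 := by
    rw [hF]; exact mul_ne_zero (pow_ne_zero _ hh.ne_zero) fun h0 => hV (h0 ▸ dvd_zero h)
  obtain ⟨H, h1, h2⟩ := hs.eq
  have a1 := (h1.aw hI ha).pmul (PolV.const J)
  have a2 := (hs.gA.aw hI hF hF0 hc hh hJ).der hF hc 0
  have a3 := (hs.gB.aw hI hF hF0 hc hh hJ).der hF hc 1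
  have a4 : Aw t F h (n * a) fun τ => C (b.eval ((n : ℂ) * τ)) * F ^ τ * J :=
    ((a1.add hF a2).add hF a3).congr (h2.mono fun τ e => by rw [e, mul_comm (H τ)])
  obtain ⟨e, v, h3, h4⟩ := a4
  have h5 := (pv_poly (t := t) (b.comp (Polynomial.C (n : ℂ) * Polynomial.X)) F J).shift e
  simp only [Polynomial.eval_comp, Polynomial.eval_mul, Polynomial.eval_C, Polynomial.eval_X,
    zero_add] at h5
  rw [h3.unique hF0 h5, hF, mul_pow, ← pow_mul, pow_succ, mul_assoc (h ^ _),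
    mul_dvd_mul_iff_left (pow_ne_zero _ hh.ne_zero)] at h4
  by_contra h6
  have h9 : IsUnit (C (b.eval (n * t)) : R2) := (Ne.isUnit h6).map (C : ℂ →+* R2)
  rcases hh.dvd_or_dvd h4 with h7 | h7
  · exact hV (hh.dvd_of_dvd_pow h7)
  · rcases hh.dvd_or_dvd h7 with h8 | h8
    · exact hh.not_isUnit (isUnit_of_dvd_unit h8 h9)
    · exact hJ h8

theorem Aw.nv {M i : ℕ} {w U : R2} {w0 : ℂ} (hF : F = X 0 ^ M * w ^ μ * U) (hw : Lx w 0 1 w0)
    (hc : μ * t + 1 = 0) (h1 : Aw t F w μ G) :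
    NV t (w0 ^ μ * constantCoeff U) (fun τ => lc (G τ) (M * τ + i) (μ * τ + 0)) 0 := by
  obtain ⟨e, v, ⟨g, hg, h1⟩, v', rfl⟩ := h1
  obtain ⟨g1, v1, hg1, hs⟩ := hg.split
  have hL : Lx F M μ (w0 ^ μ * constantCoeff U) :=
    (((Lx.X0.pow M).mul (hw.pow μ)).mul (Lx.unit U)).congr hF (by simp) (by simp) (by simp)
  have p2 := NV.eps (PF.lc (G := fun τ => F ^ (τ - e) * g1 τ) ⟨e, v1, g1, hg1, by simp⟩ hL i 0)
  obtain ⟨W, p, e1, e2, rfl⟩ := hw
  rw [pow_zero, one_mul] at e1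
  rw [pow_one] at e2
  have hY : PF t (io U) fun τ => io U ^ (τ - e) * io v' := ⟨e, _, _, PolV.const (io v'), by simp⟩
  choose z hz1 hz2 using coeff_pow_succ (t := t) W μ
  have hR : PF t (Polynomial.X ^ μ * (p ^ μ * PowerSeries.constantCoeff (io U))) fun τ =>
      ∑ x ∈ Finset.HasAntidiagonal.antidiagonal (M * e + i), if x.1 = 0 then 0 else
        z (x.1 - 1) τ * PowerSeries.coeff x.2 (io U ^ (τ - e) * io v') := by
    refine PF.sum _ fun x _ => ?_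
    split_ifs
    · exact PF.zero
    · have := (hz1 (x.1 - 1)).mul (hY.coeff x.2)
      rwa [e2, mul_pow, mul_assoc] at this
  have p1 := (NV.eps (hR.pcoeff 0)).cmul μ
  rw [Polynomial.mul_coeff_zero, cc_io, Polynomial.coeff_zero_eq_eval_zero, Polynomial.eval_pow,
    ← Polynomial.coeff_zero_eq_eval_zero] at p1
  have := p1.add p2
  rw [mul_zero, add_zero] at this
  refine this.congr ?_
  filter_upwards [h1, hs, eventually_ge_atTop e] with τ a1 a2 a3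
  obtain ⟨m, rfl⟩ := Nat.exists_eq_add_of_le a3
  rw [a1, a2, mul_add, mul_left_comm _ (_ - _), lc, map_add, Polynomial.coeff_add]
  congr 1
  · have a4 : io (F ^ (e + m - e) * (w ^ (μ * e + 1) * v')) = PowerSeries.X ^ (M * m) *
        (W ^ (μ * (e + m) + 1) * (io U ^ (e + m - e) * io v')) := by
      simp only [hF, map_mul, map_pow, io_X0, e1, Nat.add_sub_cancel_left]; ring
    rw [ld_apply, a4, show M * (e + m) + i = M * e + i + M * m by ring,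
      PowerSeries.coeff_X_pow_mul, PowerSeries.coeff_mul, Polynomial.finsetSum_coeff,
      Polynomial.finsetSum_coeff, Finset.mul_sum, Finset.mul_sum]
    refine Finset.sum_congr rfl fun x _ => ?_
    split_ifs with a5
    · rw [a5, PowerSeries.coeff_zero_eq_constantCoeff, map_pow, e2, mul_pow, mul_assoc,
        Polynomial.coeff_X_pow_mul', if_neg (by omega)]
      simp
    · obtain ⟨y, hy⟩ := Nat.exists_eq_add_one.2 (Nat.pos_of_ne_zero a5)
      rw [hy, hz2, Nat.add_sub_cancel, mul_assoc, show ((μ : ℂ[X]) * (e + m : ℕ) + 1) =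
        Polynomial.C ((μ : ℂ) * (e + m : ℕ) + 1) by simp, Polynomial.coeff_C_mul, ← mul_assoc]
      congr 1
      linear_combination hc
  · rw [show (((e + m : ℕ) : R2) - algebraMap ℂ R2 t) = C (((e + m : ℕ) : ℂ) - t) by simp,
      ld_C_mul, Polynomial.coeff_C_mul, lc]

/-- the class used at a node of two branches that do not divide the Jacobian -/
def Bw (t : ℂ) (z w U : R2) (μ : ℕ) (G : ℕ → R2) : Prop :=
  ∃ g G1 G2, PF t U g ∧ Aw t (z ^ μ * w ^ μ * U) z μ G1 ∧ Aw t (z ^ μ * w ^ μ * U) w μ G2 ∧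
    ∀ᶠ τ : ℕ in atTop, G τ = (z * w) ^ (μ * τ + 1) * g τ + C ((τ : ℂ) - t) * (G1 τ + G2 τ)

variable {z w U : R2}

lemma Bw.add (h1 : Bw t z w U μ G) (h2 : Bw t z w U μ G') : Bw t z w U μ fun τ => G τ + G' τ := by
  obtain ⟨g, G1, G2, a1, a2, a3, a4⟩ := h1
  obtain ⟨g', G1', G2', b1, b2, b3, b4⟩ := h2
  refine ⟨_, _, _, a1.add b1, a2.add (V := w ^ μ * U) (by ring) b2,
    a3.add (V := z ^ μ * U) (by ring) b3, ?_⟩
  filter_upwards [a4, b4] with τ e1 e2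
  rw [e1, e2]; ring

lemma Bw.der (hc : μ * t + 1 = 0) (i : Fin 2) (h1 : Bw t z w U μ G) :
    Bw t z w U μ fun τ => pderiv i (G τ) := by
  obtain ⟨g, G1, G2, a1, a2, a3, a4⟩ := h1
  have a5 := a1.deriv (pderiv i)
  obtain ⟨e, v, g0, a6, a7⟩ := a1
  have key : ∀ y : R2, PV t (z ^ μ * w ^ μ * U) e (fun τ => y * ((z * w) ^ (μ * τ) * g τ))
      (y * ((z * w) ^ (μ * e) * v)) := fun y => by
    refine PV.cmul y ⟨_, a6.cmul _, ?_⟩
    filter_upwards [a7, eventually_ge_atTop e] with τ e1 e2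
    obtain ⟨m, rfl⟩ := Nat.exists_eq_add_of_le e2
    rw [e1, Nat.add_sub_cancel_left]; ring
  refine ⟨_, _, _, a5, (a2.der (V := w ^ μ * U) (by ring) hc i).add (V := w ^ μ * U) (by ring)
    ⟨e, _, key (μ * z * pderiv i w), ⟨μ * pderiv i w * w ^ (μ * e) * v, by ring⟩⟩,
    (a3.der (V := z ^ μ * U) (by ring) hc i).add (V := z ^ μ * U) (by ring)
    ⟨e, _, key (μ * w * pderiv i z), ⟨μ * pderiv i z * z ^ (μ * e) * v, by ring⟩⟩, ?_⟩
  filter_upwards [a4] with τ e1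
  have e2 := congrArg (C : ℂ → R2) hc
  rw [e1, map_add, pderiv_C_mul]
  simp only [Derivation.leibniz, Derivation.leibniz_pow, smul_eq_mul, nsmul_eq_mul,
    Nat.add_sub_cancel, map_add, map_mul, map_natCast, map_one, map_zero, map_sub] at e2 ⊢
  push_cast
  linear_combination (z * w) ^ (μ * τ) * g τ * (z * pderiv i w + w * pderiv i z) * e2

lemma H0.bw {I : Ideal R2} {n a : ℕ} (hI : ∀ g ∈ I, z ^ a * w ^ a ∣ g) (ha : 0 < a)
    (h0 : z * w ≠ 0) (h1 : H0 t (z ^ (n * a) * w ^ (n * a) * U) I n G) :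
    Bw t z w U (n * a) G := by
  obtain ⟨e, g, v, hg, h1⟩ := h1
  have : ∀ τ, ∃ y, g τ ∈ I ^ (n * e + 1) → g τ = (z * w) ^ (n * a * e + 1) * y := fun τ => by
    by_cases h2 : g τ ∈ I ^ (n * e + 1)
    · obtain ⟨y, hy⟩ : (z * w) ^ (n * a * e + 1) ∣ g τ := by
        refine dvd_trans ?_ (h0_dvd hI h2)
        rw [← mul_pow, ← pow_mul]
        exact pow_dvd_pow _ (by nlinarith)
      exact ⟨y, fun _ => hy⟩
    · exact ⟨0, fun h => absurd h h2⟩
  choose y hy using this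
  obtain ⟨v', h2, -⟩ := hg.div (pow_ne_zero _ h0) (h1.mono fun τ h => hy τ h.1)
  refine ⟨fun τ => U ^ (τ - e) * y τ, _, _, ⟨e, v', y, h2, by simp⟩, Aw.zero, Aw.zero, ?_⟩
  filter_upwards [h1, eventually_ge_atTop e] with τ e1 e2
  obtain ⟨m, rfl⟩ := Nat.exists_eq_add_of_le e2
  rw [e1.2, hy _ e1.1, Nat.add_sub_cancel_left]; ring

lemma Gn.bw {I : Ideal R2} {n a : ℕ} (hI : ∀ g ∈ I, z ^ a * w ^ a ∣ g) (h0 : z * w ≠ 0)
    (hc : (n * a : ℕ) * t + 1 = 0) (h1 : Gn t (z ^ (n * a) * w ^ (n * a) * U) I n 1 G) :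
    Bw t z w U (n * a) G := by
  have ha : 0 < a := Nat.pos_of_ne_zero (by rintro rfl; simp at hc)
  induction h1 with
  | base H h => exact h.bw hI ha h0
  | add G G' _ _ ih ih' => exact ih.add ih'
  | pmul g w' G hg _ ih =>
    obtain ⟨g0, G1, G2, a1, a2, a3, a4⟩ := ih
    exact ⟨_, _, _, a1.pmul hg, a2.pmul hg, a3.pmul hg, a4.mono fun τ e => by
      simp only [e]; ring⟩
  | der i G _ ih => exact ih.der hc i
  | div G hG _ ih => simpa using ih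
  | congr G G' _ h' ih =>
    obtain ⟨g0, G1, G2, a1, a2, a3, a4⟩ := ih
    exact ⟨_, _, _, a1, a2, a3, by filter_upwards [a4, h'] with τ e1 e2 using e2.trans e1⟩

theorem Sol.double {b b1 : ℂ[X]} {I : Ideal R2} {n a : ℕ} {A B : ℕ → R2}
    (hs : Sol t b (z ^ (n * a) * w ^ (n * a) * U) I n 1 A B) (hI : ∀ g ∈ I, z ^ a * w ^ a ∣ g)
    (hc : (n * a : ℕ) * t + 1 = 0) (hz : Prime z) (hw : w ≠ 0) (hzw : ¬z ∣ w)
    (z0 : constantCoeff z = 0) (w0 : constantCoeff w = 0) (U0 : constantCoeff U ≠ 0)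
    (hb : ∀ τ : ℂ, b.eval (n * τ) = (τ - t) * b1.eval τ) : b1.eval t = 0 := by
  have ha : 0 < a := Nat.pos_of_ne_zero (by rintro rfl; simp at hc)
  have h0 := mul_ne_zero hz.ne_zero hw
  have hU : U ≠ 0 := by rintro rfl; simp at U0
  obtain ⟨H, h1, h2⟩ := hs.eq
  obtain ⟨g, G1, G2, ⟨e, v, g0, a0, a1⟩, a2, a3, a4⟩ := ((h1.bw hI ha h0).add
    ((hs.gA.bw hI h0 hc).der hc 0)).add ((hs.gB.bw hI h0 hc).der hc 1)
  generalize n * a = μ at *
  have hF0 : z ^ μ * w ^ μ * U ≠ 0 :=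
    mul_ne_zero (mul_ne_zero (pow_ne_zero _ hz.ne_zero) (pow_ne_zero _ hw)) hU
  have key : ∀ {y : ℕ → R2} {v : R2}, PolV t y v → PV t (z ^ μ * w ^ μ * U) e
      (fun τ => (z * w) ^ (μ * τ + 1) * (U ^ (τ - e) * y τ)) ((z * w) ^ (μ * e + 1) * v) :=
    fun {y v} hy => by
      refine ⟨_, hy.cmul _, ?_⟩
      filter_upwards [eventually_ge_atTop e] with τ e2
      obtain ⟨m, rfl⟩ := Nat.exists_eq_add_of_le e2
      rw [Nat.add_sub_cancel_left]; ring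
  have b0 := pv_poly (t := t) b1 (z ^ μ * w ^ μ * U) 1
  obtain ⟨m, b2⟩ := ((PF.sub ⟨_, _, b0⟩ a2.pf).sub a3.pf).eps
  have b3 : v = 0 := by
    have := ((key a0).shift m).unique hF0 ((add_comm m e ▸ b2.shift e).congr (by
      filter_upwards [h2, a4, a1] with τ e1 e2 e3
      rw [mul_one (H τ), e2, hb, e3] at e1
      simp only [map_sub, map_mul, map_natCast, algebraMap_eq] at e1 ⊢
      linear_combination -e1))
    rw [mul_zero] at this
    simpa [hF0, h0] using this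
  obtain ⟨g1, v1, b4, b5⟩ := a0.split
  have b6 : Aw t (z ^ μ * w ^ μ * U) z μ fun τ =>
      (z * w) ^ (μ * τ + 1) * (U ^ (τ - e) * g1 τ) + G1 τ :=
    Aw.add (V := w ^ μ * U) (by ring) ⟨e, _, key b4, ⟨w ^ (μ * e + 1) * v1, by ring⟩⟩ a2
  obtain ⟨e1, x1, c1, d1⟩ := b6
  obtain ⟨e2, x2, c2, d2⟩ := a3
  have c3 := (c1.shift e2).add (add_comm e2 e1 ▸ c2.shift e1)
  have c4 := b0.shift (e1 + e2)
  rw [zero_add] at c4
  have c5 := c4.unique hF0 (c3.congr (by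
    filter_upwards [h2, a4, a1, b5] with τ e1 e2 e3 e4
    have e5 : (C ((τ : ℂ) - t) : R2) ≠ 0 :=
      C_ne_zero.2 (ne_of_crit (M := μ) (k := 0) (by simpa using hc) τ)
    refine mul_left_cancel₀ e5 ?_
    rw [mul_one (H τ), e2, hb, e3, e4, b3] at e1
    simp only [map_sub, map_mul, map_natCast, algebraMap_eq] at e1 ⊢
    linear_combination e1))
  obtain ⟨y1, d3⟩ := Aw.level (F := z ^ μ * w ^ μ * U) (V := w ^ μ * U) (by ring) d1 e2
  obtain ⟨y2, d4⟩ := Aw.level (F := z ^ μ * w ^ μ * U) (V := z ^ μ * U) (by ring) d2 e1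
  rw [d3, d4, add_comm e2 e1] at c5
  generalize e1 + e2 = E at c5
  obtain ⟨y3, rfl⟩ : z ^ (μ * E) ∣ y2 := by
    refine hz.pow_dvd_of_dvd_mul_left (a := w ^ (μ * E + 1)) _ (fun h => hzw (hz.dvd_of_dvd_pow h))
      ⟨w ^ (μ * E) * U ^ E * C (b1.eval t) - z * y1, ?_⟩
    linear_combination -c5
  have d5 : z ∣ w ^ (μ * E) * (U ^ E * C (b1.eval t) - w * y3) := by
    refine ⟨y1, mul_left_cancel₀ (pow_ne_zero (μ * E) hz.ne_zero) ?_⟩
    linear_combination c5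
  obtain ⟨y4, d6⟩ := (hz.dvd_or_dvd d5).resolve_left fun h => hzw (hz.dvd_of_dvd_pow h)
  have := congrArg constantCoeff d6
  simpa [z0, w0, U0] using this

end Pool.Agent.MP_ee8c61_ag.H4
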